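import Mathlib

/-! Combinatorial part: a superadditive, homogeneous, shift-linear function with values in `ℕ`
is a minimum of finitely many linear forms, hence the monoid below its graph is finitely
generated. -/

namespace Pool.Agent.J6H94.SymbVC

open Finset

section Fun

variable {σ : Type*} [Fintype σ]

/-- the all ones exponent -/
noncomputable def ones (σ : Type*) [Fintype σ] : σ →₀ ℕ := Finsupp.equivFunOnFinite.symm (fun _ => 1)

@[simp] lemma ones_apply (i : σ) : ones σ i = 1 := rfl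

/-- Good functions. -/
structure Good (h : ℕ) (Φ : (σ →₀ ℕ) → ℕ) : Prop where
  superadd : ∀ x y, Φ x + Φ y ≤ Φ (x + y)
  homog : ∀ (n : ℕ) x, Φ (n • x) ≤ n * Φ x
  shift : ∀ x, Φ (x + ones σ) = Φ x + h

namespace Good

variable {h : ℕ} {Φ : (σ →₀ ℕ) → ℕ}

lemma zero (H : Good h Φ) : Φ 0 = 0 := by
  have := H.homog 0 0
  simpa using this

lemma mono (H : Good h Φ) {x y : σ →₀ ℕ} (hxy : x ≤ y) : Φ x ≤ Φ y := by
  obtain ⟨z, rfl⟩ := exists_add_of_le hxy
  have := H.superadd x z
  omega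

lemma homog' (H : Good h Φ) (n : ℕ) (x : σ →₀ ℕ) : Φ (n • x) = n * Φ x := by
  apply le_antisymm (H.homog n x)
  induction n with
  | zero => simp
  | succ n ih =>
    have := H.superadd (n • x) x
    rw [succ_nsmul]
    calc (n + 1) * Φ x = n * Φ x + Φ x := by ring
      _ ≤ Φ (n • x) + Φ x := by omega
      _ ≤ _ := this

lemma shift' (H : Good h Φ) (n : ℕ) (x : σ →₀ ℕ) : Φ (x + n • ones σ) = Φ x + n * h := by
  induction n with
  | zero => simp
  | succ n ih =>
    rw [succ_nsmul, ← add_assoc, H.shift, ih]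
    ring

lemma le_ones (x : σ →₀ ℕ) : ∃ M : ℕ, x ≤ M • ones σ := by
  refine ⟨∑ i, x i, fun i => ?_⟩
  simp only [Finsupp.smul_apply, ones_apply, smul_eq_mul, mul_one]
  exact Finset.single_le_sum (f := fun i => x i) (fun _ _ => Nat.zero_le _) (Finset.mem_univ i)

/-- the values whose supremum is the directional limit -/
noncomputable def seq (Φ : (σ →₀ ℕ) → ℕ) (u x : σ →₀ ℕ) (n : ℕ) : ℕ := Φ (n • u + x) - n * Φ u

lemma seq_spec (H : Good h Φ) (u x : σ →₀ ℕ) (n : ℕ) : seq Φ u x n + n * Φ u = Φ (n • u + x) := by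
  unfold seq
  have h1 := H.superadd (n • u) x
  rw [H.homog'] at h1
  omega

lemma seq_mono (H : Good h Φ) (u x : σ →₀ ℕ) : Monotone (seq Φ u x) := by
  apply monotone_nat_of_le_succ
  intro n
  have h1 := H.seq_spec u x n
  have h2 := H.seq_spec u x (n + 1)
  have h3 := H.superadd u (n • u + x)
  have h4 : u + (n • u + x) = (n + 1) • u + x := by
    rw [succ_nsmul]; abel
  rw [h4] at h3
  have h5 : (n + 1) * Φ u = n * Φ u + Φ u := by ring
  omega

lemma seq_bdd (H : Good h Φ) (u x : σ →₀ ℕ) : ∃ B, ∀ n, seq Φ u x n ≤ B := by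
  obtain ⟨M, hM⟩ := le_ones x
  refine ⟨M * h, fun n => ?_⟩
  have h1 := H.seq_spec u x n
  have h2 : Φ (n • u + x) ≤ Φ (n • u + M • ones σ) := H.mono (add_le_add le_rfl hM)
  rw [H.shift', H.homog'] at h2
  omega

lemma seq_event (H : Good h Φ) (u x : σ →₀ ℕ) : ∃ N, ∀ n, N ≤ n → seq Φ u x n = seq Φ u x N := by
  obtain ⟨B, hB⟩ := H.seq_bdd u x
  have hm := H.seq_mono u x
  -- the range is a bounded set of naturals, take the maximum
  have : ∃ N, ∀ n, seq Φ u x n ≤ seq Φ u x N := by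
    by_contra hcon
    push Not at hcon
    have key : ∀ k, ∃ n, k ≤ seq Φ u x n := by
      intro k
      induction k with
      | zero => exact ⟨0, Nat.zero_le _⟩
      | succ k ih =>
        obtain ⟨n, hn⟩ := ih
        obtain ⟨n', hn'⟩ := hcon n
        exact ⟨n', by omega⟩
    obtain ⟨n, hn⟩ := key (B + 1)
    have := hB n
    omega
  obtain ⟨N, hN⟩ := this
  exact ⟨N, fun n hn => le_antisymm (hN n) (hm hn)⟩

/-- the directional limit -/
noncomputable def dir (H : Good h Φ) (u : σ →₀ ℕ) (x : σ →₀ ℕ) : ℕ :=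
  seq Φ u x (H.seq_event u x).choose

lemma dir_spec (H : Good h Φ) (u x : σ →₀ ℕ) :
    ∃ N, ∀ n, N ≤ n → Φ (n • u + x) = H.dir u x + n * Φ u := by
  refine ⟨(H.seq_event u x).choose, fun n hn => ?_⟩
  rw [← H.seq_spec, (H.seq_event u x).choose_spec n hn]
  rfl

lemma le_dir (H : Good h Φ) (u x : σ →₀ ℕ) (n : ℕ) : Φ (n • u + x) ≤ H.dir u x + n * Φ u := by
  obtain ⟨N, hN⟩ := H.dir_spec u x
  have h1 := hN (max n N) (le_max_right _ _)
  have h2 := H.seq_mono u x (le_max_left n N)
  have h3 := H.seq_spec u x n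
  have h4 := H.seq_spec u x (max n N)
  omega

lemma dir_good (H : Good h Φ) (u : σ →₀ ℕ) : Good h (H.dir u) := by
  refine ⟨?_, ?_, ?_⟩
  · intro x y
    obtain ⟨N1, h1⟩ := H.dir_spec u x
    obtain ⟨N2, h2⟩ := H.dir_spec u y
    obtain ⟨N3, h3⟩ := H.dir_spec u (x + y)
    set n := max (max N1 N2) N3
    have e1 := h1 n (by omega)
    have e2 := h2 n (by omega)
    have e3 := h3 (n + n) (by omega)
    have e4 := H.superadd (n • u + x) (n • u + y)
    have e5 : n • u + x + (n • u + y) = (n + n) • u + (x + y) := by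
      rw [add_nsmul]; abel
    rw [e5, e1, e2, e3] at e4
    have e6 : (n + n) * Φ u = n * Φ u + n * Φ u := by ring
    omega
  · intro k x
    rcases Nat.eq_zero_or_pos k with rfl | hk
    · simp only [zero_smul, zero_mul, nonpos_iff_eq_zero]
      obtain ⟨N1, h1⟩ := H.dir_spec u 0
      have := h1 N1 le_rfl
      rw [add_zero, H.homog'] at this
      omega
    obtain ⟨N1, h1⟩ := H.dir_spec u (k • x)
    obtain ⟨N2, h2⟩ := H.dir_spec u x
    set n := max N1 N2
    have e1 := h1 (k * n) (by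
      have : n ≤ k * n := Nat.le_mul_of_pos_left _ hk
      omega)
    have e2 := h2 n (by omega)
    have e3 : (k * n) • u + k • x = k • (n • u + x) := by
      rw [smul_add, smul_smul]
    rw [e3, H.homog', e2] at e1
    have e4 : k * (H.dir u x + n * Φ u) = k * H.dir u x + k * n * Φ u := by ring
    omega
  · intro x
    obtain ⟨N1, h1⟩ := H.dir_spec u (x + ones σ)
    obtain ⟨N2, h2⟩ := H.dir_spec u x
    set n := max N1 N2
    have e1 := h1 n (by omega)
    have e2 := h2 n (by omega)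
    rw [← add_assoc, H.shift, e2] at e1
    omega

lemma self_le_dir (H : Good h Φ) (u x : σ →₀ ℕ) : Φ x ≤ H.dir u x := by
  have := H.le_dir u x 0
  simpa using this

/-- `w` is a direction of linearity with value `c` -/
def Lin (Φ : (σ →₀ ℕ) → ℕ) (w : σ →₀ ℕ) (c : ℕ) : Prop := ∀ x, Φ (x + w) = Φ x + c

lemma dir_lin_self (H : Good h Φ) (u : σ →₀ ℕ) : Lin (H.dir u) u (Φ u) := by
  intro x
  obtain ⟨N1, h1⟩ := H.dir_spec u (x + u)
  obtain ⟨N2, h2⟩ := H.dir_spec u x
  set n := max N1 N2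
  have e1 := h1 n (by omega)
  have e2 := h2 (n + 1) (by omega)
  have e3 : n • u + (x + u) = (n + 1) • u + x := by
    rw [succ_nsmul]; abel
  rw [e3, e2] at e1
  have e4 : (n + 1) * Φ u = n * Φ u + Φ u := by ring
  omega

lemma dir_lin_of_lin (H : Good h Φ) (u : σ →₀ ℕ) {w : σ →₀ ℕ} {c : ℕ} (hw : Lin Φ w c) :
    Lin (H.dir u) w c := by
  intro x
  obtain ⟨N1, h1⟩ := H.dir_spec u (x + w)
  obtain ⟨N2, h2⟩ := H.dir_spec u x
  set n := max N1 N2
  have e1 := h1 n (by omega)
  have e2 := h2 n (by omega)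
  rw [← add_assoc, hw, e2] at e1
  omega

/-- processing all the coordinate directions -/
lemma exists_lin (H : Good h Φ) (s : Finset σ) :
    ∃ Ψ : (σ →₀ ℕ) → ℕ, Good h Ψ ∧ (∀ x, Φ x ≤ Ψ x) ∧ (∀ i ∈ s, ∃ c, Lin Ψ (Finsupp.single i 1) c) ∧
      ∀ w c, Lin Φ w c → Lin Ψ w c := by
  classical
  induction s using Finset.induction_on with
  | empty => exact ⟨Φ, H, fun _ => le_rfl, by simp, fun _ _ h => h⟩
  | insert i s hi ih =>
    obtain ⟨Ψ, hΨ, hle, hlin, hpres⟩ := ih
    refine ⟨hΨ.dir (Finsupp.single i 1), hΨ.dir_good _, fun x => (hle x).trans (hΨ.self_le_dir _ x), ?_, ?_⟩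
    · intro j hj
      rcases Finset.mem_insert.mp hj with rfl | hj
      · exact ⟨_, hΨ.dir_lin_self _⟩
      · obtain ⟨c, hc⟩ := hlin j hj
        exact ⟨c, hΨ.dir_lin_of_lin _ hc⟩
    · intro w c hw
      exact hΨ.dir_lin_of_lin _ (hpres w c hw)

lemma lin_sum {Ψ : (σ →₀ ℕ) → ℕ} (h0 : Ψ 0 = 0) {c : σ → ℕ}
    (hlin : ∀ i, Lin Ψ (Finsupp.single i 1) (c i)) (x : σ →₀ ℕ) : Ψ x = ∑ i, c i * x i := by
  classical
  have key : ∀ (i : σ) (n : ℕ) (y : σ →₀ ℕ), Ψ (y + Finsupp.single i n) = Ψ y + c i * n := by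
    intro i n
    induction n with
    | zero => intro y; simp
    | succ n ih =>
      intro y
      rw [show n + 1 = n + 1 from rfl, Finsupp.single_add, ← add_assoc, hlin i, ih]
      ring
  induction x using Finsupp.induction with
  | zero => simp [h0]
  | single_add i n f hif hn ih =>
    rw [add_comm, key, ih]
    have : ∀ j, c j * (f + Finsupp.single i n) j = c j * f j + (if j = i then c j * n else 0) := by
      intro j
      simp only [Finsupp.add_apply, Finsupp.single_apply, mul_add]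
      by_cases hj : i = j
      · simp [hj]
      · simp [hj, Ne.symm hj]
    simp only [this, Finset.sum_add_distrib, Finset.sum_ite_eq', Finset.mem_univ, if_true]

/-- supporting integral linear form -/
lemma exists_support (H : Good h Φ) (a : σ →₀ ℕ) :
    ∃ c : σ → ℕ, (∀ x, Φ x ≤ ∑ i, c i * x i) ∧ ∑ i, c i * a i = Φ a ∧ ∑ i, c i = h := by
  classical
  obtain ⟨Ψ, hΨ, hle, hlin, hpres⟩ := (H.dir_good a).exists_lin (Finset.univ : Finset σ)
  choose! c hc using hlin
  have hsum := lin_sum hΨ.zero (fun i => hc i (Finset.mem_univ i))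
  refine ⟨c, fun x => ?_, ?_, ?_⟩
  · rw [← hsum]
    exact (H.self_le_dir a x).trans (hle x)
  · rw [← hsum]
    have := hpres a _ (H.dir_lin_self a) 0
    rw [zero_add, hΨ.zero, zero_add] at this
    exact this
  · have h1 := hsum (ones σ)
    have h2 := hΨ.shift 0
    rw [zero_add, hΨ.zero, zero_add] at h2
    rw [h2] at h1
    simpa using h1.symm

end Good

/-- The monoid below the graph. -/
def below (Φ : (σ →₀ ℕ) → ℕ) (hsup : ∀ x y, Φ x + Φ y ≤ Φ (x + y)) :
    AddSubmonoid ((σ →₀ ℕ) × ℕ) where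
  carrier := {p | p.2 ≤ Φ p.1}
  zero_mem' := by simp
  add_mem' := by
    rintro ⟨a, k⟩ ⟨b, l⟩ (h1 : k ≤ Φ a) (h2 : l ≤ Φ b)
    have := hsup a b
    change k + l ≤ Φ (a + b)
    omega

lemma below_fg {h : ℕ} {Φ : (σ →₀ ℕ) → ℕ} (H : Good h Φ) : (below Φ H.superadd).FG := by
  classical
  -- the finite set of linear forms
  let C := {c : σ → Fin (h + 1) // ∀ x : σ →₀ ℕ, Φ x ≤ ∑ i, (c i : ℕ) * x i}
  -- Φ as a minimum
  have hmin : ∀ (a : σ →₀ ℕ) (k : ℕ), k ≤ Φ a ↔ ∀ c : C, k ≤ ∑ i, (c.1 i : ℕ) * a i := by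
    intro a k
    constructor
    · intro hk c
      exact hk.trans (c.2 a)
    · intro hall
      obtain ⟨c, hc1, hc2, hc3⟩ := H.exists_support a
      have hbd : ∀ i, c i < h + 1 := by
        intro i
        have := Finset.single_le_sum (f := c) (fun _ _ => Nat.zero_le _) (Finset.mem_univ i)
        omega
      have := hall ⟨fun i => ⟨c i, hbd i⟩, hc1⟩
      simpa [hc2] using this
  -- slack variables
  let f : (σ → ℕ) × ℕ × (C → ℕ) →+ (C → ℕ) :=
    { toFun := fun p c => ∑ i, (c.1 i : ℕ) * p.1 i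
      map_zero' := by ext c; simp
      map_add' := by intro p q; ext c; simp [mul_add, Finset.sum_add_distrib] }
  let g : (σ → ℕ) × ℕ × (C → ℕ) →+ (C → ℕ) :=
    { toFun := fun p c => p.2.1 + p.2.2 c
      map_zero' := by ext c; simp
      map_add' := by intro p q; ext c; simp; ring }
  have hfg : (f.eqLocusM g).FG := AddSubmonoid.fg_eqLocusM f g
  let π : (σ → ℕ) × ℕ × (C → ℕ) →+ (σ →₀ ℕ) × ℕ :=
    { toFun := fun p => (Finsupp.equivFunOnFinite.symm p.1, p.2.1)
      map_zero' := by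
        apply Prod.ext
        · ext i; simp
        · rfl
      map_add' := by
        intro p q
        apply Prod.ext
        · ext i; simp
        · rfl }
  have hmap : (f.eqLocusM g).map π = below Φ H.superadd := by
    ext ⟨a, k⟩
    constructor
    · rintro ⟨⟨b, l, s⟩, hb, hπ⟩
      have hb' : f (b, l, s) = g (b, l, s) := hb
      have h1 : Finsupp.equivFunOnFinite.symm b = a := congrArg Prod.fst hπ
      have h2 : l = k := congrArg Prod.snd hπ
      subst h1 h2
      change l ≤ Φ _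
      rw [hmin]
      intro c
      have := congrFun hb' c
      change ∑ i, (c.1 i : ℕ) * b i = l + s c at this
      change l ≤ ∑ i, (c.1 i : ℕ) * b i
      omega
    · intro hk
      change k ≤ Φ a at hk
      rw [hmin] at hk
      refine ⟨(fun i => a i, k, fun c => ∑ i, (c.1 i : ℕ) * a i - k), ?_, ?_⟩
      · change f _ = g _
        ext c
        change ∑ i, (c.1 i : ℕ) * a i = k + (∑ i, (c.1 i : ℕ) * a i - k)
        have := hk c
        omega
      · apply Prod.ext
        · ext i; rfl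
        · rfl
  rw [← hmap]
  exact hfg.map π

end Fun

section Value

variable {σ : Type*} [Fintype σ]

/-- Abstract properties of the value relation `V a k`: there is an element of the `k`-th step
with leading exponent `a`. -/
structure ValRel (h : ℕ) (V : (σ →₀ ℕ) → ℕ → Prop) : Prop where
  add : ∀ {a b k l}, V a k → V b l → V (a + b) (k + l)
  zero : ∀ a, V a 0
  down : ∀ {a k l}, V a k → l ≤ k → V a l
  nontriv : ∀ {k}, V 0 k → k = 0
  one : V (ones σ) h

/-- the divisibility properties, for one integer `p ≥ 2`. -/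
structure ValDiv (h : ℕ) (V : (σ →₀ ℕ) → ℕ → Prop) (p : ℕ) : Prop where
  div : ∀ {a k}, V (p • a) k → ∃ k', V a k' ∧ k ≤ p * k'
  shift : ∀ {a k}, V (p • a + ones σ) k → ∃ k', V a k' ∧ k ≤ p * k' + h

namespace ValRel

variable {h : ℕ} {V : (σ →₀ ℕ) → ℕ → Prop} {p : ℕ}

lemma bound_ones (H : ValRel h V) (D : ValDiv h V p) {k : ℕ} (hk : V (ones σ) k) : k ≤ h := by
  have := D.shift (a := 0) (k := k) (by simpa using hk)
  obtain ⟨k', h1, h2⟩ := this
  have := H.nontriv h1
  subst this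
  omega

lemma bound_pow (H : ValRel h V) (D : ValDiv h V p) (e : ℕ) {k : ℕ} (hk : V (p ^ e • ones σ) k) :
    k ≤ p ^ e * h := by
  induction e generalizing k with
  | zero =>
    have := H.bound_ones D (by simpa using hk)
    simpa using this
  | succ e ih =>
    rw [pow_succ', mul_smul] at hk
    obtain ⟨k', h1, h2⟩ := D.div hk
    have := ih h1
    calc k ≤ p * k' := h2
      _ ≤ p * (p ^ e * h) := Nat.mul_le_mul_left _ this
      _ = p ^ (e + 1) * h := by ring

lemma bound (H : ValRel h V) (D : ValDiv h V p) (hp : 2 ≤ p) (a : σ →₀ ℕ) :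
    ∃ B, ∀ k, V a k → k ≤ B := by
  obtain ⟨M, hM⟩ := Good.le_ones a
  have hM' : M ≤ p ^ M := (Nat.lt_pow_self (by omega)).le
  refine ⟨p ^ M * h, fun k hk => ?_⟩
  have h1 : a ≤ p ^ M • ones σ := hM.trans (by
    intro i
    simp only [Finsupp.smul_apply, ones_apply, smul_eq_mul, mul_one]
    exact hM')
  obtain ⟨b, hb⟩ := exists_add_of_le h1
  apply H.bound_pow D M
  rw [hb]
  simpa using H.add hk (H.zero b)

/-- the value function -/
noncomputable def val (H : ValRel h V) (D : ValDiv h V p) (hp : 2 ≤ p) (a : σ →₀ ℕ) : ℕ :=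
  sSup {k | V a k}

lemma le_val_iff (H : ValRel h V) (D : ValDiv h V p) (hp : 2 ≤ p) (a : σ →₀ ℕ) (k : ℕ) :
    k ≤ H.val D hp a ↔ V a k := by
  obtain ⟨B, hB⟩ := H.bound D hp a
  have hbdd : BddAbove {k | V a k} := ⟨B, hB⟩
  constructor
  · intro hk
    have : V a (H.val D hp a) := Nat.sSup_mem ⟨0, H.zero a⟩ hbdd
    exact H.down this hk
  · intro hk
    exact le_csSup hbdd hk

lemma superadd (H : ValRel h V) (D : ValDiv h V p) (hp : 2 ≤ p) (a b : σ →₀ ℕ) :
    H.val D hp a + H.val D hp b ≤ H.val D hp (a + b) := by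
  rw [H.le_val_iff]
  exact H.add ((H.le_val_iff D hp a _).mp le_rfl) ((H.le_val_iff D hp b _).mp le_rfl)

lemma val_nsmul_le (H : ValRel h V) (D : ValDiv h V p) (hp : 2 ≤ p) (n : ℕ) (a : σ →₀ ℕ) :
    n * H.val D hp a ≤ H.val D hp (n • a) := by
  induction n with
  | zero => simp
  | succ n ih =>
    have := H.superadd D hp (n • a) a
    rw [succ_nsmul]
    calc (n + 1) * H.val D hp a = n * H.val D hp a + H.val D hp a := by ring
      _ ≤ _ := by omega

lemma val_p (H : ValRel h V) (D : ValDiv h V p) (hp : 2 ≤ p) (a : σ →₀ ℕ) :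
    H.val D hp (p • a) ≤ p * H.val D hp a := by
  obtain ⟨k', h1, h2⟩ := D.div ((H.le_val_iff D hp (p • a) _).mp le_rfl)
  rw [← H.le_val_iff D hp] at h1
  exact h2.trans (Nat.mul_le_mul_left _ h1)

lemma val_pow (H : ValRel h V) (D : ValDiv h V p) (hp : 2 ≤ p) (e : ℕ) (a : σ →₀ ℕ) :
    H.val D hp (p ^ e • a) ≤ p ^ e * H.val D hp a := by
  induction e with
  | zero => simp
  | succ e ih =>
    rw [pow_succ', mul_smul]
    calc _ ≤ p * H.val D hp (p ^ e • a) := H.val_p D hp _
      _ ≤ p * (p ^ e * H.val D hp a) := Nat.mul_le_mul_left _ ih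
      _ = _ := by ring

lemma val_homog (H : ValRel h V) (D : ValDiv h V p) (hp : 2 ≤ p) (n : ℕ) (a : σ →₀ ℕ) :
    H.val D hp (n • a) ≤ n * H.val D hp a := by
  have hn : n ≤ p ^ n := (Nat.lt_pow_self (by omega)).le
  have h1 := H.val_pow D hp n a
  have h2 : p ^ n • a = n • a + (p ^ n - n) • a := by
    rw [← add_nsmul]; congr 1; omega
  have h3 := H.superadd D hp (n • a) ((p ^ n - n) • a)
  have h4 := H.val_nsmul_le D hp (p ^ n - n) a
  rw [← h2] at h3
  have h5 : p ^ n * H.val D hp a = n * H.val D hp a + (p ^ n - n) * H.val D hp a := by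
    rw [← add_mul]; congr 1; omega
  omega

lemma val_shift (H : ValRel h V) (D : ValDiv h V p) (hp : 2 ≤ p) (a : σ →₀ ℕ) :
    H.val D hp (a + ones σ) = H.val D hp a + h := by
  apply le_antisymm
  · have h1 : V (p • a + ones σ) (H.val D hp (p • a + ones σ)) := (H.le_val_iff D hp _ _).mp le_rfl
    obtain ⟨k', h2, h3⟩ := D.shift h1
    rw [← H.le_val_iff D hp] at h2
    have h4 : p • a + ones σ = (p - 1) • a + (a + ones σ) := by
      rw [← add_assoc]
      congr 1
      rw [← succ_nsmul]; congr 1; omega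
    have h5 := H.superadd D hp ((p - 1) • a) (a + ones σ)
    rw [← h4] at h5
    have h6 := H.val_nsmul_le D hp (p - 1) a
    have h7 : p * k' ≤ p * H.val D hp a := Nat.mul_le_mul_left _ h2
    have h8 : p * H.val D hp a = (p - 1) * H.val D hp a + H.val D hp a := by
      obtain ⟨q, rfl⟩ : ∃ q, p = q + 1 := ⟨p - 1, by omega⟩
      simp; ring
    omega
  · have h1 := H.superadd D hp a (ones σ)
    have h2 : h ≤ H.val D hp (ones σ) := (H.le_val_iff D hp _ _).mpr H.one
    omega

lemma good (H : ValRel h V) (D : ValDiv h V p) (hp : 2 ≤ p) : Good h (H.val D hp) :=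
  ⟨H.superadd D hp, H.val_homog D hp, H.val_shift D hp⟩

/-- divisibility for all integers follows from divisibility for one. -/
lemma div_all (H : ValRel h V) (D : ValDiv h V p) (hp : 2 ≤ p) (n : ℕ) : ValDiv h V n := by
  refine ⟨?_, ?_⟩
  · intro a k hk
    refine ⟨H.val D hp a, (H.le_val_iff D hp _ _).mp le_rfl, ?_⟩
    rw [← H.le_val_iff D hp] at hk
    exact hk.trans (H.val_homog D hp n a)
  · intro a k hk
    refine ⟨H.val D hp a, (H.le_val_iff D hp _ _).mp le_rfl, ?_⟩
    rw [← H.le_val_iff D hp, H.val_shift] at hk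
    have := H.val_homog D hp n a
    omega

/-- the monoid of values -/
def monoid (H : ValRel h V) : AddSubmonoid ((σ →₀ ℕ) × ℕ) where
  carrier := {q | V q.1 q.2}
  zero_mem' := H.zero 0
  add_mem' := fun h1 h2 => H.add h1 h2

theorem monoid_fg (H : ValRel h V) (D : ValDiv h V p) (hp : 2 ≤ p) : H.monoid.FG := by
  have : H.monoid = below (H.val D hp) (H.superadd D hp) := by
    ext ⟨a, k⟩
    exact (H.le_val_iff D hp a k).symm
  rw [this]
  exact below_fg (H.good D hp)

end ValRel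

end Value

end Pool.Agent.J6H94.SymbVC
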