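import Mathlib
import Pool.Agent.J6H94.SymbVC.Comb

/-! The trace (Cartier) operator on polynomial rings over a field of characteristic `p`. -/

namespace Pool.Agent.J6H94.SymbVC

open MvPolynomial

section Lam

variable (K : Type*) [Field K] (p : ℕ) [Fact p.Prime] [CharP K p]

/-- `K` with the action twisted by Frobenius -/
def Tw (K : Type*) (_p : ℕ) := K

instance : AddCommGroup (Tw K p) := inferInstanceAs (AddCommGroup K)

noncomputable instance : Module K (Tw K p) :=
  @Module.compHom K K K _ _ _ _ (frobenius K p)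

lemma tw_smul (a : K) (x : Tw K p) : (a • x : Tw K p) = (a ^ p * (show K from x) : K) := rfl

/-- the `p`-th power as a linear map -/
noncomputable def powLin : K →ₗ[K] Tw K p where
  toFun c := (c ^ p : K)
  map_add' a b := add_pow_char a b p
  map_smul' a b := mul_pow a b p

lemma powLin_ker : LinearMap.ker (powLin K p) = ⊥ := by
  rw [LinearMap.ker_eq_bot']
  intro c hc
  have : c ^ p = 0 := hc
  exact pow_eq_zero_iff (Nat.Prime.ne_zero Fact.out) |>.mp this

/-- a `p⁻¹`-linear additive map fixing one -/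
lemma exists_lam : ∃ lam : K →+ K, (∀ c d, lam (c ^ p * d) = c * lam d) ∧ lam 1 = 1 := by
  obtain ⟨g, hg⟩ := LinearMap.exists_leftInverse_of_injective (powLin K p) (powLin_ker K p)
  refine ⟨⟨⟨fun x => g x, g.map_zero⟩, fun x y => g.map_add x y⟩, ?_, ?_⟩
  · intro c d
    have := g.map_smul c (show Tw K p from d)
    exact this
  · have h1 : g (powLin K p 1) = 1 := by
      have := congrArg (fun f => f 1) hg
      simpa using this
    have h2 : (powLin K p 1 : Tw K p) = (1 : K) := one_pow (M := K) p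
    rw [h2] at h1
    exact h1

end Lam

section Lead

variable {σ : Type*} {R : Type*} [CommRing R] [Nontrivial R] {m : MonomialOrder σ}

lemma lead_of_coeff {g : MvPolynomial σ R} {a : σ →₀ ℕ} (h1 : coeff a g = 1)
    (h2 : ∀ b, m.toSyn a < m.toSyn b → coeff b g = 0) : m.degree g = a ∧ m.Monic g := by
  have hmem : a ∈ g.support := by rw [mem_support_iff, h1]; exact one_ne_zero
  have hle : m.toSyn a ≤ m.toSyn (m.degree g) := m.le_degree hmem
  have hge : m.toSyn (m.degree g) ≤ m.toSyn a := by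
    rw [m.degree_le_iff]
    intro b hb
    by_contra hcon
    exact (mem_support_iff.mp hb) (h2 b (not_le.mp hcon))
  have heq : m.degree g = a := m.toSyn.injective (le_antisymm hge hle)
  refine ⟨heq, ?_⟩
  unfold MonomialOrder.Monic MonomialOrder.leadingCoeff
  rw [heq, h1]

end Lead

section Trace

variable {σ : Type*} [Fintype σ] {K : Type*} [Field K] (p : ℕ)

/-- the exponent `p d + (p-1)` -/
noncomputable def sh (d : σ →₀ ℕ) : σ →₀ ℕ := p • d + (p - 1) • ones σ

lemma sh_apply (d : σ →₀ ℕ) (i : σ) : sh p d i = p * d i + (p - 1) := by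
  simp [sh]

lemma sh_inj [hp : Fact p.Prime] : Function.Injective (sh (σ := σ) p) := by
  intro a b hab
  ext i
  have := congrArg (fun f => f i) hab
  simp only [sh_apply] at this
  have hp0 : 0 < p := hp.out.pos
  have : p * a i = p * b i := by omega
  exact Nat.eq_of_mul_eq_mul_left hp0 this

/-- the trace -/
noncomputable def Tr [Fact p.Prime] (lam : K →+ K) (g : MvPolynomial σ K) : MvPolynomial σ K :=
  ∑ d ∈ g.support.preimage (sh p) (sh_inj p).injOn, monomial d (lam (coeff (sh p d) g))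

variable [Fact p.Prime] (lam : K →+ K)

lemma coeff_Tr (g : MvPolynomial σ K) (d : σ →₀ ℕ) :
    coeff d (Tr p lam g) = lam (coeff (sh p d) g) := by
  classical
  unfold Tr
  rw [coeff_sum]
  simp only [coeff_monomial]
  rw [Finset.sum_ite_eq' _ d]
  split_ifs with h
  · rfl
  · rw [Finset.mem_preimage, notMem_support_iff] at h
    rw [h, map_zero]

lemma Tr_zero : Tr p lam (0 : MvPolynomial σ K) = 0 := by
  ext d; simp [coeff_Tr]

lemma Tr_add (f g : MvPolynomial σ K) : Tr p lam (f + g) = Tr p lam f + Tr p lam g := by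
  ext d; simp [coeff_Tr]

lemma Tr_sum {ι : Type*} (s : Finset ι) (f : ι → MvPolynomial σ K) :
    Tr p lam (∑ i ∈ s, f i) = ∑ i ∈ s, Tr p lam (f i) := by
  classical
  induction s using Finset.induction_on with
  | empty => simp [Tr_zero]
  | insert i s hi ih => rw [Finset.sum_insert hi, Finset.sum_insert hi, Tr_add, ih]

lemma Tr_monomial_pow_mul (hlam : ∀ c d, lam (c ^ p * d) = c * lam d) (e : σ →₀ ℕ) (c : K)
    (g : MvPolynomial σ K) :
    Tr p lam ((monomial e c) ^ p * g) = monomial e c * Tr p lam g := by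
  classical
  have hp1 : 1 < p := (Fact.out : p.Prime).one_lt
  ext d
  rw [coeff_Tr, monomial_pow, coeff_monomial_mul', coeff_monomial_mul']
  have hiff : p • e ≤ sh p d ↔ e ≤ d := by
    constructor
    · intro h i
      have := h i
      rw [sh_apply, Finsupp.smul_apply, smul_eq_mul] at this
      by_contra hcon
      have h1 : d i + 1 ≤ e i := by omega
      have h2 : p * (d i + 1) ≤ p * e i := Nat.mul_le_mul_left _ h1
      have h3 : p * (d i + 1) = p * d i + p := by ring
      omega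
    · intro h i
      rw [sh_apply, Finsupp.smul_apply, smul_eq_mul]
      have := Nat.mul_le_mul_left p (h i)
      omega
  by_cases hed : e ≤ d
  · rw [if_pos (hiff.mpr hed), if_pos hed, hlam, coeff_Tr]
    congr 3
    ext i
    rw [Finsupp.tsub_apply, sh_apply, sh_apply, Finsupp.tsub_apply, Finsupp.smul_apply, smul_eq_mul]
    have := Nat.mul_le_mul_left p (hed i)
    have h3 : p * (d i - e i) = p * d i - p * e i := Nat.mul_sub _ _ _
    omega
  · rw [if_neg (fun h => hed (hiff.mp h)), if_neg hed, map_zero]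

variable [CharP K p]

lemma Tr_pow_mul (hlam : ∀ c d, lam (c ^ p * d) = c * lam d) (a g : MvPolynomial σ K) :
    Tr p lam (a ^ p * g) = a * Tr p lam g := by
  have : CharP (MvPolynomial σ K) p := inferInstance
  induction a using MvPolynomial.induction_on' with
  | monomial e c => exact Tr_monomial_pow_mul p lam hlam e c g
  | add a b ha hb =>
    rw [add_pow_char, add_mul, Tr_add, ha, hb, add_mul]

omit [CharP K p] in
lemma Tr_lead {m : MonomialOrder σ} (hlam1 : lam 1 = 1) {g : MvPolynomial σ K} {a : σ →₀ ℕ}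
    (hm : m.Monic g) (hd : m.degree g = sh p a) :
    m.degree (Tr p lam g) = a ∧ m.Monic (Tr p lam g) := by
  have hp1 : 1 < p := (Fact.out : p.Prime).one_lt
  apply lead_of_coeff
  · rw [coeff_Tr, ← hd]
    have : coeff (m.degree g) g = 1 := hm
    rw [this, hlam1]
  · intro b hb
    rw [coeff_Tr, m.coeff_eq_zero_of_lt, map_zero]
    rw [hd]
    unfold sh
    rw [map_add, map_add]
    apply add_lt_add_of_lt_of_le _ le_rfl
    rw [map_nsmul, map_nsmul]
    exact nsmul_lt_nsmul_right (by omega) hb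

end Trace

/-- A filtration behaving like the symbolic powers of a prime which is generically generated by
`h` elements. -/
structure SymbFilt {S : Type*} [CommRing S] (h : ℕ) (a : ℕ → Ideal S) : Prop where
  mul : ∀ {i j x y}, x ∈ a i → y ∈ a j → x * y ∈ a (i + j)
  anti : ∀ {i j}, i ≤ j → a j ≤ a i
  zero : a 0 = ⊤
  proper : (1 : S) ∉ a 1
  sat : ∀ {k w g}, w ∉ a 1 → w * g ∈ a k → g ∈ a k
  loc : ∃ G : Fin h → S, (∀ i, G i ∈ a 1) ∧
    ∀ n g, g ∈ a n → ∃ w, w ∉ a 1 ∧ w * g ∈ (Ideal.span (Set.range G)) ^ n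

namespace SymbFilt

variable {S : Type*} [CommRing S] {h : ℕ} {a : ℕ → Ideal S}

lemma pow_mem (F : SymbFilt h a) {i : ℕ} {x : S} (hx : x ∈ a i) (n : ℕ) : x ^ n ∈ a (n * i) := by
  induction n with
  | zero => simp [F.zero]
  | succ n ih =>
    rw [pow_succ, Nat.succ_mul]
    exact F.mul ih hx

lemma prod_mem (F : SymbFilt h a) {ι : Type*} (s : Finset ι) (x : ι → S) (e : ι → ℕ)
    (hx : ∀ i ∈ s, x i ∈ a (e i)) : ∏ i ∈ s, x i ∈ a (∑ i ∈ s, e i) := by
  classical
  induction s using Finset.induction_on with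
  | empty => simp [F.zero]
  | insert i s hi ih =>
    rw [Finset.prod_insert hi, Finset.sum_insert hi]
    exact F.mul (hx i (Finset.mem_insert_self _ _)) (ih fun j hj => hx j (Finset.mem_insert_of_mem hj))

lemma prime (F : SymbFilt h a) : (a 1).IsPrime := by
  refine ⟨fun htop => F.proper (by rw [htop]; trivial), ?_⟩
  intro x y hxy
  by_cases hx : x ∈ a 1
  · exact Or.inl hx
  · exact Or.inr (F.sat hx hxy)

lemma not_mem_pow (F : SymbFilt h a) {w : S} (hw : w ∉ a 1) (n : ℕ) : w ^ n ∉ a 1 := by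
  intro hmem
  exact hw (F.prime.mem_of_pow_mem n hmem)

end SymbFilt

section TraceFilt

variable {σ : Type*} [Fintype σ] {K : Type*} [Field K] (p : ℕ) [Fact p.Prime] [CharP K p]
  (lam : K →+ K) {h : ℕ} {a : ℕ → Ideal (MvPolynomial σ K)}

lemma pigeon (e : Fin h → ℕ) (n j : ℕ) (hn : h * (p - 1) + p * j < n + p) (he : ∑ i, e i = n) :
    j ≤ ∑ i, e i / p := by
  have hp1 : 1 < p := (Fact.out : p.Prime).one_lt
  have h1 : ∀ i, e i ≤ p * (e i / p) + (p - 1) := by
    intro i
    have := Nat.div_add_mod (e i) p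
    have h2 := Nat.mod_lt (e i) (show 0 < p by omega)
    omega
  have h2 : ∑ i, e i ≤ p * ∑ i, e i / p + h * (p - 1) := by
    calc ∑ i, e i ≤ ∑ i, (p * (e i / p) + (p - 1)) := Finset.sum_le_sum fun i _ => h1 i
      _ = _ := by rw [Finset.sum_add_distrib, ← Finset.mul_sum]; simp
  rw [he] at h2
  by_contra hcon
  have h3 : ∑ i, e i / p + 1 ≤ j := by omega
  have h4 : p * (∑ i, e i / p + 1) ≤ p * j := Nat.mul_le_mul_left _ h3
  have h5 : p * (∑ i, e i / p + 1) = p * ∑ i, e i / p + p := by ring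
  omega

theorem SymbFilt.Tr_mem (F : SymbFilt h a) (hlam : ∀ c d, lam (c ^ p * d) = c * lam d)
    {n j : ℕ} (hn : h * (p - 1) + p * j < n + p) {g : MvPolynomial σ K} (hg : g ∈ a n) :
    Tr p lam g ∈ a j := by
  classical
  have hp1 : 1 < p := (Fact.out : p.Prime).one_lt
  obtain ⟨G, hG1, hG2⟩ := F.loc
  obtain ⟨w, hw, hwg⟩ := hG2 n g hg
  apply F.sat hw
  rw [← Tr_pow_mul p lam hlam]
  have hmem : w ^ p * g ∈ (Ideal.span (Set.range G)) ^ n := by
    have : w ^ p * g = w ^ (p - 1) * (w * g) := by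
      rw [← mul_assoc, ← pow_succ]; congr 2; omega
    rw [this]
    exact Ideal.mul_mem_left _ _ hwg
  rw [Ideal.mem_span_pow_iff_exists_isHomogeneous] at hmem
  obtain ⟨q, hq, hq2⟩ := hmem
  rw [← hq2, eval_eq', Tr_sum]
  apply Ideal.sum_mem
  intro e he
  have hsum : ∑ i, e i = n := by
    have := hq (mem_support_iff.mp he)
    rw [← this]
    simp [Finsupp.weight_apply, Finsupp.sum_fintype]
  have hj := pigeon p (fun i => e i) n j hn hsum
  have hsplit : coeff e q * ∏ i, G i ^ e i =
      (∏ i, G i ^ (e i / p)) ^ p * (coeff e q * ∏ i, G i ^ (e i % p)) := by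
    rw [← Finset.prod_pow, mul_left_comm, ← Finset.prod_mul_distrib]
    congr 1
    apply Finset.prod_congr rfl
    intro i _
    rw [← pow_mul, ← pow_add]
    congr 1
    rw [mul_comm (e i / p) p]
    exact (Nat.div_add_mod (e i) p).symm
  rw [hsplit, Tr_pow_mul p lam hlam]
  apply Ideal.mul_mem_right
  apply F.anti hj
  apply F.prod_mem
  intro i _
  have := F.pow_mem (hG1 i) (e i / p)
  simpa using this

variable (m : MonomialOrder σ)

/-- the value relation of a filtration -/
def VR (m : MonomialOrder σ) (a : ℕ → Ideal (MvPolynomial σ K)) (e : σ →₀ ℕ) (k : ℕ) : Prop :=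
  ∃ g, g ∈ a k ∧ m.Monic g ∧ m.degree g = e

omit [Fintype σ] in
lemma monic_mul_deg {f g : MvPolynomial σ K} (hf : m.Monic f) (hg : m.Monic g) :
    m.Monic (f * g) ∧ m.degree (f * g) = m.degree f + m.degree g := by
  have hf0 : f ≠ 0 := hf.ne_zero
  have hg0 : g ≠ 0 := hg.ne_zero
  refine ⟨hf.mul hg, m.degree_mul hf0 hg0⟩

omit [Fintype σ] in
lemma monic_pow_deg {f : MvPolynomial σ K} (hf : m.Monic f) (n : ℕ) :
    m.Monic (f ^ n) ∧ m.degree (f ^ n) = n • m.degree f := by
  induction n with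
  | zero => simp
  | succ n ih =>
    rw [pow_succ]
    have := monic_mul_deg m ih.1 hf
    refine ⟨this.1, ?_⟩
    rw [this.2, ih.2, succ_nsmul]

theorem SymbFilt.valRel (F : SymbFilt h a) (h1 : VR m a (ones σ) h) : ValRel h (VR m a) := by
  refine ⟨?_, ?_, ?_, ?_, h1⟩
  · rintro x y k l ⟨f, hf1, hf2, hf3⟩ ⟨g, hg1, hg2, hg3⟩
    have := monic_mul_deg m hf2 hg2
    exact ⟨f * g, F.mul hf1 hg1, this.1, by rw [this.2, hf3, hg3]⟩
  · intro x
    refine ⟨monomial x 1, by rw [F.zero]; trivial, m.monic_monomial_one, ?_⟩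
    classical
    rw [m.degree_monomial]
    simp
  · rintro x k l ⟨f, hf1, hf2, hf3⟩ hkl
    exact ⟨f, F.anti hkl hf1, hf2, hf3⟩
  · rintro k ⟨f, hf1, hf2, hf3⟩
    by_contra hk
    have hf4 := MonomialOrder.eq_C_of_degree_eq_zero hf3
    have : m.leadingCoeff f = 1 := hf2
    rw [this, C_1] at hf4
    rw [hf4] at hf1
    exact F.proper (F.anti (by omega) hf1)

theorem SymbFilt.valDiv (F : SymbFilt h a) (h1 : VR m a (ones σ) h) : ValDiv h (VR m a) p := by
  obtain ⟨lam, hlam, hlam1⟩ := exists_lam K p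
  have hp1 : 1 < p := (Fact.out : p.Prime).one_lt
  obtain ⟨f, hf1, hf2, hf3⟩ := h1
  refine ⟨?_, ?_⟩
  · rintro x k ⟨g, hg1, hg2, hg3⟩
    -- consider Tr (f^(p-1) g)
    have hfp := monic_pow_deg m hf2 (p - 1)
    have hprod := monic_mul_deg m hfp.1 hg2
    have hdeg : m.degree (f ^ (p - 1) * g) = sh p x := by
      rw [hprod.2, hfp.2, hf3, hg3, sh, add_comm]
    have hT := Tr_lead p lam hlam1 hprod.1 hdeg
    have hmem : f ^ (p - 1) * g ∈ a ((p - 1) * h + k) := F.mul (F.pow_mem hf1 _) hg1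
    refine ⟨(k + (p - 1)) / p, ⟨_, ?_, hT.2, hT.1⟩, ?_⟩
    · apply F.Tr_mem p lam hlam _ hmem
      have h3 := Nat.div_mul_le_self (k + (p - 1)) p
      have h4 : h * (p - 1) = (p - 1) * h := mul_comm _ _
      have h5 : p * ((k + (p - 1)) / p) = (k + (p - 1)) / p * p := mul_comm _ _
      omega
    · have h3 := Nat.div_add_mod (k + (p - 1)) p
      have h4 := Nat.mod_lt (k + (p - 1)) (show 0 < p by omega)
      omega
  · rintro x k ⟨g, hg1, hg2, hg3⟩
    have hfp := monic_pow_deg m hf2 (p - 2)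
    have hprod := monic_mul_deg m hfp.1 hg2
    have hdeg : m.degree (f ^ (p - 2) * g) = sh p x := by
      rw [hprod.2, hfp.2, hf3, hg3, sh, add_comm, add_assoc]
      congr 1
      nth_rewrite 1 [← one_smul ℕ (ones σ)]
      rw [← add_nsmul]
      congr 1
      omega
    have hT := Tr_lead p lam hlam1 hprod.1 hdeg
    have hmem : f ^ (p - 2) * g ∈ a ((p - 2) * h + k) := F.mul (F.pow_mem hf1 _) hg1
    have h6 : (p - 1) * h = (p - 2) * h + h := by
      obtain ⟨q, rfl⟩ : ∃ q, p = q + 2 := ⟨p - 2, by omega⟩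
      simp; ring
    rcases Nat.lt_or_ge h k with hk | hk
    · refine ⟨((k - h) + (p - 1)) / p, ⟨_, ?_, hT.2, hT.1⟩, ?_⟩
      · apply F.Tr_mem p lam hlam _ hmem
        have h3 := Nat.div_mul_le_self ((k - h) + (p - 1)) p
        have h4 : h * (p - 1) = (p - 1) * h := mul_comm _ _
        have h5 : p * (((k - h) + (p - 1)) / p) = ((k - h) + (p - 1)) / p * p := mul_comm _ _
        omega
      · have h3 := Nat.div_add_mod ((k - h) + (p - 1)) p
        have h4 := Nat.mod_lt ((k - h) + (p - 1)) (show 0 < p by omega)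
        omega
    · refine ⟨0, ⟨_, ?_, hT.2, hT.1⟩, by omega⟩
      rw [F.zero]; trivial

end TraceFilt

end Pool.Agent.J6H94.SymbVC
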