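import Mathlib
import Pool.Agent.J6H94.SymbVC.Frob

/-! From finite generation of the monoid of values to the Noetherian property. -/

namespace Pool.Agent.J6H94.SymbVC

open MvPolynomial

/-- The Rees algebra of a filtration. -/
def SymbFilt.rees {S : Type*} [CommRing S] {h : ℕ} {a : ℕ → Ideal S} (F : SymbFilt h a) :
    Subalgebra S (Polynomial S) where
  carrier := {f | ∀ k, f.coeff k ∈ a k}
  mul_mem' := by
    intro f g hf hg k
    rw [Polynomial.coeff_mul]
    apply Ideal.sum_mem
    rintro ⟨i, j⟩ hij
    have hij' : i + j = k := by simpa using hij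
    subst hij'
    exact F.mul (hf i) (hg j)
  add_mem' := by
    intro f g hf hg k
    rw [Polynomial.coeff_add]
    exact Ideal.add_mem _ (hf k) (hg k)
  algebraMap_mem' := by
    intro r k
    rw [Polynomial.algebraMap_apply, Polynomial.coeff_C]
    split_ifs with hk
    · subst hk
      rw [F.zero]; trivial
    · exact Ideal.zero_mem _

section

variable {σ : Type*} [Fintype σ] {K : Type*} [Field K] {h : ℕ}
  {a : ℕ → Ideal (MvPolynomial σ K)} (m : MonomialOrder σ)

theorem SymbFilt.noeth (F : SymbFilt h a) (h1 : VR m a (ones σ) h)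
    (hfg : (F.valRel m h1).monoid.FG) : IsNoetherianRing F.rees := by
  classical
  obtain ⟨G, hG⟩ := hfg
  have hmemG : ∀ q ∈ G, VR m a q.1 q.2 := by
    intro q hq
    have : q ∈ (F.valRel m h1).monoid := by
      rw [← hG]
      exact AddSubmonoid.subset_closure hq
    exact this
  choose! g hg1 hg2 hg3 using hmemG
  let gens : Set (Polynomial (MvPolynomial σ K)) := (fun q => Polynomial.monomial q.2 (g q)) '' (G : Set _)
  have hfin : gens.Finite := G.finite_toSet.image _
  let A0 : Subalgebra K (Polynomial (MvPolynomial σ K)) := Algebra.adjoin K gens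
  -- realization of every value
  have hreal : ∀ q ∈ (F.valRel m h1).monoid, ∃ g', m.Monic g' ∧ m.degree g' = q.1 ∧ g' ∈ a q.2 ∧
      Polynomial.monomial q.2 g' ∈ A0 := by
    intro q hq
    rw [← hG] at hq
    induction hq using AddSubmonoid.closure_induction with
    | mem q hq =>
      exact ⟨g q, hg2 q hq, hg3 q hq, hg1 q hq, Algebra.subset_adjoin ⟨q, hq, rfl⟩⟩
    | zero =>
      refine ⟨1, by simp, by simp, by simp [F.zero], ?_⟩
      have : (Polynomial.monomial (0 : (σ →₀ ℕ) × ℕ).2 (1 : MvPolynomial σ K)) = 1 := rfl
      rw [this]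
      exact one_mem _
    | add x y hx hy ihx ihy =>
      obtain ⟨f1, a1, b1, c1, d1⟩ := ihx
      obtain ⟨f2, a2, b2, c2, d2⟩ := ihy
      have := monic_mul_deg m a1 a2
      refine ⟨f1 * f2, this.1, by rw [this.2, b1, b2]; rfl, F.mul c1 c2, ?_⟩
      have h3 : Polynomial.monomial (x + y).2 (f1 * f2) =
          Polynomial.monomial x.2 f1 * Polynomial.monomial y.2 f2 := by
        rw [Polynomial.monomial_mul_monomial]; rfl
      rw [h3]
      exact mul_mem d1 d2
  have hC : ∀ (c : K) (f : MvPolynomial σ K) (k : ℕ), Polynomial.monomial k f ∈ A0 →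
      Polynomial.monomial k (C c * f) ∈ A0 := by
    intro c f k hf
    have : Polynomial.monomial k (C c * f) = c • Polynomial.monomial k f := by
      rw [Polynomial.smul_monomial, MvPolynomial.smul_eq_C_mul]
    rw [this]
    exact A0.smul_mem hf c
  -- subduction
  have hsub : ∀ (s : m.syn) (k : ℕ) (f : MvPolynomial σ K), m.toSyn (m.degree f) = s → f ∈ a k →
      Polynomial.monomial k f ∈ A0 := by
    intro s k
    induction s using WellFoundedLT.induction with
    | ind s ih =>
      intro f hs hf
      by_cases hf0 : f = 0
      · subst hf0; simp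
      set c := m.leadingCoeff f with hc
      have hc0 : c ≠ 0 := m.leadingCoeff_ne_zero_iff.mpr hf0
      have hmon : VR m a (m.degree f) k := by
        refine ⟨C c⁻¹ * f, Ideal.mul_mem_left _ _ hf, ?_, ?_⟩
        · have h5 : m.leadingCoeff (C c⁻¹ * f) = c⁻¹ * m.leadingCoeff f := by
            rw [m.leadingCoeff_mul, m.leadingCoeff_C]
          unfold MonomialOrder.Monic
          rw [h5, ← hc, inv_mul_cancel₀ hc0]
        · rw [m.degree_mul (by simpa using hc0) hf0, m.degree_C, zero_add]
      obtain ⟨g', hg1', hg2', hg3', hg4'⟩ := hreal (m.degree f, k) hmon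
      simp only at hg2' hg3' hg4'
      have hdecomp : f = (f - C c * g') + C c * g' := by ring
      rw [hdecomp, map_add]
      apply add_mem _ (hC _ _ _ hg4')
      have hmem : f - C c * g' ∈ a k := Ideal.sub_mem _ hf (Ideal.mul_mem_left _ _ hg3')
      by_cases hz : f - C c * g' = 0
      · rw [hz]; simp
      have hlt : m.toSyn (m.degree (f - C c * g')) < s := by
        rw [← hs]
        have hle : m.toSyn (m.degree (f - C c * g')) ≤ m.toSyn (m.degree f) := by
          refine m.degree_sub_le.trans ?_
          rw [m.degree_mul (by simpa using hc0) hg1'.ne_zero, m.degree_C, zero_add, hg2', sup_idem]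
        rcases hle.lt_or_eq with hlt | heq
        · exact hlt
        · exfalso
          have h6 : m.degree (f - C c * g') = m.degree f := m.toSyn.injective heq
          have h7 : m.leadingCoeff (f - C c * g') = 0 := by
            unfold MonomialOrder.leadingCoeff
            rw [h6, coeff_sub, coeff_C_mul]
            have h8 : coeff (m.degree f) g' = 1 := by
              rw [← hg2']; exact hg1'
            rw [h8, mul_one]
            have h9 : coeff (m.degree f) f = c := rfl
            rw [h9, sub_self]
          exact hz (m.leadingCoeff_eq_zero_iff.mp h7)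
      exact ih _ hlt _ rfl hmem
  have hA0 : ∀ f : Polynomial (MvPolynomial σ K), f ∈ A0 ↔ f ∈ F.rees := by
    intro f
    constructor
    · intro hf
      induction hf using Algebra.adjoin_induction with
      | mem x hx =>
        obtain ⟨q, hq, rfl⟩ := hx
        intro k
        simp only [Polynomial.coeff_monomial]
        split_ifs with hk
        · subst hk; exact hg1 q hq
        · exact Ideal.zero_mem _
      | algebraMap r =>
        have : algebraMap K (Polynomial (MvPolynomial σ K)) r =
          algebraMap (MvPolynomial σ K) _ (C r) := rfl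
        rw [this]
        exact F.rees.algebraMap_mem _
      | add x y hx hy ihx ihy => exact add_mem ihx ihy
      | mul x y hx hy ihx ihy => exact mul_mem ihx ihy
    · intro hf
      rw [f.as_sum_support]
      apply sum_mem
      intro k _
      exact hsub _ k _ rfl (hf k)
  have hft : Algebra.FiniteType K A0 := by
    rw [← Subalgebra.fg_iff_finiteType]
    exact ⟨hfin.toFinset, by simp [A0]⟩
  have hn : IsNoetherianRing A0 := Algebra.FiniteType.isNoetherianRing K A0
  let φ : A0 →+* F.rees :=
    { toFun := fun x => ⟨x.1, (hA0 x.1).mp x.2⟩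
      map_one' := rfl
      map_mul' := fun _ _ => rfl
      map_zero' := rfl
      map_add' := fun _ _ => rfl }
  apply isNoetherianRing_of_surjective A0 F.rees φ
  rintro ⟨x, hx⟩
  exact ⟨⟨x, (hA0 x).mpr hx⟩, rfl⟩

end

end Pool.Agent.J6H94.SymbVC
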