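import Mathlib

/-! Counting identities. -/

namespace Pool.Agent.J6H94.SymbVC

open Finset

/-- covering a rectangle by diagonals -/
theorem diag_sum {α : Type*} [AddCommMonoid α] (e : ℕ → ℕ → α) (t M : ℕ) (h : t ≤ M) :
    (∑ j0 ∈ range t, ∑ a ∈ range (t - j0), e a (j0 + a)) +
      (∑ i0 ∈ range (M - t), ∑ a ∈ range t, e (i0 + 1 + a) a) +
      (∑ k ∈ range t, ∑ a ∈ range k, e (M - k + a) a) =
    ∑ j ∈ range t, ∑ i ∈ range M, e i j := by
  have h1 : (∑ j0 ∈ range t, ∑ a ∈ range (t - j0), e a (j0 + a)) =
      ∑ j ∈ range t, ∑ i ∈ Ico 0 (j + 1), e i j := by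
    rw [Finset.sum_sigma', Finset.sum_sigma']
    refine Finset.sum_nbij' (fun p => ⟨p.1 + p.2, p.2⟩) (fun p => ⟨p.1 - p.2, p.2⟩) ?_ ?_ ?_ ?_ ?_
    · rintro ⟨j, a⟩ hja
      simp only [mem_sigma, mem_range, mem_Ico] at hja ⊢
      omega
    · rintro ⟨j, a⟩ hja
      simp only [mem_sigma, mem_range, mem_Ico] at hja ⊢
      omega
    · rintro ⟨j, a⟩ hja
      simp only [mem_sigma, mem_range, mem_Ico] at hja ⊢
      simp
    · rintro ⟨j, a⟩ hja
      simp only [mem_sigma, mem_range, mem_Ico] at hja ⊢
      have : j - a + a = j := by omega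
      rw [this]
    · rintro ⟨j, a⟩ hja
      rfl
  have h2 : (∑ i0 ∈ range (M - t), ∑ a ∈ range t, e (i0 + 1 + a) a) =
      ∑ j ∈ range t, ∑ i ∈ Ico (j + 1) (M - t + j + 1), e i j := by
    rw [Finset.sum_comm]
    apply Finset.sum_congr rfl
    intro j _
    refine Finset.sum_nbij' (fun i => i + 1 + j) (fun i => i - 1 - j) ?_ ?_ ?_ ?_ ?_
    · intro i hi
      simp only [mem_range, mem_Ico] at hi ⊢
      omega
    · intro i hi
      simp only [mem_range, mem_Ico] at hi ⊢
      omega
    · intro i hi
      simp only [mem_range] at hi ⊢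
      omega
    · intro i hi
      simp only [mem_Ico] at hi ⊢
      omega
    · intro i hi
      rfl
  have h3 : (∑ k ∈ range t, ∑ a ∈ range k, e (M - k + a) a) =
      ∑ j ∈ range t, ∑ i ∈ Ico (M - t + j + 1) M, e i j := by
    rw [Finset.sum_comm' (t' := range t) (s' := fun a => Ico (a + 1) t)]
    · apply Finset.sum_congr rfl
      intro j hj
      rw [mem_range] at hj
      refine Finset.sum_nbij' (fun k => M - k + j) (fun i => M + j - i) ?_ ?_ ?_ ?_ ?_
      · intro i hi
        simp only [mem_Ico] at hi ⊢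
        omega
      · intro i hi
        simp only [mem_Ico] at hi ⊢
        omega
      · intro i hi
        simp only [mem_Ico] at hi ⊢
        omega
      · intro i hi
        simp only [mem_Ico] at hi ⊢
        omega
      · intro i hi
        rfl
    · intro k a
      simp only [mem_range, mem_Ico]
      omega
  rw [h1, h2, h3, ← Finset.sum_add_distrib, ← Finset.sum_add_distrib]
  apply Finset.sum_congr rfl
  intro j hj
  rw [mem_range] at hj
  rw [Finset.sum_Ico_consecutive _ (by omega) (by omega),
    Finset.sum_Ico_consecutive _ (by omega) (by omega), Finset.range_eq_Ico]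

lemma sum_trunc (t r : ℕ) : 2 * ∑ j ∈ range t, ((t - j) - r) = (t - r) * (t - r + 1) := by
  have h1 : ∑ j ∈ range t, ((t - j) - r) = ∑ j ∈ range t, ((j + 1) - r) := by
    rw [← Finset.sum_range_reflect]
    apply Finset.sum_congr rfl
    intro j hj
    rw [mem_range] at hj
    congr 1
    omega
  rw [h1]
  clear h1
  induction t with
  | zero => simp
  | succ t ih =>
    rw [Finset.sum_range_succ, mul_add, ih]
    rcases Nat.lt_or_ge t r with h | h
    · have e1 : t - r = 0 := by omega
      have e2 : t + 1 - r = 0 := by omega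
      rw [e1, e2]
    · obtain ⟨u, rfl⟩ := Nat.exists_eq_add_of_le h
      have e1 : r + u - r = u := by omega
      have e2 : r + u + 1 - r = u + 1 := by omega
      rw [e1, e2]
      ring

lemma sum_max (w q : ℕ) : 2 * ∑ k ∈ range (w + q), max k (2 * k - w) + (w + q) + q =
    (w + q) * (w + q) + q * q := by
  induction q with
  | zero =>
    have h1 : ∑ k ∈ range (w + 0), max k (2 * k - w) = ∑ k ∈ range w, k := by
      rw [Nat.add_zero]
      apply Finset.sum_congr rfl
      intro k hk
      rw [mem_range] at hk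
      omega
    rw [h1]
    have h2 := Finset.sum_range_id_mul_two w
    rcases w with _ | w
    · simp
    · simp only [Nat.add_sub_cancel] at h2
      nlinarith
  | succ q ih =>
    have e0 : w + (q + 1) = w + q + 1 := by ring
    rw [e0, Finset.sum_range_succ]
    have h1 : max (w + q) (2 * (w + q) - w) = w + 2 * q := by omega
    rw [h1]
    nlinarith

/-- the count of orders -/
theorem order_count (r s q a n : ℕ) :
    (∑ j ∈ range (r + (q + s)), ((r + (q + s) - j) - r)) + a * (q + s) +
      ((∑ j ∈ range (r + (q + s)), ((r + (q + s) - j) - s)) + n * (r + q)) +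
      ∑ k ∈ range (r + (q + s)), max k (2 * k - (r + s)) =
    (q + s + a) * (q + s) + (r + q + n) * (r + q) + r * s := by
  have h1 := sum_trunc (r + (q + s)) r
  have h2 := sum_trunc (r + (q + s)) s
  have h3 := sum_max (r + s) q
  have e1 : r + (q + s) - r = q + s := by omega
  have e2 : r + (q + s) - s = r + q := by omega
  have e3 : r + s + q = r + (q + s) := by ring
  rw [e1] at h1
  rw [e2] at h2
  rw [e3] at h3
  nlinarith

end Pool.Agent.J6H94.SymbVC
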