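import Mathlib

/-! The parametrization of matrices near a generic complex of ranks `(r, s)`. -/

set_option linter.unusedSectionVars false
set_option linter.unusedSimpArgs false

namespace Pool.Agent.J6H94.SymbVC

open Matrix

/-- the variables: entries of `Y` (rows `R ⊕ A`, columns `R ⊕ (Q ⊕ T)`) and of `Z`
(rows `R ⊕ (Q ⊕ T)`, columns `N ⊕ T`). -/
abbrev VarT (R A Q T N : Type*) := ((R ⊕ A) × (R ⊕ (Q ⊕ T))) ⊕ ((R ⊕ (Q ⊕ T)) × (N ⊕ T))

section Def

variable {R A Q T N : Type*} {L : Type*} [CommRing L]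

/-- the matrix `Y` of values -/
def mY (y : VarT R A Q T N → L) : Matrix (R ⊕ A) (R ⊕ (Q ⊕ T)) L := fun i j => y (Sum.inl (i, j))

/-- the matrix `Z` of values -/
def mZ (y : VarT R A Q T N → L) : Matrix (R ⊕ (Q ⊕ T)) (N ⊕ T) L := fun i j => y (Sum.inr (i, j))

/-- blocks -/
def bY11 (y : VarT R A Q T N → L) : Matrix R R L := (mY y).toBlocks₁₁
def bY12 (y : VarT R A Q T N → L) : Matrix R (Q ⊕ T) L := (mY y).toBlocks₁₂
def bY21 (y : VarT R A Q T N → L) : Matrix A R L := (mY y).toBlocks₂₁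
def bY22 (y : VarT R A Q T N → L) : Matrix A (Q ⊕ T) L := (mY y).toBlocks₂₂
def bZRN (y : VarT R A Q T N → L) : Matrix R N L := (mZ y).toBlocks₁₁
def bZRT (y : VarT R A Q T N → L) : Matrix R T L := (mZ y).toBlocks₁₂
def bZQN (y : VarT R A Q T N → L) : Matrix Q N L := (mZ y).toBlocks₂₁.submatrix Sum.inl id
def bZTN (y : VarT R A Q T N → L) : Matrix T N L := (mZ y).toBlocks₂₁.submatrix Sum.inr id
def bZQT (y : VarT R A Q T N → L) : Matrix Q T L := (mZ y).toBlocks₂₂.submatrix Sum.inl id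
def bZTT (y : VarT R A Q T N → L) : Matrix T T L := (mZ y).toBlocks₂₂.submatrix Sum.inr id

variable [Fintype R] [Fintype A] [Fintype Q] [Fintype T] [Fintype N]
  [DecidableEq R] [DecidableEq A] [DecidableEq Q] [DecidableEq T] [DecidableEq N]

/-- the parametrized `Y` -/
def PY (x : VarT R A Q T N → L) (t : L) : Matrix (R ⊕ A) (R ⊕ (Q ⊕ T)) L :=
  fromBlocks (bY11 x) (bY11 x * bY12 x) (bY21 x * bY11 x) (bY21 x * bY11 x * bY12 x + t • bY22 x)

/-- the matrix `[H; 1]` -/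
def WW (x : VarT R A Q T N → L) : Matrix (Q ⊕ T) T L := fromRows (bZQT x) 1

/-- the matrix `L_a` -/
def LA (x : VarT R A Q T N → L) (t : L) : Matrix R T L := t • bZRT x - bY12 x * WW x

/-- the parametrized `Z` -/
def PZ (x : VarT R A Q T N → L) (t : L) : Matrix (R ⊕ (Q ⊕ T)) (N ⊕ T) L :=
  fromBlocks (LA x t * bZTN x + t • bZRN x) (LA x t * bZTT x)
    (WW x * bZTN x + t • fromRows (bZQN x) 0) (WW x * bZTT x)

/-- the point -/
def pt (x : VarT R A Q T N → L) (t : L) : VarT R A Q T N → L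
  | Sum.inl (i, j) => PY x t i j
  | Sum.inr (i, j) => PZ x t i j

lemma mY_pt (x : VarT R A Q T N → L) (t : L) : mY (pt x t) = PY x t := rfl
lemma mZ_pt (x : VarT R A Q T N → L) (t : L) : mZ (pt x t) = PZ x t := rfl

/-- unipotent matrices -/
def wU (x : VarT R A Q T N → L) : Matrix (Q ⊕ T) (Q ⊕ T) L := fromBlocks 1 (-bZQT x) 0 1
def wU' (x : VarT R A Q T N → L) : Matrix (Q ⊕ T) (Q ⊕ T) L := fromBlocks 1 (bZQT x) 0 1
def uU (x : VarT R A Q T N → L) : Matrix (R ⊕ (Q ⊕ T)) (R ⊕ (Q ⊕ T)) L :=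
  fromBlocks 1 (bY12 x) 0 (wU x)
def uU' (x : VarT R A Q T N → L) : Matrix (R ⊕ (Q ⊕ T)) (R ⊕ (Q ⊕ T)) L :=
  fromBlocks 1 (-(bY12 x * wU' x)) 0 (wU' x)

lemma wU_mul (x : VarT R A Q T N → L) : wU x * wU' x = 1 := by
  unfold wU wU'
  rw [fromBlocks_multiply]
  simp

lemma wU'_mul (x : VarT R A Q T N → L) : wU' x * wU x = 1 := by
  unfold wU wU'
  rw [fromBlocks_multiply]
  simp

lemma uU_mul (x : VarT R A Q T N → L) : uU x * uU' x = 1 := by
  unfold uU uU'
  rw [fromBlocks_multiply]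
  simp [wU_mul]

lemma uU'_mul (x : VarT R A Q T N → L) : uU' x * uU x = 1 := by
  unfold uU uU'
  rw [fromBlocks_multiply]
  simp [Matrix.mul_assoc, wU'_mul]

/-- the hatted matrices -/
def YH (x : VarT R A Q T N → L) : Matrix (R ⊕ A) (R ⊕ (Q ⊕ T)) L :=
  fromBlocks (bY11 x) 0 (bY21 x * bY11 x) (bY22 x * wU' x)

def ZH (x : VarT R A Q T N → L) : Matrix (R ⊕ (Q ⊕ T)) (N ⊕ T) L :=
  fromBlocks (bZRT x * bZTN x + bZRN x + bY12 x * fromRows (bZQN x) 0) (bZRT x * bZTT x)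
    (fromRows (bZQN x) (bZTN x)) (fromRows 0 (bZTT x))

/-- the weights -/
def w1 : R ⊕ (Q ⊕ T) → ℕ
  | Sum.inl _ => 0
  | Sum.inr _ => 1

def w2 : R ⊕ (Q ⊕ T) → ℕ
  | Sum.inl _ => 1
  | Sum.inr (Sum.inl _) => 1
  | Sum.inr (Sum.inr _) => 0

/-- diagonal matrices of powers of `t` -/
def D1 (_x : VarT R A Q T N → L) (t : L) : Matrix (R ⊕ (Q ⊕ T)) (R ⊕ (Q ⊕ T)) L := diagonal (fun i => t ^ w1 i)
def D2 (_x : VarT R A Q T N → L) (t : L) : Matrix (R ⊕ (Q ⊕ T)) (R ⊕ (Q ⊕ T)) L := diagonal (fun i => t ^ w2 i)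

lemma diag1 (x : VarT R A Q T N → L) (t : L) : D1 x t =
    fromBlocks 1 0 0 (t • 1) := by
  unfold D1
  ext i j
  rcases i with i | i <;> rcases j with j | j
  · by_cases h : i = j
    · subst h; simp [w1]
    · simp [h, diagonal_apply, Matrix.one_apply]
  · simp [diagonal_apply]
  · simp [diagonal_apply]
  · by_cases h : i = j
    · subst h; simp [w1]
    · simp [h, diagonal_apply, Matrix.one_apply]

lemma diag2 (x : VarT R A Q T N → L) (t : L) : D2 x t =
    fromBlocks (t • 1) 0 0 (fromBlocks (t • 1) 0 0 1) := by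
  unfold D2
  ext i j
  rcases i with i | i | i <;> rcases j with j | j | j <;>
    simp [w2, diagonal_apply, Matrix.one_apply, fromBlocks]

lemma PY_eq (x : VarT R A Q T N → L) (t : L) :
    PY x t = YH x * D1 x t * uU x := by
  have key : PY x t * uU' x = YH x * D1 x t := by
    unfold PY uU' YH
    rw [diag1, fromBlocks_multiply, fromBlocks_multiply]
    congr 1
    · simp
    · simp [Matrix.mul_assoc]
    · simp
    · simp [Matrix.mul_assoc, Matrix.add_mul]
  rw [← key, Matrix.mul_assoc, uU'_mul, Matrix.mul_one]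

lemma wU_WW (x : VarT R A Q T N → L) : wU x * WW x = fromRows 0 1 := by
  unfold wU WW
  rw [fromBlocks_mul_fromRows]
  simp

lemma PZ_eq (x : VarT R A Q T N → L) (t : L) :
    PZ x t = uU' x * D2 x t * ZH x := by
  have key : uU x * PZ x t = D2 x t * ZH x := by
    unfold PZ uU ZH
    rw [diag2, fromBlocks_multiply, fromBlocks_multiply]
    have e1 : wU x * (WW x * bZTN x + t • fromRows (bZQN x) 0) =
        (fromBlocks (t • 1) 0 0 1 : Matrix (Q ⊕ T) (Q ⊕ T) L) * (fromRows (bZQN x) (bZTN x)) := by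
      rw [Matrix.mul_add, ← Matrix.mul_assoc, wU_WW, fromRows_mul, Matrix.mul_smul]
      unfold wU
      rw [fromBlocks_mul_fromRows, fromBlocks_mul_fromRows]
      ext i j
      rcases i with i | i <;> simp
    have e2 : wU x * (WW x * bZTT x) =
        (fromBlocks (t • 1) 0 0 1 : Matrix (Q ⊕ T) (Q ⊕ T) L) *
          (fromRows 0 (bZTT x) : Matrix (Q ⊕ T) T L) := by
      rw [← Matrix.mul_assoc, wU_WW, fromRows_mul, fromBlocks_mul_fromRows]
      ext i j
      rcases i with i | i <;> simp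
    congr 1
    · unfold LA
      simp only [Matrix.one_mul, Matrix.sub_mul, Matrix.mul_add, Matrix.zero_mul, add_zero,
        Matrix.smul_mul, Matrix.mul_smul, Matrix.mul_assoc, smul_add]
      abel
    · unfold LA
      simp only [Matrix.one_mul, Matrix.sub_mul, Matrix.zero_mul, add_zero,
        Matrix.smul_mul, Matrix.mul_assoc]
      abel
    · rw [Matrix.zero_mul, Matrix.zero_mul, zero_add, zero_add, e1]
    · rw [Matrix.zero_mul, Matrix.zero_mul, zero_add, zero_add, e2]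
  rw [Matrix.mul_assoc, ← key, ← Matrix.mul_assoc, uU'_mul, Matrix.one_mul]

/-- total weights for the product -/
def w3 : R ⊕ (Q ⊕ T) → ℕ
  | Sum.inl _ => 1
  | Sum.inr (Sum.inl _) => 2
  | Sum.inr (Sum.inr _) => 1

def D3 (_x : VarT R A Q T N → L) (t : L) : Matrix (R ⊕ (Q ⊕ T)) (R ⊕ (Q ⊕ T)) L := diagonal (fun i => t ^ w3 i)

lemma PYZ_eq (x : VarT R A Q T N → L) (t : L) :
    PY x t * PZ x t = YH x * D3 x t * ZH x := by
  rw [PY_eq, PZ_eq]
  have h1 : D1 x t * D2 x t = D3 x t := by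
    unfold D1 D2 D3
    rw [diagonal_mul_diagonal]
    congr 1
    ext i
    rw [← pow_add]
    rcases i with i | i | i <;> rfl
  calc YH x * D1 x t * uU x * (uU' x * D2 x t * ZH x)
      = YH x * D1 x t * (uU x * uU' x) * D2 x t * ZH x := by
        simp only [Matrix.mul_assoc]
    _ = _ := by
        rw [uU_mul, Matrix.mul_one, Matrix.mul_assoc (YH x), h1]

end Def

end Pool.Agent.J6H94.SymbVC
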