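import Mathlib
import Pool.Agent.J6H94.SymbVC.Param

/-! Determinant expansions and divisibility of minors. -/

set_option linter.unusedSectionVars false
set_option linter.unusedSimpArgs false

namespace Pool.Agent.J6H94.SymbVC

open Matrix

section Expand

variable {κ ι L : Type*} [Fintype κ] [DecidableEq κ] [Fintype ι] [DecidableEq ι] [CommRing L]

lemma det_mul_expand (A : Matrix κ ι L) (B : Matrix ι κ L) :
    (A * B).det = ∑ φ : κ → ι, (∏ a, B (φ a) a) * (A.submatrix id φ).det := by
  classical
  rw [det_apply]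
  simp only [Matrix.mul_apply]
  simp only [Finset.prod_univ_sum, Fintype.piFinset_univ, Finset.smul_sum]
  rw [Finset.sum_comm]
  apply Finset.sum_congr rfl
  intro φ _
  rw [det_apply, Finset.mul_sum]
  apply Finset.sum_congr rfl
  intro s _
  rw [Finset.prod_mul_distrib, mul_smul_comm, mul_comm]
  rfl

lemma det_diag_dvd (A : Matrix κ ι L) (B : Matrix ι κ L) (w : ι → ℕ) (t : L) (e : ℕ)
    (h : ∀ φ : κ → ι, Function.Injective φ → e ≤ ∑ a, w (φ a)) :
    t ^ e ∣ (A * diagonal (fun i => t ^ w i) * B).det := by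
  classical
  rw [det_mul_expand]
  apply Finset.dvd_sum
  intro φ _
  apply Dvd.dvd.mul_left
  by_cases hφ : Function.Injective φ
  · have h1 : (A * diagonal (fun i => t ^ w i)).submatrix id φ =
        of fun i j => (fun j => t ^ w (φ j)) j * (A.submatrix id φ) i j := by
      ext i j
      simp [mul_diagonal, mul_comm]
    rw [h1, det_mul_row, Finset.prod_pow_eq_pow_sum]
    exact Dvd.dvd.mul_right (pow_dvd_pow t (h φ hφ)) _
  · have h2 : ∃ a b, a ≠ b ∧ φ a = φ b := by
      unfold Function.Injective at hφ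
      push Not at hφ
      obtain ⟨a, b, h3, h4⟩ := hφ
      exact ⟨a, b, h4, h3⟩
    obtain ⟨a, b, hab, h3⟩ := h2
    rw [det_zero_of_column_eq hab (by intro k; simp [h3])]
    exact dvd_zero _

end Expand

section Bounds

variable {R A Q T N : Type*} {L : Type*} [CommRing L]
variable [Fintype R] [Fintype A] [Fintype Q] [Fintype T] [Fintype N]
  [DecidableEq R] [DecidableEq A] [DecidableEq Q] [DecidableEq T] [DecidableEq N]
variable {κ : Type*} [Fintype κ] [DecidableEq κ]

lemma card_filter_inl (φ : κ → R ⊕ (Q ⊕ T)) (hφ : Function.Injective φ) :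
    (Finset.univ.filter fun a => (φ a).isLeft = true).card ≤ Fintype.card R := by
  classical
  have : ((Finset.univ.filter fun a => (φ a).isLeft = true).image φ) ⊆
      (Finset.univ : Finset R).map ⟨Sum.inl, Sum.inl_injective⟩ := by
    intro x hx
    rw [Finset.mem_image] at hx
    obtain ⟨a, ha, rfl⟩ := hx
    rw [Finset.mem_filter] at ha
    obtain ⟨r, hr⟩ := Sum.isLeft_iff.mp ha.2
    rw [hr]
    simp
  have h2 := Finset.card_le_card this
  rw [Finset.card_image_of_injective _ hφ, Finset.card_map] at h2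
  exact h2

lemma w1_bound (φ : κ → R ⊕ (Q ⊕ T)) (hφ : Function.Injective φ) :
    Fintype.card κ - Fintype.card R ≤ ∑ a, w1 (φ a) := by
  classical
  have h1 : ∑ a, w1 (φ a) + (Finset.univ.filter fun a => (φ a).isLeft = true).card =
      Fintype.card κ := by
    rw [Finset.card_filter, ← Finset.sum_add_distrib, Fintype.card, Finset.card_eq_sum_ones]
    apply Finset.sum_congr rfl
    intro a _
    rcases h : φ a with i | i <;> simp [w1]
  have h2 := card_filter_inl φ hφ
  omega

/-- bound for the weights of `Z` -/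
lemma w2_bound (φ : κ → R ⊕ (Q ⊕ T)) (hφ : Function.Injective φ) :
    Fintype.card κ - Fintype.card T ≤ ∑ a, w2 (φ a) := by
  classical
  let isT : R ⊕ (Q ⊕ T) → Bool := fun x => match x with
    | Sum.inl _ => false
    | Sum.inr (Sum.inl _) => false
    | Sum.inr (Sum.inr _) => true
  have h1 : ∑ a, w2 (φ a) + (Finset.univ.filter fun a => isT (φ a) = true).card =
      Fintype.card κ := by
    rw [Finset.card_filter, ← Finset.sum_add_distrib, Fintype.card, Finset.card_eq_sum_ones]
    apply Finset.sum_congr rfl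
    intro a _
    rcases h : φ a with i | i | i <;> simp [w2, isT]
  have h2 : (Finset.univ.filter fun a => isT (φ a) = true).card ≤ Fintype.card T := by
    have : ((Finset.univ.filter fun a => isT (φ a) = true).image φ) ⊆
        (Finset.univ : Finset T).map ⟨fun x => Sum.inr (Sum.inr x), by
          intro a b h; simpa using h⟩ := by
      intro x hx
      rw [Finset.mem_image] at hx
      obtain ⟨a, ha, rfl⟩ := hx
      rw [Finset.mem_filter] at ha
      rcases h : φ a with i | i | i
      · rw [h] at ha; simp [isT] at ha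
      · rw [h] at ha; simp [isT] at ha
      · rw [Finset.mem_map]
        exact ⟨i, Finset.mem_univ _, rfl⟩
    have h3 := Finset.card_le_card this
    rw [Finset.card_image_of_injective _ hφ, Finset.card_map] at h3
    exact h3
  omega

lemma w3_bound (φ : κ → R ⊕ (Q ⊕ T)) (hφ : Function.Injective φ) :
    max (Fintype.card κ) (2 * Fintype.card κ - (Fintype.card R + Fintype.card T)) ≤
      ∑ a, w3 (φ a) := by
  classical
  have h0 : ∀ i : R ⊕ (Q ⊕ T), w3 i = w1 i + w2 i := by
    intro i
    rcases i with i | i | i <;> rfl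
  have h1 := w1_bound φ hφ
  have h2 := w2_bound φ hφ
  have h3 : ∑ a, w3 (φ a) = ∑ a, w1 (φ a) + ∑ a, w2 (φ a) := by
    rw [← Finset.sum_add_distrib]
    exact Finset.sum_congr rfl fun a _ => h0 _
  have h4 : Fintype.card κ ≤ ∑ a, w3 (φ a) := by
    rw [Fintype.card, Finset.card_eq_sum_ones]
    apply Finset.sum_le_sum
    intro a _
    rcases h : φ a with i | i | i <;> simp [w3]
  rw [h3] at h4 ⊢
  apply max_le h4
  omega

omit [CommRing L] in
lemma sub_triple {α β γ δ κ₁ κ₂ : Type*} [CommRing L] [Fintype β] [Fintype γ] (M : Matrix α β L)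
    (D : Matrix β γ L) (P : Matrix γ δ L) (e : κ₁ → α) (f : κ₂ → δ) :
    (M * D * P).submatrix e f = M.submatrix e id * D * P.submatrix id f := rfl

lemma PY_minor (x : VarT R A Q T N → L) (t : L) (e : κ → R ⊕ A) (f : κ → R ⊕ (Q ⊕ T)) :
    t ^ (Fintype.card κ - Fintype.card R) ∣ ((PY x t).submatrix e f).det := by
  rw [PY_eq, sub_triple]
  exact det_diag_dvd _ _ _ _ _ fun φ hφ => w1_bound φ hφ

lemma PZ_minor (x : VarT R A Q T N → L) (t : L) (e : κ → R ⊕ (Q ⊕ T)) (f : κ → N ⊕ T) :
    t ^ (Fintype.card κ - Fintype.card T) ∣ ((PZ x t).submatrix e f).det := by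
  rw [PZ_eq, sub_triple]
  exact det_diag_dvd _ _ _ _ _ fun φ hφ => w2_bound φ hφ

lemma PYZ_minor (x : VarT R A Q T N → L) (t : L) (e : κ → R ⊕ A) (f : κ → N ⊕ T) :
    t ^ (max (Fintype.card κ) (2 * Fintype.card κ - (Fintype.card R + Fintype.card T))) ∣
      ((PY x t * PZ x t).submatrix e f).det := by
  rw [PYZ_eq, sub_triple]
  exact det_diag_dvd _ _ _ _ _ fun φ hφ => w3_bound φ hφ

lemma PYZ_entry (x : VarT R A Q T N → L) (t : L) (i : R ⊕ A) (j : N ⊕ T) :
    t ∣ (PY x t * PZ x t) i j := by
  have := PYZ_minor x t (fun _ : Fin 1 => i) (fun _ : Fin 1 => j)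
  rw [det_fin_one] at this
  simp only [Fintype.card_fin, submatrix_apply] at this
  refine (dvd_trans ?_ this)
  apply dvd_pow_self
  omega

end Bounds

section Nat

variable {R A Q T N : Type*} {L L' : Type*} [CommRing L] [CommRing L']
variable [Fintype R] [Fintype A] [Fintype Q] [Fintype T] [Fintype N]
  [DecidableEq R] [DecidableEq A] [DecidableEq Q] [DecidableEq T] [DecidableEq N]

lemma map_PY (φ : L →+* L') (x : VarT R A Q T N → L) (t : L) :
    (PY x t).map φ = PY (fun v => φ (x v)) (φ t) := by
  unfold PY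
  rw [fromBlocks_map]
  have e11 : (bY11 x).map φ = bY11 fun v => φ (x v) := rfl
  have e12 : (bY12 x).map φ = bY12 fun v => φ (x v) := rfl
  have e21 : (bY21 x).map φ = bY21 fun v => φ (x v) := rfl
  have e22 : (bY22 x).map φ = bY22 fun v => φ (x v) := rfl
  congr 1
  · rw [Matrix.map_mul, e11, e12]
  · rw [Matrix.map_mul, e11, e21]
  · rw [Matrix.map_add _ (map_add φ), Matrix.map_mul, Matrix.map_mul, e11, e21, e12, ← e22]
    congr 1
    ext i j
    simp

lemma map_WW (φ : L →+* L') (x : VarT R A Q T N → L) :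
    (WW x).map φ = WW (fun v => φ (x v)) := by
  unfold WW
  ext i j
  rcases i with i | i
  · rfl
  · simp [Matrix.one_apply, apply_ite φ]

lemma map_LA (φ : L →+* L') (x : VarT R A Q T N → L) (t : L) :
    (LA x t).map φ = LA (fun v => φ (x v)) (φ t) := by
  unfold LA
  rw [Matrix.map_sub _ (map_sub φ), Matrix.map_mul, map_WW]
  congr 1
  ext i j
  exact map_mul φ _ _

lemma map_PZ (φ : L →+* L') (x : VarT R A Q T N → L) (t : L) :
    (PZ x t).map φ = PZ (fun v => φ (x v)) (φ t) := by
  unfold PZ
  rw [fromBlocks_map]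
  have e1 : (bZTN x).map φ = bZTN fun v => φ (x v) := rfl
  have e2 : (bZTT x).map φ = bZTT fun v => φ (x v) := rfl
  congr 1
  · rw [Matrix.map_add _ (map_add φ), Matrix.map_mul, map_LA, e1]
    congr 1
    ext i j
    exact map_mul φ _ _
  · rw [Matrix.map_mul, map_LA, e2]
  · rw [Matrix.map_add _ (map_add φ), Matrix.map_mul, map_WW, e1]
    congr 1
    ext i j
    rcases i with i | i
    · exact map_mul φ _ _
    · simp
  · rw [Matrix.map_mul, map_WW, e2]

lemma map_pt (φ : L →+* L') (x : VarT R A Q T N → L) (t : L) (v : VarT R A Q T N) :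
    φ (pt x t v) = pt (fun v => φ (x v)) (φ t) v := by
  rcases v with ⟨i, j⟩ | ⟨i, j⟩
  · have := congrFun (congrFun (map_PY φ x t) i) j
    exact this
  · have := congrFun (congrFun (map_PZ φ x t) i) j
    exact this

end Nat

section Scale

variable {R A Q T N : Type*} {L : Type*} [CommRing L]
variable [Fintype R] [Fintype A] [Fintype Q] [Fintype T] [Fintype N]
  [DecidableEq R] [DecidableEq A] [DecidableEq Q] [DecidableEq T] [DecidableEq N]

/-- the normal variables -/
def isJ : VarT R A Q T N → Bool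
  | Sum.inl (Sum.inr _, Sum.inr _) => true
  | Sum.inr (Sum.inl _, _) => true
  | Sum.inr (Sum.inr (Sum.inl _), Sum.inl _) => true
  | _ => false

/-- scaling the normal variables -/
def scl (x : VarT R A Q T N → L) (t : L) : VarT R A Q T N → L :=
  fun v => if isJ v then t * x v else x v

lemma pt_scl (x : VarT R A Q T N → L) (t : L) : pt (scl x t) 1 = pt x t := by
  have h11 : bY11 (scl x t) = bY11 x := rfl
  have h12 : bY12 (scl x t) = bY12 x := rfl
  have h21 : bY21 (scl x t) = bY21 x := rfl
  have h22 : bY22 (scl x t) = t • bY22 x := rfl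
  have g1 : bZRN (scl x t) = t • bZRN x := rfl
  have g2 : bZRT (scl x t) = t • bZRT x := rfl
  have g3 : bZQN (scl x t) = t • bZQN x := rfl
  have g4 : bZTN (scl x t) = bZTN x := rfl
  have g5 : bZQT (scl x t) = bZQT x := rfl
  have g6 : bZTT (scl x t) = bZTT x := rfl
  have hW : WW (scl x t) = WW x := by unfold WW; rw [g5]
  have hL : LA (scl x t) 1 = LA x t := by unfold LA; rw [hW, h12, g2, one_smul]
  have hPY : PY (scl x t) 1 = PY x t := by
    unfold PY
    rw [h11, h12, h21, h22, one_smul]
  have hPZ : PZ (scl x t) 1 = PZ x t := by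
    unfold PZ
    rw [hL, hW, g1, g3, g4, g6, one_smul, one_smul]
    congr 2
    ext i j
    rcases i with i | i <;> simp
  funext v
  rcases v with ⟨i, j⟩ | ⟨i, j⟩
  · exact congrFun (congrFun hPY i) j
  · exact congrFun (congrFun hPZ i) j

end Scale

end Pool.Agent.J6H94.SymbVC
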