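import Mathlib
import Pool.Agent.J6H94.SymbVC.Det

/-! The inverse of the parametrization. -/

set_option linter.unusedSectionVars false
set_option linter.unusedSimpArgs false

namespace Pool.Agent.J6H94.SymbVC

open Matrix

section Inv

variable {R A Q T N : Type*} {L : Type*} [CommRing L]
variable [Fintype R] [Fintype A] [Fintype Q] [Fintype T] [Fintype N]
  [DecidableEq R] [DecidableEq A] [DecidableEq Q] [DecidableEq T] [DecidableEq N]

/-- the rational inverse -/
noncomputable def inv (y : VarT R A Q T N → L) : VarT R A Q T N → L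
  | Sum.inl (Sum.inl i, Sum.inl j) => bY11 y i j
  | Sum.inl (Sum.inl i, Sum.inr j) => ((bY11 y)⁻¹ * bY12 y) i j
  | Sum.inl (Sum.inr i, Sum.inl j) => (bY21 y * (bY11 y)⁻¹) i j
  | Sum.inl (Sum.inr i, Sum.inr j) => (bY22 y - bY21 y * (bY11 y)⁻¹ * bY12 y) i j
  | Sum.inr (Sum.inl i, Sum.inl j) => (bZRN y - bZRT y * (bZTT y)⁻¹ * bZTN y) i j
  | Sum.inr (Sum.inl i, Sum.inr j) =>
      (bZRT y * (bZTT y)⁻¹ + (bY11 y)⁻¹ * bY12 y * fromRows (bZQT y * (bZTT y)⁻¹) (1 : Matrix T T L)) i j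
  | Sum.inr (Sum.inr (Sum.inl i), Sum.inl j) => (bZQN y - bZQT y * (bZTT y)⁻¹ * bZTN y) i j
  | Sum.inr (Sum.inr (Sum.inl i), Sum.inr j) => (bZQT y * (bZTT y)⁻¹) i j
  | Sum.inr (Sum.inr (Sum.inr i), Sum.inl j) => bZTN y i j
  | Sum.inr (Sum.inr (Sum.inr i), Sum.inr j) => bZTT y i j

lemma pt_inv (y : VarT R A Q T N → L) (hY : IsUnit (bY11 y).det) (hZ : IsUnit (bZTT y).det) :
    pt (inv y) 1 = y := by
  have h11 : bY11 (inv y) = bY11 y := rfl
  have h12 : bY12 (inv y) = (bY11 y)⁻¹ * bY12 y := rfl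
  have h21 : bY21 (inv y) = bY21 y * (bY11 y)⁻¹ := rfl
  have h22 : bY22 (inv y) = bY22 y - bY21 y * (bY11 y)⁻¹ * bY12 y := rfl
  have g1 : bZRN (inv y) = bZRN y - bZRT y * (bZTT y)⁻¹ * bZTN y := rfl
  have g2 : bZRT (inv y) = bZRT y * (bZTT y)⁻¹ +
    (bY11 y)⁻¹ * bY12 y * fromRows (bZQT y * (bZTT y)⁻¹) (1 : Matrix T T L) := rfl
  have g3 : bZQN (inv y) = bZQN y - bZQT y * (bZTT y)⁻¹ * bZTN y := rfl
  have g4 : bZTN (inv y) = bZTN y := rfl
  have g5 : bZQT (inv y) = bZQT y * (bZTT y)⁻¹ := rfl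
  have g6 : bZTT (inv y) = bZTT y := rfl
  have hPY : PY (inv y) 1 = mY y := by
    unfold PY
    rw [h11, h12, h21, h22, one_smul]
    rw [← Matrix.mul_assoc, mul_nonsing_inv _ hY, Matrix.one_mul, Matrix.mul_assoc (bY21 y),
      nonsing_inv_mul _ hY, Matrix.mul_one, Matrix.mul_assoc (bY21 y)]
    rw [add_sub_cancel]
    exact fromBlocks_toBlocks (mY y)
  have hW : WW (inv y) = fromRows (bZQT y * (bZTT y)⁻¹) (1 : Matrix T T L) := by
    unfold WW; rw [g5]
  have hL : LA (inv y) 1 = bZRT y * (bZTT y)⁻¹ := by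
    unfold LA
    rw [hW, h12, g2, one_smul, add_sub_cancel_right]
  have hPZ : PZ (inv y) 1 = mZ y := by
    unfold PZ
    rw [hL, hW, g1, g3, g4, g6, one_smul, one_smul]
    have e1 : bZRT y * (bZTT y)⁻¹ * bZTN y + (bZRN y - bZRT y * (bZTT y)⁻¹ * bZTN y) = bZRN y := by
      abel
    have e2 : bZRT y * (bZTT y)⁻¹ * bZTT y = bZRT y := by
      rw [Matrix.mul_assoc, nonsing_inv_mul _ hZ, Matrix.mul_one]
    have e3 : fromRows (bZQT y * (bZTT y)⁻¹) (1 : Matrix T T L) * bZTN y +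
        fromRows (bZQN y - bZQT y * (bZTT y)⁻¹ * bZTN y) 0 = fromRows (bZQN y) (bZTN y) := by
      rw [fromRows_mul]
      ext i j
      rcases i with i | i <;> simp
    have e4 : fromRows (bZQT y * (bZTT y)⁻¹) (1 : Matrix T T L) * bZTT y = fromRows (bZQT y) (bZTT y) := by
      rw [fromRows_mul, Matrix.mul_assoc, nonsing_inv_mul _ hZ, Matrix.mul_one, Matrix.one_mul]
    rw [e1, e2, e3, e4]
    ext i j
    rcases i with i | i | i <;> rcases j with j | j <;> rfl
  funext v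
  rcases v with ⟨i, j⟩ | ⟨i, j⟩
  · exact congrFun (congrFun hPY i) j
  · exact congrFun (congrFun hPZ i) j

/-- numerators of the inverse -/
def num (y : VarT R A Q T N → L) : VarT R A Q T N → L
  | Sum.inl (Sum.inl i, Sum.inl j) => (bY11 y).det * (bZTT y).det * bY11 y i j
  | Sum.inl (Sum.inl i, Sum.inr j) => (bZTT y).det * ((bY11 y).adjugate * bY12 y) i j
  | Sum.inl (Sum.inr i, Sum.inl j) => (bZTT y).det * (bY21 y * (bY11 y).adjugate) i j
  | Sum.inl (Sum.inr i, Sum.inr j) =>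
      (bZTT y).det * ((bY11 y).det • bY22 y - bY21 y * (bY11 y).adjugate * bY12 y) i j
  | Sum.inr (Sum.inl i, Sum.inl j) =>
      (bY11 y).det * ((bZTT y).det • bZRN y - bZRT y * (bZTT y).adjugate * bZTN y) i j
  | Sum.inr (Sum.inl i, Sum.inr j) =>
      ((bY11 y).adjugate * (bY11 y * bZRT y + bY12 y * fromRows (bZQT y) (bZTT y)) *
        (bZTT y).adjugate) i j
  | Sum.inr (Sum.inr (Sum.inl i), Sum.inl j) =>
      (bY11 y).det * ((bZTT y).det • bZQN y - bZQT y * (bZTT y).adjugate * bZTN y) i j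
  | Sum.inr (Sum.inr (Sum.inl i), Sum.inr j) => (bY11 y).det * (bZQT y * (bZTT y).adjugate) i j
  | Sum.inr (Sum.inr (Sum.inr i), Sum.inl j) => (bY11 y).det * (bZTT y).det * bZTN y i j
  | Sum.inr (Sum.inr (Sum.inr i), Sum.inr j) => (bY11 y).det * (bZTT y).det * bZTT y i j

lemma det_smul_inv {κ : Type*} [Fintype κ] [DecidableEq κ] (M : Matrix κ κ L)
    (h : IsUnit M.det) : M.det • M⁻¹ = M.adjugate := by
  rw [Matrix.inv_def, smul_smul, Ring.mul_inverse_cancel _ h, one_smul]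

lemma num_eq (y : VarT R A Q T N → L) (hY : IsUnit (bY11 y).det) (hZ : IsUnit (bZTT y).det)
    (v : VarT R A Q T N) : (bY11 y).det * (bZTT y).det * inv y v = num y v := by
  have hA := det_smul_inv _ hY
  have hB := det_smul_inv _ hZ
  set dY := (bY11 y).det with hdY
  set dZ := (bZTT y).det with hdZ
  rcases v with ⟨i | i, j | j⟩ | ⟨i | i | i, j | j⟩
  · rfl
  · change dY * dZ * ((bY11 y)⁻¹ * bY12 y) i j = dZ * ((bY11 y).adjugate * bY12 y) i j
    rw [← hA, Matrix.smul_mul, Matrix.smul_apply, smul_eq_mul]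
    ring
  · change dY * dZ * (bY21 y * (bY11 y)⁻¹) i j = dZ * (bY21 y * (bY11 y).adjugate) i j
    rw [← hA, Matrix.mul_smul, Matrix.smul_apply, smul_eq_mul]
    ring
  · change dY * dZ * (bY22 y - bY21 y * (bY11 y)⁻¹ * bY12 y) i j =
      dZ * (dY • bY22 y - bY21 y * (bY11 y).adjugate * bY12 y) i j
    rw [← hA, Matrix.mul_smul, Matrix.smul_mul, Matrix.sub_apply, Matrix.sub_apply,
      Matrix.smul_apply, Matrix.smul_apply, smul_eq_mul, smul_eq_mul]
    ring
  · change dY * dZ * (bZRN y - bZRT y * (bZTT y)⁻¹ * bZTN y) i j =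
      dY * (dZ • bZRN y - bZRT y * (bZTT y).adjugate * bZTN y) i j
    rw [← hB, Matrix.mul_smul, Matrix.smul_mul, Matrix.sub_apply, Matrix.sub_apply,
      Matrix.smul_apply, Matrix.smul_apply, smul_eq_mul, smul_eq_mul]
    ring
  · change dY * dZ * (bZRT y * (bZTT y)⁻¹ +
      (bY11 y)⁻¹ * bY12 y * fromRows (bZQT y * (bZTT y)⁻¹) (1 : Matrix T T L)) i j =
      ((bY11 y).adjugate * (bY11 y * bZRT y + bY12 y * fromRows (bZQT y) (bZTT y)) *
        (bZTT y).adjugate) i j
    have e1 : fromRows (bZQT y) (bZTT y) * (bZTT y)⁻¹ = fromRows (bZQT y * (bZTT y)⁻¹) (1 : Matrix T T L) := by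
      rw [fromRows_mul, mul_nonsing_inv _ hZ]
    have e2 : (bY11 y).adjugate * (bY11 y * bZRT y + bY12 y * fromRows (bZQT y) (bZTT y)) *
        (bZTT y).adjugate = (dY * dZ) • (bZRT y * (bZTT y)⁻¹ +
      (bY11 y)⁻¹ * bY12 y * fromRows (bZQT y * (bZTT y)⁻¹) (1 : Matrix T T L)) := by
      rw [← hA, ← hB, ← e1]
      simp only [Matrix.smul_mul, Matrix.mul_smul, Matrix.mul_add, Matrix.add_mul, smul_add,
        smul_smul]
      have e3 : (bY11 y)⁻¹ * (bY11 y * bZRT y) = bZRT y := by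
        rw [← Matrix.mul_assoc, nonsing_inv_mul _ hY, Matrix.one_mul]
      rw [e3, mul_comm dZ dY]
      simp only [Matrix.mul_assoc]
    rw [e2]
    rfl
  · change dY * dZ * (bZQN y - bZQT y * (bZTT y)⁻¹ * bZTN y) i j =
      dY * (dZ • bZQN y - bZQT y * (bZTT y).adjugate * bZTN y) i j
    rw [← hB, Matrix.mul_smul, Matrix.smul_mul, Matrix.sub_apply, Matrix.sub_apply,
      Matrix.smul_apply, Matrix.smul_apply, smul_eq_mul, smul_eq_mul]
    ring
  · change dY * dZ * (bZQT y * (bZTT y)⁻¹) i j = dY * (bZQT y * (bZTT y).adjugate) i j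
    rw [← hB, Matrix.mul_smul, Matrix.smul_apply, smul_eq_mul]
    ring
  · rfl
  · rfl

end Inv

section NatNum

variable {R A Q T N : Type*} {L L' : Type*} [CommRing L] [CommRing L']
variable [Fintype R] [Fintype A] [Fintype Q] [Fintype T] [Fintype N]
  [DecidableEq R] [DecidableEq A] [DecidableEq Q] [DecidableEq T] [DecidableEq N]

lemma map_fromRows {α β γ : Type*} (φ : L → L') (M : Matrix α γ L) (P : Matrix β γ L) :
    (fromRows M P).map φ = fromRows (M.map φ) (P.map φ) := by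
  ext i j
  rcases i with i | i <;> rfl

lemma map_smul' {α β : Type*} (φ : L →+* L') (c : L) (M : Matrix α β L) :
    (c • M).map φ = φ c • M.map φ := by
  ext i j
  exact map_mul φ _ _

lemma map_adj {α : Type*} [Fintype α] [DecidableEq α] (φ : L →+* L') (M : Matrix α α L) :
    M.adjugate.map φ = (M.map φ).adjugate := by
  have := RingHom.map_adjugate φ M
  exact this

lemma map_det {α : Type*} [Fintype α] [DecidableEq α] (φ : L →+* L') (M : Matrix α α L) :
    φ M.det = (M.map φ).det := RingHom.map_det φ M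

lemma map_num (φ : L →+* L') (y : VarT R A Q T N → L) (v : VarT R A Q T N) :
    φ (num y v) = num (fun v => φ (y v)) v := by
  have e11 : (bY11 y).map φ = bY11 fun v => φ (y v) := rfl
  have e12 : (bY12 y).map φ = bY12 fun v => φ (y v) := rfl
  have e21 : (bY21 y).map φ = bY21 fun v => φ (y v) := rfl
  have e22 : (bY22 y).map φ = bY22 fun v => φ (y v) := rfl
  have f1 : (bZRN y).map φ = bZRN fun v => φ (y v) := rfl
  have f2 : (bZRT y).map φ = bZRT fun v => φ (y v) := rfl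
  have f3 : (bZQN y).map φ = bZQN fun v => φ (y v) := rfl
  have f4 : (bZTN y).map φ = bZTN fun v => φ (y v) := rfl
  have f5 : (bZQT y).map φ = bZQT fun v => φ (y v) := rfl
  have f6 : (bZTT y).map φ = bZTT fun v => φ (y v) := rfl
  have dY : φ (bY11 y).det = (bY11 fun v => φ (y v)).det := map_det φ _
  have dZ : φ (bZTT y).det = (bZTT fun v => φ (y v)).det := map_det φ _
  have aY : (bY11 y).adjugate.map φ = (bY11 fun v => φ (y v)).adjugate := map_adj φ _
  have aZ : (bZTT y).adjugate.map φ = (bZTT fun v => φ (y v)).adjugate := map_adj φ _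
  rcases v with ⟨i | i, j | j⟩ | ⟨i | i | i, j | j⟩
  · change φ ((bY11 y).det * (bZTT y).det * bY11 y i j) = _
    rw [map_mul, map_mul, dY, dZ]; rfl
  · change φ ((bZTT y).det * ((bY11 y).adjugate * bY12 y) i j) = _
    rw [map_mul, dZ]
    change _ * (((bY11 y).adjugate * bY12 y).map φ) i j = _
    rw [Matrix.map_mul, aY, e12]; rfl
  · change φ ((bZTT y).det * (bY21 y * (bY11 y).adjugate) i j) = _
    rw [map_mul, dZ]
    change _ * ((bY21 y * (bY11 y).adjugate).map φ) i j = _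
    rw [Matrix.map_mul, aY, e21]; rfl
  · change φ ((bZTT y).det * ((bY11 y).det • bY22 y - bY21 y * (bY11 y).adjugate * bY12 y) i j) = _
    rw [map_mul, dZ]
    change _ * (((bY11 y).det • bY22 y - bY21 y * (bY11 y).adjugate * bY12 y).map φ) i j = _
    rw [Matrix.map_sub _ (map_sub φ), Matrix.map_mul, Matrix.map_mul, aY, e21, e12, map_smul', e22,
      dY]; rfl
  · change φ ((bY11 y).det * ((bZTT y).det • bZRN y - bZRT y * (bZTT y).adjugate * bZTN y) i j) = _
    rw [map_mul, dY]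
    change _ * (((bZTT y).det • bZRN y - bZRT y * (bZTT y).adjugate * bZTN y).map φ) i j = _
    rw [Matrix.map_sub _ (map_sub φ), Matrix.map_mul, Matrix.map_mul, aZ, f2, f4, map_smul', f1,
      dZ]; rfl
  · change (((bY11 y).adjugate * (bY11 y * bZRT y + bY12 y * fromRows (bZQT y) (bZTT y)) *
        (bZTT y).adjugate).map φ) i j = _
    rw [Matrix.map_mul, Matrix.map_mul, Matrix.map_add _ (map_add φ), Matrix.map_mul,
      Matrix.map_mul, map_fromRows, aY, aZ, e11, e12, f2, f5, f6]; rfl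
  · change φ ((bY11 y).det * ((bZTT y).det • bZQN y - bZQT y * (bZTT y).adjugate * bZTN y) i j) = _
    rw [map_mul, dY]
    change _ * (((bZTT y).det • bZQN y - bZQT y * (bZTT y).adjugate * bZTN y).map φ) i j = _
    rw [Matrix.map_sub _ (map_sub φ), Matrix.map_mul, Matrix.map_mul, aZ, f5, f4, map_smul', f3,
      dZ]; rfl
  · change φ ((bY11 y).det * (bZQT y * (bZTT y).adjugate) i j) = _
    rw [map_mul, dY]
    change _ * ((bZQT y * (bZTT y).adjugate).map φ) i j = _
    rw [Matrix.map_mul, aZ, f5]; rfl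
  · change φ ((bY11 y).det * (bZTT y).det * bZTN y i j) = _
    rw [map_mul, map_mul, dY, dZ]; rfl
  · change φ ((bY11 y).det * (bZTT y).det * bZTT y i j) = _
    rw [map_mul, map_mul, dY, dZ]; rfl

end NatNum

end Pool.Agent.J6H94.SymbVC
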