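import Mathlib
import Pool.Agent.J6H94.SymbVC.Inv
import Pool.Agent.J6H94.SymbVC.Alg

/-! The filtration on the polynomial ring given by the order along the generic complex. -/

set_option linter.unusedSectionVars false
set_option linter.unusedSimpArgs false

namespace Pool.Agent.J6H94.SymbVC

open Matrix MvPolynomial

variable {R A Q T N : Type*}
variable [Fintype R] [Fintype A] [Fintype Q] [Fintype T] [Fintype N]
  [DecidableEq R] [DecidableEq A] [DecidableEq Q] [DecidableEq T] [DecidableEq N]

section Ring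

variable (k : Type*) [CommRing k]

/-- the generic point -/
noncomputable def XV : VarT R A Q T N → MvPolynomial (VarT R A Q T N) k := fun v => X v

variable (R A Q T N) in
/-- the substitution with parameter -/
noncomputable def Th : MvPolynomial (VarT R A Q T N) k →ₐ[k]
    Polynomial (MvPolynomial (VarT R A Q T N) k) :=
  aeval (pt (fun v => Polynomial.C (X v)) Polynomial.X)

variable (R A Q T N) in
/-- the substitution without parameter -/
noncomputable def Ps : MvPolynomial (VarT R A Q T N) k →ₐ[k] MvPolynomial (VarT R A Q T N) k :=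
  aeval (pt (XV k) 1)

variable (R A Q T N) in
/-- the scaling -/
noncomputable def Sc : MvPolynomial (VarT R A Q T N) k →ₐ[k]
    Polynomial (MvPolynomial (VarT R A Q T N) k) :=
  aeval (scl (fun v => Polynomial.C (X v)) Polynomial.X)

lemma Sc_Ps (g : MvPolynomial (VarT R A Q T N) k) : Sc R A Q T N k (Ps R A Q T N k g) =
    Th R A Q T N k g := by
  have : (Sc R A Q T N k).comp (Ps R A Q T N k) = Th R A Q T N k := by
    apply MvPolynomial.algHom_ext
    intro v
    rw [AlgHom.comp_apply, Ps, aeval_X, Th, aeval_X]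
    have h1 := map_pt (Sc R A Q T N k).toRingHom (XV k) 1 v
    have h2 : (fun v => (Sc R A Q T N k).toRingHom (XV k v)) =
        scl (fun v => (Polynomial.C (X v) : Polynomial (MvPolynomial (VarT R A Q T N) k)))
          Polynomial.X := by
      funext v
      simp [XV, Sc]
    rw [h2, map_one, pt_scl] at h1
    exact h1
  exact congrArg (fun f => f g) this

/-- normal degree -/
def Jd (μ : VarT R A Q T N →₀ ℕ) : ℕ := ∑ v, if isJ v then μ v else 0

lemma Sc_monomial (μ : VarT R A Q T N →₀ ℕ) (c : k) :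
    Sc R A Q T N k (monomial μ c) = Polynomial.monomial (Jd μ) (monomial μ c) := by
  rw [Sc, aeval_monomial, Finsupp.prod_fintype _ _ (by intro i; simp)]
  have h1 : ∀ v, scl (fun v => Polynomial.C (X v)) (Polynomial.X : Polynomial
      (MvPolynomial (VarT R A Q T N) k)) v ^ μ v =
      Polynomial.X ^ (if isJ v then μ v else 0) * Polynomial.C (X v ^ μ v) := by
    intro v
    unfold scl
    split_ifs with h
    · rw [mul_pow, ← Polynomial.C_pow]
    · rw [pow_zero, one_mul, ← Polynomial.C_pow]
  rw [Finset.prod_congr rfl fun v _ => h1 v, Finset.prod_mul_distrib, Finset.prod_pow_eq_pow_sum]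
  change algebraMap k _ c * (Polynomial.X ^ Jd μ * _) = _
  rw [← map_prod, mul_left_comm]
  have h2 : algebraMap k (Polynomial (MvPolynomial (VarT R A Q T N) k)) c =
    Polynomial.C (C c) := rfl
  rw [h2, ← Polynomial.C_mul, mul_comm, Polynomial.C_mul_X_pow_eq_monomial]
  congr 1
  rw [monomial_eq, Finsupp.prod_fintype _ _ (by intro i; simp)]

lemma coeff_Sc (b : MvPolynomial (VarT R A Q T N) k) (i : ℕ) (μ : VarT R A Q T N →₀ ℕ) :
    coeff μ ((Sc R A Q T N k b).coeff i) = if Jd μ = i then coeff μ b else 0 := by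
  induction b using MvPolynomial.induction_on' with
  | monomial ν c =>
    rw [Sc_monomial, Polynomial.coeff_monomial, coeff_monomial]
    by_cases h1 : ν = μ
    · subst h1
      by_cases h2 : Jd ν = i
      · simp [h2]
      · simp [h2]
    · by_cases h2 : Jd ν = i
      · rw [if_pos h2, coeff_monomial, if_neg h1]; simp
      · rw [if_neg h2]; simp [h1]
  | add p q hp hq =>
    rw [map_add, Polynomial.coeff_add, coeff_add, hp, hq, coeff_add]
    split_ifs <;> simp

/-- the filtration -/
noncomputable def fil (n : ℕ) : Ideal (MvPolynomial (VarT R A Q T N) k) :=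
  Ideal.comap (Th R A Q T N k) (Ideal.span {Polynomial.X ^ n})

lemma mem_fil (n : ℕ) (g : MvPolynomial (VarT R A Q T N) k) :
    g ∈ fil k n ↔ Polynomial.X ^ n ∣ Th R A Q T N k g := by
  unfold fil
  rw [Ideal.mem_comap, Ideal.mem_span_singleton]

lemma fil_Jd {n : ℕ} {g : MvPolynomial (VarT R A Q T N) k} (hg : g ∈ fil k n)
    {μ : VarT R A Q T N →₀ ℕ} (hμ : μ ∈ (Ps R A Q T N k g).support) : n ≤ Jd μ := by
  rw [mem_fil, ← Sc_Ps, Polynomial.X_pow_dvd_iff] at hg
  by_contra hcon
  have h1 := hg (Jd μ) (by omega)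
  have h2 := coeff_Sc k (Ps R A Q T N k g) (Jd μ) μ
  rw [h1, if_pos rfl] at h2
  exact (mem_support_iff.mp hμ) (by simpa using h2.symm)

lemma fil_mul {i j : ℕ} {x y : MvPolynomial (VarT R A Q T N) k} (hx : x ∈ fil k i)
    (hy : y ∈ fil k j) : x * y ∈ fil k (i + j) := by
  rw [mem_fil] at *
  rw [map_mul, pow_add]
  exact mul_dvd_mul hx hy

lemma fil_anti {i j : ℕ} (hij : i ≤ j) : (fil k j : Ideal (MvPolynomial (VarT R A Q T N) k)) ≤
    fil k i := by
  intro g hg
  rw [mem_fil] at *
  exact (pow_dvd_pow _ hij).trans hg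

lemma fil_zero : (fil k 0 : Ideal (MvPolynomial (VarT R A Q T N) k)) = ⊤ := by
  rw [Ideal.eq_top_iff_one, mem_fil]
  simp

lemma fil_pow_le (n : ℕ) : (fil k 1 : Ideal (MvPolynomial (VarT R A Q T N) k)) ^ n ≤ fil k n := by
  induction n with
  | zero => rw [fil_zero]; exact le_top
  | succ n ih =>
    rw [pow_succ, Ideal.mul_le]
    intro x hx y hy
    exact fil_mul k (ih hx) hy

/-- the local equation -/
noncomputable def u0 : MvPolynomial (VarT R A Q T N) k := (bY11 (XV k)).det * (bZTT (XV k)).det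

lemma Th_det1 : Th R A Q T N k (bY11 (XV k)).det = Polynomial.C (bY11 (XV k)).det := by
  have h1 := map_det (Th R A Q T N k).toRingHom (bY11 (XV k))
  have h2 := map_det (Polynomial.C : MvPolynomial (VarT R A Q T N) k →+* _) (bY11 (XV k))
  change Th R A Q T N k _ = _ at h1
  rw [h1, h2]
  congr 1
  ext i j : 1
  change Th R A Q T N k (X _) = _
  rw [Th, aeval_X]
  rfl

/-- specialization showing the determinants are nonzero -/
noncomputable def spec : VarT R A Q T N → k
  | Sum.inl (Sum.inl i, Sum.inl j) => if i = j then 1 else 0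
  | Sum.inr (Sum.inr (Sum.inr i), Sum.inr j) => if i = j then 1 else 0
  | _ => 0

lemma det1_ne [Nontrivial k] : (bY11 (XV k : VarT R A Q T N → _)).det ≠ 0 := by
  intro h
  have h1 := map_det (aeval (spec k) : MvPolynomial (VarT R A Q T N) k →ₐ[k] k).toRingHom
    (bY11 (XV k))
  rw [h, map_zero] at h1
  have h2 : (bY11 (XV k : VarT R A Q T N → _)).map
      (aeval (spec k) : MvPolynomial (VarT R A Q T N) k →ₐ[k] k).toRingHom = 1 := by
    ext i j
    change (aeval (spec k) : MvPolynomial (VarT R A Q T N) k →ₐ[k] k) (X _) = _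
    rw [aeval_X, Matrix.one_apply]
    rfl
  rw [h2, det_one] at h1
  exact zero_ne_one h1

lemma det2_ne [Nontrivial k] : (bZTT (XV k : VarT R A Q T N → _)).det ≠ 0 := by
  intro h
  have h1 := map_det (aeval (spec k) : MvPolynomial (VarT R A Q T N) k →ₐ[k] k).toRingHom
    (bZTT (XV k))
  rw [h, map_zero] at h1
  have h2 : (bZTT (XV k : VarT R A Q T N → _)).map
      (aeval (spec k) : MvPolynomial (VarT R A Q T N) k →ₐ[k] k).toRingHom = 1 := by
    ext i j
    change (aeval (spec k) : MvPolynomial (VarT R A Q T N) k →ₐ[k] k) (X _) = _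
    rw [aeval_X, Matrix.one_apply]
    rfl
  rw [h2, det_one] at h1
  exact zero_ne_one h1

lemma Th_det2 : Th R A Q T N k (bZTT (XV k)).det = Polynomial.C (bZTT (XV k)).det := by
  have h1 := map_det (Th R A Q T N k).toRingHom (bZTT (XV k))
  have h2 := map_det (Polynomial.C : MvPolynomial (VarT R A Q T N) k →+* _) (bZTT (XV k))
  change Th R A Q T N k _ = _ at h1
  rw [h1, h2]
  congr 1
  ext i j : 1
  change Th R A Q T N k (X _) = _
  rw [Th, aeval_X]
  change PZ _ _ (Sum.inr (Sum.inr i)) (Sum.inr j) = _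
  unfold PZ WW
  rw [fromBlocks_apply₂₂, fromRows_mul, fromRows_apply_inr, Matrix.one_mul]
  rfl

end Ring

section Field

variable (K : Type*) [Field K]

variable (R A Q T N) in
/-- the polynomial ring -/
abbrev SS := MvPolynomial (VarT R A Q T N) K

variable (R A Q T N) in
/-- its fraction field -/
abbrev FF := FractionRing (MvPolynomial (VarT R A Q T N) K)

lemma u0_ne : (u0 K : MvPolynomial (VarT R A Q T N) K) ≠ 0 :=
  mul_ne_zero (det1_ne K) (det2_ne K)

lemma u0_not_mem : (u0 K : MvPolynomial (VarT R A Q T N) K) ∉ fil K 1 := by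
  rw [mem_fil, u0, map_mul, Th_det1, Th_det2, ← Polynomial.C_mul, pow_one, Polynomial.X_dvd_iff,
    Polynomial.coeff_C_zero]
  exact u0_ne K

lemma fil_sat {k : ℕ} {w g : MvPolynomial (VarT R A Q T N) K} (hw : w ∉ fil K 1)
    (h : w * g ∈ fil K k) : g ∈ fil K k := by
  rw [mem_fil] at *
  rw [map_mul] at h
  apply Prime.pow_dvd_of_dvd_mul_left Polynomial.prime_X k _ h
  simpa using hw

lemma fil_proper : (1 : MvPolynomial (VarT R A Q T N) K) ∉ fil K 1 := by
  intro h
  exact u0_not_mem K (by
    have := Ideal.mul_mem_left _ (u0 K : MvPolynomial (VarT R A Q T N) K) h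
    simpa using this)

lemma rho_Ps (g : MvPolynomial (VarT R A Q T N) K) :
    (aeval (inv fun v => algebraMap (MvPolynomial (VarT R A Q T N) K)
      (FractionRing (MvPolynomial (VarT R A Q T N) K)) (X v)) : MvPolynomial (VarT R A Q T N) K →ₐ[K]
      FractionRing (MvPolynomial (VarT R A Q T N) K)) (Ps R A Q T N K g) = algebraMap _ _ g := by
  set y : VarT R A Q T N → FF R A Q T N K := fun v => algebraMap (SS R A Q T N K) (FF R A Q T N K) (X v) with hy
  have hu1 : IsUnit (bY11 y).det := by
    have h1 := map_det (algebraMap (SS R A Q T N K) (FF R A Q T N K)) (bY11 (XV K))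
    have h2 : (bY11 (XV K)).map (algebraMap (SS R A Q T N K) (FF R A Q T N K)) = bY11 y := rfl
    rw [h2] at h1
    rw [← h1, isUnit_iff_ne_zero]
    intro h0
    exact det1_ne K ((IsFractionRing.injective (SS R A Q T N K) (FF R A Q T N K)) (by rw [h0, map_zero]))
  have hu2 : IsUnit (bZTT y).det := by
    have h1 := map_det (algebraMap (SS R A Q T N K) (FF R A Q T N K)) (bZTT (XV K))
    have h2 : (bZTT (XV K)).map (algebraMap (SS R A Q T N K) (FF R A Q T N K)) = bZTT y := rfl
    rw [h2] at h1
    rw [← h1, isUnit_iff_ne_zero]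
    intro h0
    exact det2_ne K ((IsFractionRing.injective (SS R A Q T N K) (FF R A Q T N K)) (by rw [h0, map_zero]))
  have : (aeval (inv y) : SS R A Q T N K →ₐ[K] FF R A Q T N K).comp (Ps R A Q T N K) = Algebra.algHom K (SS R A Q T N K) (FF R A Q T N K) := by
    apply MvPolynomial.algHom_ext
    intro v
    rw [AlgHom.comp_apply, Ps, aeval_X]
    have h1 := map_pt (aeval (inv y) : SS R A Q T N K →ₐ[K] FF R A Q T N K).toRingHom (XV K) 1 v
    have h2 : (fun v => (aeval (inv y) : SS R A Q T N K →ₐ[K] FF R A Q T N K).toRingHom (XV K v)) = inv y := by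
      funext v
      change (aeval (inv y) : SS R A Q T N K →ₐ[K] FF R A Q T N K) (X v) = _
      rw [aeval_X]
    rw [h2, map_one, pt_inv y hu1 hu2] at h1
    exact h1
  exact congrArg (fun f => f g) this

/-- local generation by the numerators -/
theorem fil_loc {𝔞 : Ideal (MvPolynomial (VarT R A Q T N) K)}
    (h𝔞 : ∀ v : VarT R A Q T N, isJ v = true → num (XV K) v ∈ 𝔞) {n : ℕ}
    {g : MvPolynomial (VarT R A Q T N) K} (hg : g ∈ fil K n) : ∃ M, u0 K ^ M * g ∈ 𝔞 ^ n := by
  classical
  set y : VarT R A Q T N → FF R A Q T N K := fun v => algebraMap (SS R A Q T N K) (FF R A Q T N K) (X v) with hy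
  have hinj : Function.Injective (algebraMap (SS R A Q T N K) (FF R A Q T N K)) := IsFractionRing.injective (SS R A Q T N K) (FF R A Q T N K)
  have hd1 : algebraMap (SS R A Q T N K) (FF R A Q T N K) (bY11 (XV K)).det = (bY11 y).det := map_det (algebraMap (SS R A Q T N K) (FF R A Q T N K)) _
  have hd2 : algebraMap (SS R A Q T N K) (FF R A Q T N K) (bZTT (XV K)).det = (bZTT y).det := map_det (algebraMap (SS R A Q T N K) (FF R A Q T N K)) _
  have hu1 : IsUnit (bY11 y).det := by
    rw [← hd1, isUnit_iff_ne_zero]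
    intro h0
    exact det1_ne K (hinj (by rw [h0, map_zero]))
  have hu2 : IsUnit (bZTT y).det := by
    rw [← hd2, isUnit_iff_ne_zero]
    intro h0
    exact det2_ne K (hinj (by rw [h0, map_zero]))
  have hnum : ∀ v, algebraMap (SS R A Q T N K) (FF R A Q T N K) (u0 K) * inv y v = algebraMap (SS R A Q T N K) (FF R A Q T N K) (num (XV K) v) := by
    intro v
    have h1 := num_eq y hu1 hu2 v
    rw [map_num (algebraMap (SS R A Q T N K) (FF R A Q T N K)) (XV K) v]
    rw [u0, map_mul, hd1, hd2]
    exact h1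
  set b := Ps R A Q T N K g with hb
  have hρ := rho_Ps K g
  rw [← hb] at hρ
  -- total degree bound
  set M := b.support.sup (fun μ => ∑ v, μ v) with hM
  refine ⟨M, ?_⟩
  have key : u0 K ^ M * g = ∑ μ ∈ b.support, u0 K ^ (M - ∑ v, μ v) * (C (coeff μ b) *
      ∏ v, num (XV K) v ^ μ v) := by
    apply hinj
    rw [map_mul, ← hρ, map_sum]
    conv_lhs => rw [b.as_sum, map_sum, Finset.mul_sum]
    apply Finset.sum_congr rfl
    intro μ hμ
    have hle : ∑ v, μ v ≤ M := Finset.le_sup (f := fun μ : VarT R A Q T N →₀ ℕ => ∑ v, μ v) hμ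
    rw [aeval_monomial, Finsupp.prod_fintype _ _ (by intro i; simp), map_mul, map_mul, map_pow,
      map_pow, map_prod]
    have h3 : algebraMap (SS R A Q T N K) (FF R A Q T N K) (u0 K) ^ M = algebraMap (SS R A Q T N K) (FF R A Q T N K) (u0 K) ^ (M - ∑ v, μ v) *
        ∏ v, algebraMap (SS R A Q T N K) (FF R A Q T N K) (u0 K) ^ μ v := by
      rw [Finset.prod_pow_eq_pow_sum, ← pow_add]
      congr 1
      omega
    rw [h3]
    have h4 : ∀ v, algebraMap (SS R A Q T N K) (FF R A Q T N K) (num (XV K) v ^ μ v) =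
        algebraMap (SS R A Q T N K) (FF R A Q T N K) (u0 K) ^ μ v * inv y v ^ μ v := by
      intro v
      rw [← mul_pow, hnum, map_pow]
    rw [Finset.prod_congr rfl fun v _ => h4 v, Finset.prod_mul_distrib]
    have h5 : algebraMap (SS R A Q T N K) (FF R A Q T N K) (C (coeff μ b)) = algebraMap K (FF R A Q T N K) (coeff μ b) := by
      rw [IsScalarTower.algebraMap_apply K (SS R A Q T N K) (FF R A Q T N K)]
      rfl
    rw [h5]
    ring
  rw [key]
  apply Ideal.sum_mem
  intro μ hμ
  apply Ideal.mul_mem_left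
  apply Ideal.mul_mem_left
  have hn : n ≤ Jd μ := fil_Jd K hg hμ
  apply Ideal.pow_le_pow_right hn
  unfold Jd
  rw [← Finset.prod_pow_eq_pow_sum]
  apply Ideal.prod_mem_prod
  intro v _
  split_ifs with hv
  · exact Ideal.pow_mem_pow (h𝔞 v hv) _
  · simp

variable (R A Q T N) in
/-- number of normal variables -/
abbrev hh : ℕ := Fintype.card {v : VarT R A Q T N // isJ v = true}

/-- the numerators lie in the first step -/
theorem fil_symb (hP : ∀ v : VarT R A Q T N, isJ v = true → num (XV K) v ∈ fil K 1) :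
    SymbFilt (hh R A Q T N) (fil K : ℕ → Ideal (MvPolynomial (VarT R A Q T N) K)) := by
  refine ⟨fun hx hy => fil_mul K hx hy, fun hij => fil_anti K hij, fil_zero K, fil_proper K,
    fun hw h => fil_sat K hw h, ?_⟩
  let e := (Fintype.equivFin {v : VarT R A Q T N // isJ v = true}).symm
  refine ⟨fun i => num (XV K) (e i).1, fun i => hP _ (e i).2, ?_⟩
  intro n g hg
  obtain ⟨M, hM⟩ := fil_loc K (𝔞 := Ideal.span (Set.range fun i => num (XV K) (e i).1)) (by
    intro v hv
    apply Ideal.subset_span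
    refine ⟨e.symm ⟨v, hv⟩, ?_⟩
    simp) hg
  refine ⟨u0 K ^ M, ?_, hM⟩
  intro hmem
  have hprime : ∀ (n : ℕ), (u0 K : MvPolynomial (VarT R A Q T N) K) ^ n ∉ fil K 1 := by
    intro n
    induction n with
    | zero => rw [pow_zero]; exact fil_proper K
    | succ n ih =>
      rw [pow_succ]
      intro h
      exact u0_not_mem K (fil_sat K ih h)
  exact hprime M hmem

end Field

end Pool.Agent.J6H94.SymbVC
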