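import Mathlib
import Pool.Agent.J6H94.SymbVC.Filt

/-! The ideal of the variety of complexes. -/

set_option linter.unusedSectionVars false
set_option linter.unusedSimpArgs false

namespace Pool.Agent.J6H94.SymbVC

open Matrix MvPolynomial

/-- the ideal of `k × k` minors -/
def minors {S ρ γ : Type*} [CommRing S] (k : ℕ) (M : Matrix ρ γ S) : Ideal S :=
  Ideal.span (Set.range fun p : (Fin k → ρ) × (Fin k → γ) => (M.submatrix p.1 p.2).det)

/-- the ideal of entries -/
def entries {S ρ γ : Type*} [CommRing S] (M : Matrix ρ γ S) : Ideal S :=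
  Ideal.span (Set.range fun p : ρ × γ => M p.1 p.2)

/-- the matrix `Y` of variables -/
noncomputable def matY (K α β γ : Type*) [CommRing K] : Matrix α β (MvPolynomial ((α × β) ⊕ (β × γ)) K) :=
  fun i j => X (Sum.inl (i, j))

/-- the matrix `Z` of variables -/
noncomputable def matZ (K α β γ : Type*) [CommRing K] : Matrix β γ (MvPolynomial ((α × β) ⊕ (β × γ)) K) :=
  fun j k => X (Sum.inr (j, k))

/-- the ideal `I_{r+1}(Y) + I_{s+1}(Z) + I_1(YZ)` -/
noncomputable def cpx (K α β γ : Type*) [CommRing K] [Fintype β] (r s : ℕ) :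
    Ideal (MvPolynomial ((α × β) ⊕ (β × γ)) K) :=
  minors (r + 1) (matY K α β γ) ⊔ minors (s + 1) (matZ K α β γ) ⊔
    entries (matY K α β γ * matZ K α β γ)

lemma minor_mem {S ρ γ κ : Type*} [CommRing S] [Fintype κ] [DecidableEq κ] {k : ℕ}
    (M : Matrix ρ γ S) (hk : Fintype.card κ = k) (e : κ → ρ) (f : κ → γ) :
    (M.submatrix e f).det ∈ minors k M := by
  classical
  subst hk
  let σ := Fintype.equivFin κ
  have : (M.submatrix e f).det = (M.submatrix (e ∘ σ.symm) (f ∘ σ.symm)).det := by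
    rw [← det_submatrix_equiv_self σ.symm, submatrix_submatrix]
  rw [this]
  exact Ideal.subset_span ⟨(e ∘ σ.symm, f ∘ σ.symm), rfl⟩

section Schur

variable {κ : Type*} [Fintype κ] [DecidableEq κ]

lemma schur_unit {L : Type*} [CommRing L] (A : Matrix κ κ L) (hA : IsUnit A.det)
    (B : Matrix κ Unit L) (C : Matrix Unit κ L)
    (D : Matrix Unit Unit L) : (fromBlocks A B C D).det =
      (A.det • D - C * A.adjugate * B) () () := by
  have := A.invertibleOfIsUnitDet hA
  rw [det_fromBlocks₁₁, ← det_smul_inv A hA, invOf_eq_nonsing_inv]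
  simp only [Matrix.sub_apply, Matrix.smul_apply, smul_eq_mul, Matrix.mul_smul, Matrix.smul_mul]
  rw [show (D - C * A⁻¹ * B).det = (D - C * A⁻¹ * B) () () from det_unique _, Matrix.sub_apply]
  ring

/-- generic Schur formula, by passing to the fraction field -/
lemma schur_gen {L : Type*} [CommRing L] [IsDomain L] (M : Matrix κ κ L)
    (hM : M.det ≠ 0) (B : Matrix κ Unit L) (C : Matrix Unit κ L)
    (D : Matrix Unit Unit L) : (fromBlocks M B C D).det =
      (M.det • D - C * M.adjugate * B) () () := by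
  have hinj : Function.Injective (algebraMap L (FractionRing L)) :=
    IsFractionRing.injective _ _
  apply hinj
  set φ := algebraMap L (FractionRing L)
  have h1 : φ M.det = (M.map φ).det := map_det φ M
  have hu : IsUnit (M.map φ).det := by
    rw [← h1, isUnit_iff_ne_zero]
    intro h0
    exact hM (hinj (by rw [h0, map_zero]))
  have h2 := schur_unit (M.map φ) hu (B.map φ) (C.map φ) (D.map φ)
  rw [map_det φ, fromBlocks_map, h2, ← h1, ← map_adj φ, ← Matrix.map_mul, ← Matrix.map_mul,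
    ← map_smul', ← Matrix.map_sub _ (map_sub φ)]
  rfl

lemma schur_mem {L ρ γ : Type*} [CommRing L] [IsDomain L] (W : Matrix ρ γ L) (e : κ → ρ)
    (f : κ → γ) (i : ρ) (j : γ) (hM : (W.submatrix e f).det ≠ 0) :
    (W.submatrix e f).det * W i j -
      ∑ b, (∑ a, W i (f a) * (W.submatrix e f).adjugate a b) * W (e b) j ∈
      minors (Fintype.card κ + 1) W := by
  have h1 := schur_gen (W.submatrix e f) hM (W.submatrix e (fun _ : Unit => j))
    (W.submatrix (fun _ : Unit => i) f) (W.submatrix (fun _ : Unit => i) (fun _ : Unit => j))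
  have h2 : fromBlocks (W.submatrix e f) (W.submatrix e (fun _ : Unit => j))
      (W.submatrix (fun _ : Unit => i) f) (W.submatrix (fun _ : Unit => i) (fun _ : Unit => j)) =
      W.submatrix (Sum.elim e (fun _ : Unit => i)) (Sum.elim f (fun _ : Unit => j)) := by
    ext a b : 1
    rcases a with a | a <;> rcases b with b | b <;> rfl
  rw [h2] at h1
  have h3 := minor_mem (k := Fintype.card κ + 1) W (by simp) (Sum.elim e (fun _ : Unit => i))
    (Sum.elim f (fun _ : Unit => j))
  rw [h1] at h3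
  simpa [Matrix.mul_apply, Matrix.sub_apply, Matrix.smul_apply] using h3

end Schur

variable {R A Q T N : Type*}
variable [Fintype R] [Fintype A] [Fintype Q] [Fintype T] [Fintype N]
  [DecidableEq R] [DecidableEq A] [DecidableEq Q] [DecidableEq T] [DecidableEq N]
variable (K : Type*) [Field K]

variable (R A Q T N) in
/-- abbreviations for the generic matrices -/
noncomputable abbrev MY := matY K (R ⊕ A) (R ⊕ (Q ⊕ T)) (N ⊕ T)

variable (R A Q T N) in
noncomputable abbrev MZ := matZ K (R ⊕ A) (R ⊕ (Q ⊕ T)) (N ⊕ T)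

variable (R A Q T N) in
noncomputable abbrev gx : VarT R A Q T N → SS R A Q T N K := XV K

lemma numC (i : A) (j : Q ⊕ T) :
    ((bY11 (gx R A Q T N K)).det • bY22 (gx R A Q T N K) -
      bY21 (gx R A Q T N K) * (bY11 (gx R A Q T N K)).adjugate * bY12 (gx R A Q T N K)) i j ∈
      minors (Fintype.card R + 1) (MY R A Q T N K) := by
  have h := schur_mem (MY R A Q T N K) (Sum.inl : R → R ⊕ A) (Sum.inl : R → R ⊕ (Q ⊕ T))
    (Sum.inr i) (Sum.inr j) (det1_ne K)
  rw [Matrix.sub_apply, Matrix.smul_apply, Matrix.mul_apply]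
  exact h

lemma numZa (i : R) (j : N) :
    ((bZTT (gx R A Q T N K)).det • bZRN (gx R A Q T N K) -
      bZRT (gx R A Q T N K) * (bZTT (gx R A Q T N K)).adjugate * bZTN (gx R A Q T N K)) i j ∈
      minors (Fintype.card T + 1) (MZ R A Q T N K) := by
  have h := schur_mem (MZ R A Q T N K) (fun a => Sum.inr (Sum.inr a) : T → R ⊕ (Q ⊕ T))
    (Sum.inr : T → N ⊕ T) (Sum.inl i) (Sum.inl j) (det2_ne K)
  rw [Matrix.sub_apply, Matrix.smul_apply, Matrix.mul_apply]
  exact h

lemma numZb (i : Q) (j : N) :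
    ((bZTT (gx R A Q T N K)).det • bZQN (gx R A Q T N K) -
      bZQT (gx R A Q T N K) * (bZTT (gx R A Q T N K)).adjugate * bZTN (gx R A Q T N K)) i j ∈
      minors (Fintype.card T + 1) (MZ R A Q T N K) := by
  have h := schur_mem (MZ R A Q T N K) (fun a => Sum.inr (Sum.inr a) : T → R ⊕ (Q ⊕ T))
    (Sum.inr : T → N ⊕ T) (Sum.inr (Sum.inl i)) (Sum.inl j) (det2_ne K)
  rw [Matrix.sub_apply, Matrix.smul_apply, Matrix.mul_apply]
  exact h

lemma numD (i : R) (j : T) :
    ((bY11 (gx R A Q T N K)).adjugate * (bY11 (gx R A Q T N K) * bZRT (gx R A Q T N K) +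
      bY12 (gx R A Q T N K) * fromRows (bZQT (gx R A Q T N K)) (bZTT (gx R A Q T N K))) *
        (bZTT (gx R A Q T N K)).adjugate) i j ∈
      entries (MY R A Q T N K * MZ R A Q T N K) := by
  have h1 : ∀ (a : R) (b : T), (bY11 (gx R A Q T N K) * bZRT (gx R A Q T N K) +
      bY12 (gx R A Q T N K) * fromRows (bZQT (gx R A Q T N K)) (bZTT (gx R A Q T N K))) a b ∈
        entries (MY R A Q T N K * MZ R A Q T N K) := by
    intro a b
    have h2 : (bY11 (gx R A Q T N K) * bZRT (gx R A Q T N K) +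
      bY12 (gx R A Q T N K) * fromRows (bZQT (gx R A Q T N K)) (bZTT (gx R A Q T N K))) a b =
      (MY R A Q T N K * MZ R A Q T N K) (Sum.inl a) (Sum.inr b) := by
      simp only [Matrix.mul_apply, Fintype.sum_sum_type, Matrix.add_apply, fromRows_apply_inl,
        fromRows_apply_inr]
      rfl
    rw [h2]
    exact Ideal.subset_span ⟨(Sum.inl a, Sum.inr b), rfl⟩
  rw [Matrix.mul_apply]
  apply Ideal.sum_mem
  intro c _
  apply Ideal.mul_mem_right
  rw [Matrix.mul_apply]
  apply Ideal.sum_mem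
  intro d _
  apply Ideal.mul_mem_left
  exact h1 _ _

theorem num_mem_cpx (v : VarT R A Q T N) (hv : isJ v = true) :
    num (XV K) v ∈ cpx K (R ⊕ A) (R ⊕ (Q ⊕ T)) (N ⊕ T) (Fintype.card R) (Fintype.card T) := by
  rcases v with ⟨i | i, j | j⟩ | ⟨i | i | i, j | j⟩
  · simp [isJ] at hv
  · simp [isJ] at hv
  · simp [isJ] at hv
  · exact Ideal.mem_sup_left (Ideal.mem_sup_left (Ideal.mul_mem_left _ _ (numC K i j)))
  · exact Ideal.mem_sup_left (Ideal.mem_sup_right (Ideal.mul_mem_left _ _ (numZa K i j)))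
  · exact Ideal.mem_sup_right (numD K i j)
  · exact Ideal.mem_sup_left (Ideal.mem_sup_right (Ideal.mul_mem_left _ _ (numZb K i j)))
  · simp [isJ] at hv
  · simp [isJ] at hv
  · simp [isJ] at hv

section Th

variable {κ : Type*} [Fintype κ] [DecidableEq κ]

variable (R A Q T N) in
/-- the generic parameter point -/
noncomputable abbrev CX : VarT R A Q T N → Polynomial (SS R A Q T N K) := fun v => Polynomial.C (X v)

lemma Th_matY : (MY R A Q T N K).map (Th R A Q T N K).toRingHom =
    PY (CX R A Q T N K) Polynomial.X := by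
  ext i j : 1
  change Th R A Q T N K (X _) = _
  rw [Th, aeval_X]
  rfl

lemma Th_matZ : (MZ R A Q T N K).map (Th R A Q T N K).toRingHom =
    PZ (CX R A Q T N K) Polynomial.X := by
  ext i j : 1
  change Th R A Q T N K (X _) = _
  rw [Th, aeval_X]
  rfl

lemma Th_YZ : (MY R A Q T N K * MZ R A Q T N K).map (Th R A Q T N K).toRingHom =
    PY (CX R A Q T N K) Polynomial.X * PZ (CX R A Q T N K) Polynomial.X := by
  rw [Matrix.map_mul, Th_matY, Th_matZ]

lemma Th_det {ρ γ : Type*} (W : Matrix ρ γ (SS R A Q T N K)) (e : κ → ρ) (f : κ → γ) :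
    Th R A Q T N K (W.submatrix e f).det =
      ((W.map (Th R A Q T N K).toRingHom).submatrix e f).det := by
  have h1 := map_det (Th R A Q T N K).toRingHom (W.submatrix e f)
  exact h1

lemma minorY_fil (e : κ → R ⊕ A) (f : κ → R ⊕ (Q ⊕ T)) :
    ((MY R A Q T N K).submatrix e f).det ∈ fil K (Fintype.card κ - Fintype.card R) := by
  rw [mem_fil, Th_det, Th_matY]
  exact PY_minor _ _ _ _

lemma minorZ_fil (e : κ → R ⊕ (Q ⊕ T)) (f : κ → N ⊕ T) :
    ((MZ R A Q T N K).submatrix e f).det ∈ fil K (Fintype.card κ - Fintype.card T) := by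
  rw [mem_fil, Th_det, Th_matZ]
  exact PZ_minor _ _ _ _

lemma minorYZ_fil (e : κ → R ⊕ A) (f : κ → N ⊕ T) :
    ((MY R A Q T N K * MZ R A Q T N K).submatrix
      e f).det ∈ fil K (max (Fintype.card κ)
        (2 * Fintype.card κ - (Fintype.card R + Fintype.card T))) := by
  rw [mem_fil, Th_det, Th_YZ]
  exact PYZ_minor _ _ _ _

lemma entry_fil (i : R ⊕ A) (j : N ⊕ T) : (MY R A Q T N K * MZ R A Q T N K) i j ∈ fil K 1 := by
  rw [mem_fil, pow_one]
  have h1 : Th R A Q T N K ((MY R A Q T N K * MZ R A Q T N K) i j) =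
      (((MY R A Q T N K * MZ R A Q T N K).map (Th R A Q T N K).toRingHom)) i j := rfl
  rw [h1, Th_YZ]
  exact PYZ_entry _ _ _ _

theorem cpx_le_fil : cpx K (R ⊕ A) (R ⊕ (Q ⊕ T)) (N ⊕ T) (Fintype.card R) (Fintype.card T) ≤
    fil K 1 := by
  refine sup_le (sup_le ?_ ?_) ?_
  · unfold minors
    rw [Ideal.span_le]
    rintro _ ⟨p, rfl⟩
    have := minorY_fil (R := R) (A := A) (Q := Q) (T := T) (N := N) K p.1 p.2
    simpa using this
  · unfold minors
    rw [Ideal.span_le]
    rintro _ ⟨p, rfl⟩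
    have := minorZ_fil (R := R) (A := A) (Q := Q) (T := T) (N := N) K p.1 p.2
    simpa using this
  · unfold entries
    rw [Ideal.span_le]
    rintro _ ⟨p, rfl⟩
    exact entry_fil K p.1 p.2

end Th

theorem fil_symbFilt : SymbFilt (hh R A Q T N)
    (fil K : ℕ → Ideal (MvPolynomial (VarT R A Q T N) K)) :=
  fil_symb K fun v hv => cpx_le_fil K (num_mem_cpx K v hv)

end Pool.Agent.J6H94.SymbVC
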