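import Mathlib
import Pool.Agent.J6H94.SymbVC.Det
import Pool.Agent.J6H94.SymbVC.Frob

/-! Leading monomials of determinants of variables and of products. -/

set_option linter.unusedSectionVars false
set_option linter.unusedSimpArgs false

namespace Pool.Agent.J6H94.SymbVC

open Matrix MvPolynomial

section

variable {σ : Type*} [LinearOrder σ] [WellFoundedGT σ] {K : Type*} [CommRing K] [Nontrivial K]

lemma degLex_lt_of {c d : σ →₀ ℕ} (hdeg : c.degree = d.degree) (v : σ)
    (h1 : ∀ w, w < v → c w = d w) (h2 : c v < d v) :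
    (MonomialOrder.degLex (σ := σ)).toSyn c < (MonomialOrder.degLex (σ := σ)).toSyn d := by
  rw [MonomialOrder.degLex_lt_iff, Finsupp.DegLex.lt_iff]
  right
  refine ⟨hdeg, ?_⟩
  exact ⟨v, h1, h2⟩

lemma lead_sum {ι : Type*} [Fintype ι] [DecidableEq ι] (m : MonomialOrder σ) (c : ι → K)
    (e : ι → σ →₀ ℕ) (i0 : ι) (hc : c i0 = 1)
    (h : ∀ i, i ≠ i0 → c i ≠ 0 → m.toSyn (e i) < m.toSyn (e i0)) :
    m.degree (∑ i, monomial (e i) (c i)) = e i0 ∧ m.Monic (∑ i, monomial (e i) (c i)) := by
  classical
  apply lead_of_coeff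
  · rw [coeff_sum, Finset.sum_eq_single i0]
    · rw [coeff_monomial, if_pos rfl, hc]
    · intro i _ hi
      rw [coeff_monomial]
      split_ifs with h1
      · by_contra h2
        have := h i hi h2
        rw [h1] at this
        exact lt_irrefl _ this
      · rfl
    · intro h1; exact absurd (Finset.mem_univ _) h1
  · intro b hb
    rw [coeff_sum]
    apply Finset.sum_eq_zero
    intro i _
    rw [coeff_monomial]
    split_ifs with h1
    · by_contra h2
      by_cases hi : i = i0
      · subst hi; subst h1; exact lt_irrefl _ hb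
      · have := h i hi h2
        rw [h1] at this
        exact lt_asymm this hb
    · rfl

/-- row-major monotonicity -/
def RowMono {α β : Type*} [LinearOrder α] [LinearOrder β] (v : α → β → σ) : Prop :=
  ∀ a b a' b', (a < a' ∨ (a = a' ∧ b < b')) → v a b < v a' b'

lemma RowMono.inj {α β : Type*} [LinearOrder α] [LinearOrder β] {v : α → β → σ}
    (hv : RowMono v) {a a' : α} {b b' : β} (h : v a b = v a' b') : a = a' ∧ b = b' := by
  rcases lt_trichotomy a a' with h1 | h1 | h1
  · exact absurd h (hv _ _ _ _ (Or.inl h1)).ne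
  · subst h1
    rcases lt_trichotomy b b' with h2 | h2 | h2
    · exact absurd h (hv _ _ _ _ (Or.inr ⟨rfl, h2⟩)).ne
    · exact ⟨rfl, h2⟩
    · exact absurd h.symm (hv _ _ _ _ (Or.inr ⟨rfl, h2⟩)).ne
  · exact absurd h.symm (hv _ _ _ _ (Or.inl h1)).ne

lemma RowMono.lt {α β : Type*} [LinearOrder α] [LinearOrder β] {v : α → β → σ}
    (hv : RowMono v) {a a' : α} {b b' : β} (h : v a b < v a' b') :
    a < a' ∨ (a = a' ∧ b < b') := by
  rcases lt_trichotomy a a' with h1 | h1 | h1
  · exact Or.inl h1
  · subst h1
    rcases lt_trichotomy b b' with h2 | h2 | h2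
    · exact Or.inr ⟨rfl, h2⟩
    · subst h2; exact absurd h (lt_irrefl _)
    · exact absurd h (lt_asymm (hv _ _ _ _ (Or.inr ⟨rfl, h2⟩)))
  · exact absurd h (lt_asymm (hv _ _ _ _ (Or.inl h1)))

/-- the exponent of a transversal -/
noncomputable def trv {k : ℕ} {β : Type*} (v : Fin k → β → σ) (α : Fin k → β) : σ →₀ ℕ :=
  ∑ a, Finsupp.single (v a (α a)) 1

lemma trv_apply {k : ℕ} {β : Type*} [LinearOrder β] {v : Fin k → β → σ} (hv : RowMono v)
    (α : Fin k → β) (a : Fin k) (b : β) : trv v α (v a b) = if α a = b then 1 else 0 := by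
  classical
  unfold trv
  rw [Finsupp.finsetSum_apply, Finset.sum_eq_single a]
  · rw [Finsupp.single_apply]
    by_cases h : α a = b
    · rw [if_pos h, if_pos (by rw [h])]
    · rw [if_neg h, if_neg]
      intro h1
      exact h (hv.inj h1).2
  · intro a' _ ha'
    rw [Finsupp.single_apply, if_neg]
    intro h1
    exact ha' (hv.inj h1).1
  · intro h; exact absurd (Finset.mem_univ _) h

lemma trv_apply_of_ne {k : ℕ} {β : Type*} {v : Fin k → β → σ} (α : Fin k → β) (w : σ)
    (hw : ∀ a b, v a b ≠ w) : trv v α w = 0 := by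
  classical
  unfold trv
  rw [Finsupp.finsetSum_apply]
  apply Finset.sum_eq_zero
  intro a _
  rw [Finsupp.single_apply, if_neg (hw _ _)]

lemma degree_trv {k : ℕ} {β : Type*} (v : Fin k → β → σ) (α : Fin k → β) :
    (trv v α).degree = k := by
  unfold trv
  rw [map_sum]
  simp

/-- first place where an injective map differs from the identity -/
lemma first_diff {k t : ℕ} (hkt : k ≤ t) (α : Fin k → Fin t) (hα : Function.Injective α)
    (hne : α ≠ Fin.castLE hkt) : ∃ a, (∀ b, b < a → α b = Fin.castLE hkt b) ∧
      Fin.castLE hkt a < α a := by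
  classical
  have hex : ∃ a, α a ≠ Fin.castLE hkt a := by
    by_contra hcon
    push Not at hcon
    exact hne (funext hcon)
  obtain ⟨a, ha, hmin⟩ := WellFounded.has_min (wellFounded_lt : WellFounded ((· < ·) : Fin k → Fin k → Prop))
    {a | α a ≠ Fin.castLE hkt a} hex
  have hlt : ∀ b, b < a → α b = Fin.castLE hkt b := by
    intro b hb
    by_contra hcon
    exact hmin b hcon hb
  refine ⟨a, hlt, ?_⟩
  rcases lt_trichotomy (α a) (Fin.castLE hkt a) with h | h | h
  · exfalso
    have h1 : (α a : ℕ) < a := h
    have h2 : α ⟨α a, by omega⟩ = Fin.castLE hkt ⟨α a, by omega⟩ := hlt _ (by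
      rw [Fin.lt_def]; exact h1)
    have h3 : Fin.castLE hkt ⟨α a, by omega⟩ = α a := by
      ext; simp
    rw [h3] at h2
    have h4 := hα h2
    have h5 := congrArg Fin.val h4
    simp only at h5
    omega
  · exact absurd h ha
  · exact h

/-- comparison of transversals -/
lemma trv_compare {k t : ℕ} (hkt : k ≤ t) {v : Fin k → Fin t → σ} (hv : RowMono v)
    (α : Fin k → Fin t) (hα : Function.Injective α) (hne : α ≠ Fin.castLE hkt) :
    ∃ x, (∀ w, w < x → trv v α w = trv v (Fin.castLE hkt) w) ∧
      trv v α x < trv v (Fin.castLE hkt) x ∧ ∃ a b, v a b = x := by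
  classical
  obtain ⟨a, h1, h2⟩ := first_diff hkt α hα hne
  refine ⟨v a (Fin.castLE hkt a), ?_, ?_, a, _, rfl⟩
  · intro w hw
    by_cases hr : ∃ a' b', v a' b' = w
    · obtain ⟨a', b', rfl⟩ := hr
      rw [trv_apply hv, trv_apply hv]
      rcases hv.lt hw with h3 | ⟨h3, h4⟩
      · rw [h1 a' h3]
      · subst h3
        rw [if_neg (by intro h5; subst h5; exact lt_asymm h2 h4), if_neg (by
          intro h5; subst h5; exact lt_irrefl _ h4)]
    · push Not at hr
      rw [trv_apply_of_ne _ _ hr, trv_apply_of_ne _ _ hr]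
  · rw [trv_apply hv, trv_apply hv, if_pos rfl, if_neg h2.ne']
    exact one_pos

lemma prod_X_eq {k : ℕ} {β : Type*} (v : Fin k → β → σ) (α : Fin k → β) :
    ∏ a, (X (v a (α a)) : MvPolynomial σ K) = monomial (trv v α) 1 := by
  unfold trv
  rw [monomial_sum_one]
  rfl

lemma det_rows {k : ℕ} {L : Type*} [CommRing L] (M : Matrix (Fin k) (Fin k) L) :
    M.det = ∑ s : Equiv.Perm (Fin k), ((Equiv.Perm.sign s : ℤ) : L) * ∏ a, M a (s a) := by
  rw [← det_transpose, det_apply']
  rfl

/-- L1: the leading monomial of a determinant of variables -/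
theorem det_var_lead {k : ℕ} (v : Fin k → Fin k → σ) (hv : RowMono v) :
    (MonomialOrder.degLex (σ := σ)).degree
      (det (fun a b => (X (v a b) : MvPolynomial σ K))) = ∑ a, Finsupp.single (v a a) 1 ∧
    (MonomialOrder.degLex (σ := σ)).Monic (det (fun a b => (X (v a b) : MvPolynomial σ K))) := by
  classical
  have h1 : det (fun a b => (X (v a b) : MvPolynomial σ K)) =
      ∑ s : Equiv.Perm (Fin k), monomial (trv v s) ((Equiv.Perm.sign s : ℤ) : K) := by
    rw [det_rows]
    apply Finset.sum_congr rfl
    intro s _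
    rw [prod_X_eq]
    have : (((Equiv.Perm.sign s : ℤ) : MvPolynomial σ K)) = C ((Equiv.Perm.sign s : ℤ) : K) := by
      simp
    rw [this, C_mul_monomial, mul_one]
  have h2 := lead_sum (K := K) (MonomialOrder.degLex (σ := σ))
    (fun s : Equiv.Perm (Fin k) => ((Equiv.Perm.sign s : ℤ) : K)) (fun s => trv v s) 1 (by simp) (by
      intro s hs _
      obtain ⟨x, hx1, hx2, _⟩ := trv_compare le_rfl hv (fun a => s a) s.injective (by
        intro h
        apply hs
        ext a
        have := congrFun h a
        rw [this]; rfl)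
      exact degLex_lt_of (by rw [degree_trv, degree_trv]) x hx1 hx2)
  rw [← h1] at h2
  exact h2

/-- a matrix of variables -/
noncomputable def vMat (K : Type*) [CommRing K] {α β : Type*} (v : α → β → σ) :
    Matrix α β (MvPolynomial σ K) := Matrix.of fun a b => X (v a b)

@[simp] lemma vMat_apply {α β : Type*} (v : α → β → σ) (a : α) (b : β) :
    vMat K v a b = X (v a b) := rfl

/-- L2: the leading monomial of a determinant of a product of matrices of variables. -/
theorem det_mul_lead {k t : ℕ} (hkt : k ≤ t) (y : Fin k → Fin t → σ) (z : Fin t → Fin k → σ)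
    (hy : RowMono y) (hz : RowMono z) (hyz : ∀ a j j' b, y a j < z j' b) :
    (MonomialOrder.degLex (σ := σ)).degree (det (vMat K y * vMat K z)) =
      ∑ a, Finsupp.single (y a (Fin.castLE hkt a)) 1 +
        ∑ a, Finsupp.single (z (Fin.castLE hkt a) a) 1 ∧
    (MonomialOrder.degLex (σ := σ)).Monic (det (vMat K y * vMat K z)) := by
  classical
  let c : (Fin k → Fin t) × Equiv.Perm (Fin k) → K := fun p =>
    if Function.Injective p.1 then ((Equiv.Perm.sign p.2 : ℤ) : K) else 0
  let e : (Fin k → Fin t) × Equiv.Perm (Fin k) → σ →₀ ℕ := fun p =>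
    trv y (fun a => p.1 (p.2 a)) + ∑ b, Finsupp.single (z (p.1 b) b) 1
  have h1 : det (vMat K y * vMat K z) = ∑ p, monomial (e p) (c p) := by
    rw [det_mul_expand, Fintype.sum_prod_type]
    apply Finset.sum_congr rfl
    intro φ _
    by_cases hφ : Function.Injective φ
    · rw [det_rows, Finset.mul_sum]
      apply Finset.sum_congr rfl
      intro s _
      have h2 : ∏ b, (X (z (φ b) b) : MvPolynomial σ K) =
          monomial (∑ b, Finsupp.single (z (φ b) b) 1) 1 := by
        rw [monomial_sum_one]; rfl
      have h3 : ∏ a, ((vMat K y).submatrix id φ) a (s a) = monomial (trv y (fun a => φ (s a))) 1 := by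
        rw [← prod_X_eq]; rfl
      rw [h3]
      change (∏ b, (X (z (φ b) b) : MvPolynomial σ K)) * _ = _
      rw [h2]
      have h4 : (((Equiv.Perm.sign s : ℤ) : MvPolynomial σ K)) = C ((Equiv.Perm.sign s : ℤ) : K) := by
        simp
      rw [h4, C_mul_monomial, monomial_mul, mul_one, one_mul]
      simp only [c, e, if_pos hφ]
      rw [add_comm]
    · have h2 : ∃ a b, a ≠ b ∧ φ a = φ b := by
        unfold Function.Injective at hφ
        push Not at hφ
        obtain ⟨a, b, h3, h4⟩ := hφ
        exact ⟨a, b, h4, h3⟩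
      obtain ⟨a, b, hab, h3⟩ := h2
      rw [det_zero_of_column_eq hab (by intro i; simp [h3]), mul_zero]
      symm
      apply Finset.sum_eq_zero
      intro s _
      simp only [c, if_neg hφ, map_zero]
  let i0 : (Fin k → Fin t) × Equiv.Perm (Fin k) := (Fin.castLE hkt, 1)
  have hzy : ∀ (w : σ) (φ : Fin k → Fin t), (∃ a j, y a j = w) →
      (∑ b, Finsupp.single (z (φ b) b) 1 : σ →₀ ℕ) w = 0 := by
    rintro w φ ⟨a, j, rfl⟩
    rw [Finsupp.finsetSum_apply]
    apply Finset.sum_eq_zero
    intro b _
    rw [Finsupp.single_apply, if_neg (hyz _ _ _ _).ne']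
  have hyw : ∀ (w : σ) (α : Fin k → Fin t), (∃ j b, z j b = w) → trv y α w = 0 := by
    rintro w α ⟨j, b, rfl⟩
    exact trv_apply_of_ne _ _ (fun a j' => (hyz _ _ _ _).ne)
  have h2 := lead_sum (K := K) (MonomialOrder.degLex (σ := σ)) c e i0 (by
      simp only [c, i0]
      rw [if_pos (Fin.castLE_injective hkt)]
      simp) (by
      rintro ⟨φ, s⟩ hs hc
      have hφ : Function.Injective φ := by
        by_contra hcon
        exact hc (by simp only [c, if_neg hcon])
      have hdeg : (e (φ, s)).degree = (e i0).degree := by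
        simp only [e, map_add, degree_trv, map_sum, Finsupp.degree_single]
      by_cases hα : (fun a => φ (s a)) = Fin.castLE hkt
      · -- compare the `z` part
        have hs1 : s ≠ 1 := by
          intro h
          apply hs
          subst h
          simp only [i0]
          congr 1
        have hφs : ∀ b, φ b = Fin.castLE hkt (s.symm b) := by
          intro b
          have := congrFun hα (s.symm b)
          simpa using this
        let z' : Fin k → Fin k → σ := fun j b => z (Fin.castLE hkt j) b
        have hz' : RowMono z' := by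
          intro a b a' b' h
          apply hz
          rcases h with h | ⟨h, h'⟩
          · left; exact h
          · right; exact ⟨by rw [h], h'⟩
        have hsumz : (∑ b, Finsupp.single (z (φ b) b) 1 : σ →₀ ℕ) = trv z' (fun j => s j) := by
          unfold trv
          rw [← Equiv.sum_comp s]
          apply Finset.sum_congr rfl
          intro j _
          rw [hφs]
          simp [z']
        have hsumz0 : (∑ b, Finsupp.single (z (Fin.castLE hkt b) b) 1 : σ →₀ ℕ) =
            trv z' (Fin.castLE le_rfl) := rfl
        obtain ⟨x, hx1, hx2, a, b, hx3⟩ := trv_compare le_rfl hz' (fun a => s a) s.injective (by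
          intro h
          apply hs1
          ext a
          have := congrFun h a
          rw [this]; rfl)
        have e1 : e (φ, s) = trv y (Fin.castLE hkt) + trv z' (fun j => s j) := by
          simp only [e]
          rw [hα, hsumz]
        have e2 : e i0 = trv y (Fin.castLE hkt) + trv z' (Fin.castLE le_rfl) := by
          simp only [e, i0]
          rw [hsumz0]
          rfl
        refine degLex_lt_of hdeg x ?_ ?_
        · intro w hw
          rw [e1, e2, Finsupp.add_apply, Finsupp.add_apply, hx1 w hw]
        · rw [e1, e2, Finsupp.add_apply, Finsupp.add_apply]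
          omega
      · obtain ⟨x, hx1, hx2, a, b, hx3⟩ := trv_compare hkt hy (fun a => φ (s a))
          (hφ.comp s.injective) hα
        have e2 : e i0 = trv y (Fin.castLE hkt) +
            (∑ b, Finsupp.single (z (Fin.castLE hkt b) b) 1 : σ →₀ ℕ) := by
          simp only [e, i0]
          rfl
        refine degLex_lt_of hdeg x ?_ ?_
        · intro w hw
          rw [e2]
          simp only [e]
          rw [Finsupp.add_apply, Finsupp.add_apply, hx1 w hw]
          congr 1
          have hwz : ∀ (j : Fin t) (b : Fin k), z j b ≠ w := by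
            intro j b' h
            subst hx3 h
            exact lt_asymm hw (hyz _ _ _ _)
          rw [Finsupp.finsetSum_apply, Finsupp.finsetSum_apply, Finset.sum_eq_zero,
            Finset.sum_eq_zero]
          · intro b' _
            rw [Finsupp.single_apply, if_neg (hwz _ _)]
          · intro b' _
            rw [Finsupp.single_apply, if_neg (hwz _ _)]
        · rw [e2]
          simp only [e]
          rw [Finsupp.add_apply, Finsupp.add_apply, hzy x φ ⟨a, b, hx3⟩,
            hzy x (Fin.castLE hkt) ⟨a, b, hx3⟩]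
          omega)
  rw [← h1] at h2
  exact h2

end

end Pool.Agent.J6H94.SymbVC
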