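import Mathlib
import Pool.Agent.J6H94.SymbVC.Lead
import Pool.Agent.J6H94.SymbVC.Count
import Pool.Agent.J6H94.SymbVC.IdealC

/-! Construction of the element with squarefree leading monomial. -/

set_option linter.unusedSectionVars false
set_option linter.unusedSimpArgs false

namespace Pool.Agent.J6H94.SymbVC

open Matrix MvPolynomial

section VRlemmas

variable {σ K : Type*} [Field K] {h : ℕ} {a : ℕ → Ideal (MvPolynomial σ K)} (m : MonomialOrder σ)

lemma SymbFilt.VR_add (F : SymbFilt h a) {e1 e2 : σ →₀ ℕ} {k1 k2 : ℕ} (h1 : VR m a e1 k1)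
    (h2 : VR m a e2 k2) : VR m a (e1 + e2) (k1 + k2) := by
  obtain ⟨f, hf1, hf2, hf3⟩ := h1
  obtain ⟨g, hg1, hg2, hg3⟩ := h2
  have := monic_mul_deg m hf2 hg2
  exact ⟨f * g, F.mul hf1 hg1, this.1, by rw [this.2, hf3, hg3]⟩

lemma SymbFilt.VR_zero (F : SymbFilt h a) : VR m a 0 0 :=
  ⟨1, by rw [F.zero]; trivial, by simp, by simp⟩

lemma SymbFilt.VR_sum (F : SymbFilt h a) {ι : Type*} (s : Finset ι) (e : ι → σ →₀ ℕ) (k : ι → ℕ)
    (H : ∀ i ∈ s, VR m a (e i) (k i)) : VR m a (∑ i ∈ s, e i) (∑ i ∈ s, k i) := by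
  classical
  induction s using Finset.induction_on with
  | empty => simpa using F.VR_zero m
  | insert i s hi ih =>
    rw [Finset.sum_insert hi, Finset.sum_insert hi]
    exact F.VR_add m (H i (Finset.mem_insert_self _ _)) (ih fun j hj => H j (Finset.mem_insert_of_mem hj))

end VRlemmas

section Ord

variable {R A Q T N : Type*} {M t Nn : ℕ}
variable (ρ : R ⊕ A ≃ Fin M) (κ : R ⊕ (Q ⊕ T) ≃ Fin t) (γ : N ⊕ T ≃ Fin Nn)

/-- sort key -/
def key : VarT R A Q T N → (Fin M ×ₗ Fin t) ⊕ₗ (Fin t ×ₗ Fin Nn)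
  | Sum.inl (i, j) => toLex (Sum.inl (toLex (ρ i, κ j)))
  | Sum.inr (j, c) => toLex (Sum.inr (toLex (κ j, γ c)))

lemma key_inj : Function.Injective (key ρ κ γ) := by
  rintro (⟨i, j⟩ | ⟨i, j⟩) (⟨i', j'⟩ | ⟨i', j'⟩) h
  · simp only [key, EmbeddingLike.apply_eq_iff_eq, Sum.inl.injEq, Prod.mk.injEq] at h
    rw [h.1, h.2]
  · simp [key] at h
  · simp [key] at h
  · simp only [key, EmbeddingLike.apply_eq_iff_eq, Sum.inr.injEq, Prod.mk.injEq] at h
    rw [h.1, h.2]

/-- the order on variables -/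
@[reducible] noncomputable def ordV : LinearOrder (VarT R A Q T N) :=
  LinearOrder.lift' (key ρ κ γ) (key_inj ρ κ γ)

lemma ordV_wf [Finite R] [Finite A] [Finite Q] [Finite T] [Finite N] :
    @WellFoundedGT (VarT R A Q T N) (ordV ρ κ γ).toLT :=
  @Finite.to_wellFoundedGT (VarT R A Q T N) _ (ordV ρ κ γ).toPreorder

/-- the monomial order -/
noncomputable def mo [Finite R] [Finite A] [Finite Q] [Finite T] [Finite N] :
    MonomialOrder (VarT R A Q T N) :=
  @MonomialOrder.degLex (VarT R A Q T N) (ordV ρ κ γ) (ordV_wf ρ κ γ)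

/-- variables -/
def yv (i : Fin M) (j : Fin t) : VarT R A Q T N := Sum.inl (ρ.symm i, κ.symm j)
def zv (j : Fin t) (c : Fin Nn) : VarT R A Q T N := Sum.inr (κ.symm j, γ.symm c)

lemma yv_mono {k l : ℕ} (f : Fin k → Fin M) (g : Fin l → Fin t) (hf : StrictMono f)
    (hg : StrictMono g) :
    letI := ordV ρ κ γ
    RowMono (fun a b => (yv (N := N) ρ κ (f a) (g b) : VarT R A Q T N)) := by
  intro a b a' b' hab
  change key ρ κ γ _ < key ρ κ γ _
  simp only [key, yv]
  rw [Sum.Lex.inl_lt_inl_iff, Prod.Lex.toLex_lt_toLex]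
  simp only [Equiv.apply_symm_apply]
  rcases hab with h | ⟨h1, h2⟩
  · left; exact hf h
  · right; exact ⟨by rw [h1], hg h2⟩

lemma zv_mono {k l : ℕ} (f : Fin k → Fin t) (g : Fin l → Fin Nn) (hf : StrictMono f)
    (hg : StrictMono g) :
    letI := ordV ρ κ γ
    RowMono (fun a b => (zv (A := A) κ γ (f a) (g b) : VarT R A Q T N)) := by
  intro a b a' b' hab
  change key ρ κ γ _ < key ρ κ γ _
  simp only [key, zv]
  rw [Sum.Lex.inr_lt_inr_iff, Prod.Lex.toLex_lt_toLex]
  simp only [Equiv.apply_symm_apply]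
  rcases hab with h | ⟨h1, h2⟩
  · left; exact hf h
  · right; exact ⟨by rw [h1], hg h2⟩

lemma yv_lt_zv (i : Fin M) (j j' : Fin t) (c : Fin Nn) :
    letI := ordV ρ κ γ
    (yv ρ κ i j : VarT R A Q T N) < zv κ γ j' c := by
  change key ρ κ γ _ < key ρ κ γ _
  simp only [key, yv, zv]
  exact Sum.Lex.inl_lt_inr _ _

end Ord

section Main

variable {R A Q T N : Type*}
variable [Fintype R] [Fintype A] [Fintype Q] [Fintype T] [Fintype N]
  [DecidableEq R] [DecidableEq A] [DecidableEq Q] [DecidableEq T] [DecidableEq N]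
variable {M t Nn : ℕ}
variable (ρ : R ⊕ A ≃ Fin M) (κ : R ⊕ (Q ⊕ T) ≃ Fin t) (γ : N ⊕ T ≃ Fin Nn)
variable (K : Type*) [Field K]

/-- monomials with natural number indices -/
noncomputable def eY (i j : ℕ) : VarT R A Q T N →₀ ℕ :=
  if h : i < M ∧ j < t then Finsupp.single (yv ρ κ ⟨i, h.1⟩ ⟨j, h.2⟩) 1 else 0

noncomputable def eZ (j c : ℕ) : VarT R A Q T N →₀ ℕ :=
  if h : j < t ∧ c < Nn then Finsupp.single (zv κ γ ⟨j, h.1⟩ ⟨c, h.2⟩) 1 else 0

/-- minors of `Y` -/
lemma VR_Y (l i0 j0 : ℕ) (hi : i0 + l ≤ M) (hj : j0 + l ≤ t) :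
    VR (mo ρ κ γ) (fil K) (∑ a ∈ Finset.range l, eY (N := N) ρ κ (i0 + a) (j0 + a))
      (l - Fintype.card R) := by
  letI := ordV ρ κ γ
  haveI := ordV_wf ρ κ γ
  let f : Fin l → Fin M := fun a => ⟨i0 + a, by omega⟩
  let g : Fin l → Fin t := fun a => ⟨j0 + a, by omega⟩
  have hf : StrictMono f := by
    intro a b hab
    rw [Fin.lt_def] at hab ⊢
    simp only [f]; omega
  have hg : StrictMono g := by
    intro a b hab
    rw [Fin.lt_def] at hab ⊢
    simp only [g]; omega
  have h1 := det_var_lead (K := K) _ (yv_mono (N := N) ρ κ γ f g hf hg)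
  refine ⟨_, ?_, h1.2, ?_⟩
  · have h2 := minorY_fil (R := R) (A := A) (Q := Q) (T := T) (N := N) K
      (fun a : Fin l => ρ.symm (f a)) (fun b => κ.symm (g b))
    rw [Fintype.card_fin] at h2
    exact h2
  · refine h1.1.trans ?_
    rw [← Fin.sum_univ_eq_sum_range (fun a => eY (N := N) ρ κ (i0 + a) (j0 + a)) l]
    apply Finset.sum_congr rfl
    intro a _
    unfold eY
    rw [dif_pos ⟨by omega, by omega⟩]

lemma VR_Z (l i0 j0 : ℕ) (hi : i0 + l ≤ t) (hj : j0 + l ≤ Nn) :
    VR (mo ρ κ γ) (fil K) (∑ a ∈ Finset.range l, eZ (A := A) κ γ (i0 + a) (j0 + a))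
      (l - Fintype.card T) := by
  letI := ordV ρ κ γ
  haveI := ordV_wf ρ κ γ
  let f : Fin l → Fin t := fun a => ⟨i0 + a, by omega⟩
  let g : Fin l → Fin Nn := fun a => ⟨j0 + a, by omega⟩
  have hf : StrictMono f := by
    intro a b hab
    rw [Fin.lt_def] at hab ⊢
    simp only [f]; omega
  have hg : StrictMono g := by
    intro a b hab
    rw [Fin.lt_def] at hab ⊢
    simp only [g]; omega
  have h1 := det_var_lead (K := K) _ (zv_mono (A := A) ρ κ γ f g hf hg)
  refine ⟨_, ?_, h1.2, ?_⟩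
  · have h2 := minorZ_fil (R := R) (A := A) (Q := Q) (T := T) (N := N) K
      (fun a : Fin l => κ.symm (f a)) (fun b => γ.symm (g b))
    rw [Fintype.card_fin] at h2
    exact h2
  · refine h1.1.trans ?_
    rw [← Fin.sum_univ_eq_sum_range (fun a => eZ (A := A) κ γ (i0 + a) (j0 + a)) l]
    apply Finset.sum_congr rfl
    intro a _
    unfold eZ
    rw [dif_pos ⟨by omega, by omega⟩]

lemma VR_YZ (k : ℕ) (hk : k ≤ t) (hM : t ≤ M) (hN : t ≤ Nn) :
    VR (mo ρ κ γ) (fil K) (∑ a ∈ Finset.range k, eY (N := N) ρ κ (M - k + a) a +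
      ∑ a ∈ Finset.range k, eZ (A := A) κ γ a (Nn - k + a))
      (max k (2 * k - (Fintype.card R + Fintype.card T))) := by
  letI := ordV ρ κ γ
  haveI := ordV_wf ρ κ γ
  let f : Fin k → Fin M := fun a => ⟨M - k + a, by omega⟩
  let g : Fin k → Fin Nn := fun a => ⟨Nn - k + a, by omega⟩
  have hf : StrictMono f := by
    intro a b hab
    rw [Fin.lt_def] at hab ⊢
    simp only [f]; omega
  have hg : StrictMono g := by
    intro a b hab
    rw [Fin.lt_def] at hab ⊢
    simp only [g]; omega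
  have h1 := det_mul_lead (K := K) hk _ _ (yv_mono (N := N) ρ κ γ f (id : Fin t → Fin t) hf strictMono_id)
    (zv_mono (A := A) ρ κ γ (id : Fin t → Fin t) g strictMono_id hg)
    (fun a j j' b => yv_lt_zv ρ κ γ _ _ _ _)
  refine ⟨_, ?_, h1.2, ?_⟩
  · have h2 := minorYZ_fil (R := R) (A := A) (Q := Q) (T := T) (N := N) K
      (fun a : Fin k => ρ.symm (f a)) (fun b => γ.symm (g b))
    rw [Fintype.card_fin, ← submatrix_mul_equiv _ _ _ κ.symm] at h2
    exact h2
  · refine h1.1.trans ?_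
    rw [← Fin.sum_univ_eq_sum_range (fun a => eY (N := N) ρ κ (M - k + a) a) k,
      ← Fin.sum_univ_eq_sum_range (fun a => eZ (A := A) κ γ a (Nn - k + a)) k]
    congr 1
    · apply Finset.sum_congr rfl
      intro a _
      unfold eY
      rw [dif_pos ⟨by omega, by omega⟩]
      rfl
    · apply Finset.sum_congr rfl
      intro a _
      unfold eZ
      rw [dif_pos ⟨by omega, by omega⟩]
      rfl

lemma ones_eq : ones (VarT R A Q T N) = ∑ j ∈ Finset.range t, ∑ i ∈ Finset.range M, eY ρ κ i j +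
    ∑ j ∈ Finset.range t, ∑ c ∈ Finset.range Nn, eZ κ γ j c := by
  have h1 : ones (VarT R A Q T N) = ∑ v, Finsupp.single v 1 := by
    ext v
    rw [Finsupp.finsetSum_apply, Finset.sum_eq_single v]
    · simp
    · intro w _ hw
      rw [Finsupp.single_apply, if_neg hw]
    · intro h; exact absurd (Finset.mem_univ _) h
  rw [h1, Fintype.sum_sum_type, Fintype.sum_prod_type, Fintype.sum_prod_type]
  congr 1
  · rw [Finset.sum_comm, ← Equiv.sum_comp κ.symm,
      ← Fin.sum_univ_eq_sum_range (fun j => ∑ i ∈ Finset.range M, eY ρ κ i j) t]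
    apply Finset.sum_congr rfl
    intro j _
    rw [← Equiv.sum_comp ρ.symm, ← Fin.sum_univ_eq_sum_range (fun i => eY ρ κ i j) M]
    apply Finset.sum_congr rfl
    intro i _
    unfold eY
    rw [dif_pos ⟨i.2, j.2⟩]
    rfl
  · rw [← Equiv.sum_comp κ.symm,
      ← Fin.sum_univ_eq_sum_range (fun j => ∑ c ∈ Finset.range Nn, eZ κ γ j c) t]
    apply Finset.sum_congr rfl
    intro j _
    rw [← Equiv.sum_comp γ.symm, ← Fin.sum_univ_eq_sum_range (fun c => eZ κ γ j c) Nn]
    apply Finset.sum_congr rfl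
    intro i _
    unfold eZ
    rw [dif_pos ⟨j.2, i.2⟩]
    rfl

lemma card_isJ : hh R A Q T N = Fintype.card A * (Fintype.card Q + Fintype.card T) +
    (Fintype.card R * Fintype.card N + Fintype.card R * Fintype.card T) +
      Fintype.card Q * Fintype.card N := by
  classical
  let e : {v : VarT R A Q T N // isJ v = true} ≃
      ((A × (Q ⊕ T)) ⊕ ((R × N) ⊕ (R × T))) ⊕ (Q × N) :=
    { toFun := fun v => match v with
        | ⟨Sum.inl (Sum.inr i, Sum.inr j), _⟩ => Sum.inl (Sum.inl (i, j))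
        | ⟨Sum.inr (Sum.inl i, Sum.inl j), _⟩ => Sum.inl (Sum.inr (Sum.inl (i, j)))
        | ⟨Sum.inr (Sum.inl i, Sum.inr j), _⟩ => Sum.inl (Sum.inr (Sum.inr (i, j)))
        | ⟨Sum.inr (Sum.inr (Sum.inl i), Sum.inl j), _⟩ => Sum.inr (i, j)
      invFun := fun w => match w with
        | Sum.inl (Sum.inl (i, j)) => ⟨Sum.inl (Sum.inr i, Sum.inr j), rfl⟩
        | Sum.inl (Sum.inr (Sum.inl (i, j))) => ⟨Sum.inr (Sum.inl i, Sum.inl j), rfl⟩
        | Sum.inl (Sum.inr (Sum.inr (i, j))) => ⟨Sum.inr (Sum.inl i, Sum.inr j), rfl⟩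
        | Sum.inr (i, j) => ⟨Sum.inr (Sum.inr (Sum.inl i), Sum.inl j), rfl⟩
      left_inv := by
        rintro ⟨⟨i | i, j | j⟩ | ⟨i | i | i, j | j⟩, h⟩
        all_goals first | rfl | (simp [isJ] at h)
      right_inv := by
        rintro ((⟨i, j⟩ | (⟨i, j⟩ | ⟨i, j⟩)) | ⟨i, j⟩) <;> rfl }
  rw [hh, Fintype.card_congr e]
  simp

/-- the main construction -/
theorem VR_main (a' n' : ℕ) (hA : Fintype.card A = Fintype.card Q + Fintype.card T + a')
    (hN : Fintype.card N = Fintype.card R + Fintype.card Q + n') :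
    VR (mo ρ κ γ) (fil K : ℕ → Ideal (MvPolynomial (VarT R A Q T N) K)) (ones _)
      (hh R A Q T N) := by
  have hMc : M = Fintype.card R + Fintype.card A := by
    have := Fintype.card_congr ρ
    simpa using this.symm
  have htc : t = Fintype.card R + (Fintype.card Q + Fintype.card T) := by
    have := Fintype.card_congr κ
    simpa using this.symm
  have hNc : Nn = Fintype.card N + Fintype.card T := by
    have := Fintype.card_congr γ
    simpa using this.symm
  have hMt : t ≤ M := by omega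
  have hNt : t ≤ Nn := by omega
  have F := fil_symbFilt (R := R) (A := A) (Q := Q) (T := T) (N := N) K
  have h1 := F.VR_sum (mo ρ κ γ) (Finset.range t) _ _ (fun j0 hj0 =>
    VR_Y ρ κ γ K (t - j0) 0 j0 (by have := Finset.mem_range.mp hj0; omega)
      (by have := Finset.mem_range.mp hj0; omega))
  have h2 := F.VR_sum (mo ρ κ γ) (Finset.range (M - t)) _ _ (fun i0 hi0 =>
    VR_Y ρ κ γ K t (i0 + 1) 0 (by have := Finset.mem_range.mp hi0; omega) (by omega))
  have h3 := F.VR_sum (mo ρ κ γ) (Finset.range t) _ _ (fun j0 hj0 =>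
    VR_Z ρ κ γ K (t - j0) j0 0 (by have := Finset.mem_range.mp hj0; omega)
      (by have := Finset.mem_range.mp hj0; omega))
  have h4 := F.VR_sum (mo ρ κ γ) (Finset.range (Nn - t)) _ _ (fun i0 hi0 =>
    VR_Z ρ κ γ K t 0 (i0 + 1) (by omega) (by have := Finset.mem_range.mp hi0; omega))
  have h5 := F.VR_sum (mo ρ κ γ) (Finset.range t) _ _ (fun k hk =>
    VR_YZ ρ κ γ K k (by have := Finset.mem_range.mp hk; omega) hMt hNt)
  have h6 := F.VR_add _ (F.VR_add _ (F.VR_add _ h1 h2) (F.VR_add _ h3 h4)) h5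
  have e1 := diag_sum (fun i j => eY (R := R) (A := A) (Q := Q) (T := T) (N := N) ρ κ i j) t M hMt
  have e2 := diag_sum (fun c j => eZ (R := R) (A := A) (Q := Q) (T := T) (N := N) κ γ j c) t Nn hNt
  have hone := ones_eq (R := R) (A := A) (Q := Q) (T := T) (N := N) ρ κ γ
  rw [← e1, ← e2] at hone
  have hcount := order_count (Fintype.card R) (Fintype.card T) (Fintype.card Q) a' n'
  rw [← htc] at hcount
  have hMt' : M - t = a' := by omega
  have hNt' : Nn - t = n' := by omega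
  have e3 : t - Fintype.card R = Fintype.card Q + Fintype.card T := by omega
  have e4 : t - Fintype.card T = Fintype.card R + Fintype.card Q := by omega
  have hcard := card_isJ (R := R) (A := A) (Q := Q) (T := T) (N := N)
  convert h6 using 1
  · rw [hone, Finset.sum_add_distrib]
    simp only [zero_add, add_zero]
    abel
  · simp only [Finset.sum_const, Finset.card_range, smul_eq_mul, e3, e4, hMt', hNt']
    rw [hcount, hcard, hA, hN]
    ring

end Main

end Pool.Agent.J6H94.SymbVC
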