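import Mathlib
import Pool.Agent.J6H94.SymbVC.Const

/-! Transfer of the value relation to characteristic zero. -/

set_option linter.unusedSectionVars false
set_option linter.unusedSimpArgs false

namespace Pool.Agent.J6H94.SymbVC

open Matrix MvPolynomial

/-- dichotomy for integral linear systems -/
theorem lin_dich {B J : Type*} [Fintype B] [Fintype J] [DecidableEq J] (w : B → J → ℤ)
    (u : J → ℤ) :
    (∃ D : ℤ, D ≠ 0 ∧ ∃ c : B → ℤ, ∀ j, D * u j + ∑ b, c b * w b j = 0) ∨
      (∃ l : J → ℤ, (∀ b, ∑ j, l j * w b j = 0) ∧ ∑ j, l j * u j ≠ 0) := by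
  classical
  let W : B → (J → ℚ) := fun b j => (w b j : ℚ)
  let U : J → ℚ := fun j => (u j : ℚ)
  by_cases hU : U ∈ Submodule.span ℚ (Set.range W)
  · left
    rw [Submodule.mem_span_range_iff_exists_fun] at hU
    obtain ⟨c, hc⟩ := hU
    obtain ⟨⟨D, hD⟩, hD2⟩ := IsLocalization.exist_integer_multiples_of_finite (nonZeroDivisors ℤ)
      (S := ℚ) c
    choose c' hc' using hD2
    refine ⟨D, nonZeroDivisors.ne_zero hD, fun b => - c' b, fun j => ?_⟩
    have h1 := congrFun hc j
    simp only [Finset.sum_apply, Pi.smul_apply, smul_eq_mul, W, U] at h1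
    have h2 : ((D * u j + ∑ b, (- c' b) * w b j : ℤ) : ℚ) = 0 := by
      push_cast
      rw [← h1, Finset.mul_sum, ← Finset.sum_add_distrib]
      apply Finset.sum_eq_zero
      intro b _
      have h3 := hc' b
      simp only [eq_intCast, zsmul_eq_mul] at h3
      rw [h3]
      ring
    exact_mod_cast h2
  · right
    obtain ⟨f, hf1, hf2⟩ := Submodule.exists_dual_map_eq_bot_of_notMem hU inferInstance
    have hf : ∀ v : J → ℚ, f v = ∑ j, f (Pi.single j 1) * v j := by
      intro v
      conv_lhs => rw [← Finset.univ_sum_single v, map_sum]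
      apply Finset.sum_congr rfl
      intro j _
      have : (Pi.single j (v j) : J → ℚ) = v j • Pi.single j 1 := by
        rw [← Pi.single_smul]; simp
      rw [this, map_smul, smul_eq_mul, mul_comm]
    obtain ⟨⟨D, hD⟩, hD2⟩ := IsLocalization.exist_integer_multiples_of_finite (nonZeroDivisors ℤ)
      (S := ℚ) (fun j => f (Pi.single j 1))
    choose c' hc' using hD2
    have hc : ∀ j, (c' j : ℚ) = D * f (Pi.single j 1) := by
      intro j
      have h3 := hc' j
      simp only [eq_intCast, zsmul_eq_mul] at h3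
      exact h3
    refine ⟨c', ?_, ?_⟩
    · intro b
      have h1 : f (W b) = 0 := by
        have h2 : f (W b) ∈ Submodule.map f (Submodule.span ℚ (Set.range W)) :=
          Submodule.mem_map_of_mem (Submodule.subset_span ⟨b, rfl⟩)
        rw [hf2] at h2
        exact (Submodule.mem_bot ℚ).mp h2
      rw [hf] at h1
      have h2 : ((∑ j, c' j * w b j : ℤ) : ℚ) = 0 := by
        push_cast
        have : ∑ j, (c' j : ℚ) * w b j = D * ∑ j, f (Pi.single j 1) * W b j := by
          rw [Finset.mul_sum]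
          apply Finset.sum_congr rfl
          intro j _
          rw [hc]
          simp only [W]
          ring
        rw [this, h1, mul_zero]
      exact_mod_cast h2
    · intro h0
      apply hf1
      rw [hf]
      have h2 : ((∑ j, c' j * u j : ℤ) : ℚ) = 0 := by rw [h0]; simp
      push_cast at h2
      have : ∑ j, (c' j : ℚ) * u j = D * ∑ j, f (Pi.single j 1) * U j := by
        rw [Finset.mul_sum]
        apply Finset.sum_congr rfl
        intro j _
        rw [hc]
        simp only [U]
        ring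
      rw [this] at h2
      rcases mul_eq_zero.mp h2 with h3 | h3
      · exfalso
        have : D = 0 := by exact_mod_cast h3
        exact nonZeroDivisors.ne_zero hD this
      · exact h3

section

variable {R A Q T N : Type*}
variable [Fintype R] [Fintype A] [Fintype Q] [Fintype T] [Fintype N]
  [DecidableEq R] [DecidableEq A] [DecidableEq Q] [DecidableEq T] [DecidableEq N]

lemma Th_map {k k' : Type*} [CommRing k] [CommRing k'] (φ : k →+* k')
    (g : MvPolynomial (VarT R A Q T N) k) :
    Th R A Q T N k' (MvPolynomial.map φ g) =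
      Polynomial.map (MvPolynomial.map φ) (Th R A Q T N k g) := by
  have : (Th R A Q T N k').toRingHom.comp (MvPolynomial.map φ) =
      (Polynomial.mapRingHom (MvPolynomial.map φ)).comp (Th R A Q T N k).toRingHom := by
    apply MvPolynomial.ringHom_ext
    · intro a
      change Th R A Q T N k' (MvPolynomial.map φ (C a)) =
        Polynomial.map (MvPolynomial.map φ) (Th R A Q T N k (C a))
      rw [map_C]
      have h1 : ∀ (k : Type _) [CommRing k] (a : k), Th R A Q T N k (C a) =
          Polynomial.C (C a) := by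
        intro k _ a
        exact (Th R A Q T N k).commutes a
      have h1' : ∀ (k : Type _) [CommRing k] (a : k), Th R A Q T N k (C a) =
          Polynomial.C (C a) := by
        intro k _ a
        exact (Th R A Q T N k).commutes a
      rw [h1, h1', Polynomial.map_C, map_C]
    · intro v
      change Th R A Q T N k' (MvPolynomial.map φ (X v)) =
        Polynomial.map (MvPolynomial.map φ) (Th R A Q T N k (X v))
      rw [map_X, Th, aeval_X, Th, aeval_X]
      have h2 := map_pt (Polynomial.mapRingHom (MvPolynomial.map φ))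
        (fun v => (Polynomial.C (X v) : Polynomial (MvPolynomial (VarT R A Q T N) k)))
        Polynomial.X v
      rw [Polynomial.coe_mapRingHom] at h2
      rw [h2]
      simp only [Polynomial.map_C, map_X, Polynomial.map_X]
  exact congrArg (fun f => f g) this

/-- integral structure coefficients -/
noncomputable def Wc (b : VarT R A Q T N →₀ ℕ) (q : ℕ × (VarT R A Q T N →₀ ℕ)) : ℤ :=
  coeff q.2 ((Th R A Q T N ℤ (monomial b 1)).coeff q.1)

lemma Wc_cast (k : Type*) [CommRing k] (b : VarT R A Q T N →₀ ℕ)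
    (q : ℕ × (VarT R A Q T N →₀ ℕ)) :
    coeff q.2 ((Th R A Q T N k (monomial b 1)).coeff q.1) = (Wc b q : k) := by
  have h1 := Th_map (R := R) (A := A) (Q := Q) (T := T) (N := N) (Int.castRingHom k) (monomial b 1)
  rw [map_monomial, map_one] at h1
  rw [h1, Polynomial.coeff_map, coeff_map]
  rfl

lemma Th_coeff (k : Type*) [CommRing k] (g : MvPolynomial (VarT R A Q T N) k)
    (s : Finset (VarT R A Q T N →₀ ℕ)) (hs : g.support ⊆ s)
    (q : ℕ × (VarT R A Q T N →₀ ℕ)) :
    coeff q.2 ((Th R A Q T N k g).coeff q.1) = ∑ b ∈ s, coeff b g * (Wc b q : k) := by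
  have h0 : g = ∑ b ∈ s, coeff b g • monomial b 1 := by
    conv_lhs => rw [g.as_sum]
    rw [← Finset.sum_subset hs]
    · apply Finset.sum_congr rfl
      intro b _
      rw [smul_monomial, smul_eq_mul, mul_one]
    · intro b _ hb
      rw [notMem_support_iff.mp hb, zero_smul]
  conv_lhs => rw [h0, map_sum]
  rw [Polynomial.finsetSum_coeff, coeff_sum]
  apply Finset.sum_congr rfl
  intro b _
  rw [map_smul, Polynomial.coeff_smul, coeff_smul, Wc_cast, smul_eq_mul]

lemma mem_fil_iff (k : Type*) [CommRing k] (n : ℕ) (g : MvPolynomial (VarT R A Q T N) k)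
    (s : Finset (VarT R A Q T N →₀ ℕ)) (hs : g.support ⊆ s) :
    g ∈ fil k n ↔ ∀ q : ℕ × (VarT R A Q T N →₀ ℕ), q.1 < n →
      ∑ b ∈ s, coeff b g * (Wc b q : k) = 0 := by
  rw [mem_fil, Polynomial.X_pow_dvd_iff]
  constructor
  · intro h q hq
    rw [← Th_coeff k g s hs q, h _ hq, coeff_zero]
  · intro h i hi
    ext μ
    rw [coeff_zero]
    rw [← h (i, μ) hi, ← Th_coeff k g s hs (i, μ)]

variable (m : MonomialOrder (VarT R A Q T N))

/-- the positive alternative -/
def IntPos (e : VarT R A Q T N →₀ ℕ) (n : ℕ) (G : MvPolynomial (VarT R A Q T N) ℤ) : Prop :=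
  G ∈ fil ℤ n ∧ coeff e G ≠ 0 ∧ ∀ b, m.toSyn e < m.toSyn b → coeff b G = 0

/-- the negative alternative -/
def IntNeg (e : VarT R A Q T N →₀ ℕ) (n : ℕ)
    (J : Finset (ℕ × (VarT R A Q T N →₀ ℕ))) (l : ℕ × (VarT R A Q T N →₀ ℕ) → ℤ) : Prop :=
  (∀ q ∈ J, q.1 < n) ∧ (∀ b, m.toSyn b < m.toSyn e → ∑ q ∈ J, l q * Wc b q = 0) ∧
    ∑ q ∈ J, l q * Wc e q ≠ 0

lemma IntPos.vr {e : VarT R A Q T N →₀ ℕ} {n : ℕ} {G : MvPolynomial (VarT R A Q T N) ℤ}
    (hG : IntPos m e n G) (K : Type*) [Field K] (hK : ((coeff e G : ℤ) : K) ≠ 0) :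
    VR m (fil K) e n := by
  obtain ⟨h1, h2, h3⟩ := hG
  set g := C (((coeff e G : ℤ) : K)⁻¹) * MvPolynomial.map (Int.castRingHom K) G with hg
  have h4 : coeff e g = 1 := by
    rw [hg, coeff_C_mul, coeff_map]
    simp only [eq_intCast]
    exact inv_mul_cancel₀ hK
  have h5 : ∀ b, m.toSyn e < m.toSyn b → coeff b g = 0 := by
    intro b hb
    rw [hg, coeff_C_mul, coeff_map, h3 b hb, map_zero, mul_zero]
  have h6 := lead_of_coeff h4 h5
  refine ⟨g, ?_, h6.2, h6.1⟩
  rw [hg]
  apply Ideal.mul_mem_left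
  rw [mem_fil] at h1 ⊢
  rw [Th_map]
  have h7 := Polynomial.map_dvd (MvPolynomial.map (Int.castRingHom K)) h1
  rw [Polynomial.map_pow, Polynomial.map_X] at h7
  exact h7

lemma IntNeg.not_vr {e : VarT R A Q T N →₀ ℕ} {n : ℕ}
    {J : Finset (ℕ × (VarT R A Q T N →₀ ℕ))} {l : ℕ × (VarT R A Q T N →₀ ℕ) → ℤ}
    (hl : IntNeg m e n J l) (K : Type*) [Field K]
    (hK : ((∑ q ∈ J, l q * Wc e q : ℤ) : K) ≠ 0) :
    ¬ VR m (fil K) e n := by
  classical
  rintro ⟨g, hg1, hg2, hg3⟩
  obtain ⟨h1, h2, h3⟩ := hl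
  apply hK
  have hg4 := (mem_fil_iff K n g g.support (Finset.Subset.refl _)).mp hg1
  -- apply the functional
  have h4 : ∑ q ∈ J, (l q : K) * ∑ b ∈ g.support, coeff b g * (Wc b q : K) = 0 := by
    apply Finset.sum_eq_zero
    intro q hq
    rw [hg4 q (h1 q hq), mul_zero]
  have h5 : ∑ q ∈ J, (l q : K) * ∑ b ∈ g.support, coeff b g * (Wc b q : K) =
      ∑ b ∈ g.support, coeff b g * ((∑ q ∈ J, l q * Wc b q : ℤ) : K) := by
    simp only [Finset.mul_sum, Int.cast_sum, Int.cast_mul]
    rw [Finset.sum_comm]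
    apply Finset.sum_congr rfl
    intro b _
    apply Finset.sum_congr rfl
    intro q _
    ring
  rw [h5, Finset.sum_eq_single e] at h4
  · have h6 : coeff e g = 1 := by rw [← hg3]; exact hg2
    rwa [h6, one_mul] at h4
  · intro b hb hbe
    have hle := m.le_degree hb
    rw [hg3] at hle
    have hlt : m.toSyn b < m.toSyn e := lt_of_le_of_ne hle (fun h => hbe (m.toSyn.injective h))
    rw [h2 b hlt]
    simp
  · intro he
    have h6 : coeff e g = 1 := by rw [← hg3]; exact hg2
    rw [notMem_support_iff.mp he] at h6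
    exact absurd h6 zero_ne_one

theorem int_dich (hfin : ∀ e, {b | m.toSyn b < m.toSyn e}.Finite)
    (e : VarT R A Q T N →₀ ℕ) (n : ℕ) :
    (∃ G, IntPos m e n G) ∨ (∃ J l, IntNeg m e n J l) := by
  classical
  set B := (hfin e).toFinset with hB
  have hBmem : ∀ b, b ∈ B ↔ m.toSyn b < m.toSyn e := by
    intro b; rw [hB, Set.Finite.mem_toFinset]; rfl
  -- finite set of relevant equations
  let J : Finset (ℕ × (VarT R A Q T N →₀ ℕ)) := (insert e B).biUnion fun b =>
    (Finset.range n).biUnion fun i => ((Th R A Q T N ℤ (monomial b 1)).coeff i).support.image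
      fun μ => (i, μ)
  have hJ1 : ∀ q ∈ J, q.1 < n := by
    intro q hq
    simp only [J, Finset.mem_biUnion, Finset.mem_range, Finset.mem_image] at hq
    obtain ⟨b, _, i, hi, μ, _, rfl⟩ := hq
    exact hi
  have hJ2 : ∀ b ∈ insert e B, ∀ q : ℕ × (VarT R A Q T N →₀ ℕ), q.1 < n → q ∉ J → Wc b q = 0 := by
    intro b hb q hq hqJ
    by_contra hcon
    apply hqJ
    simp only [J, Finset.mem_biUnion, Finset.mem_range, Finset.mem_image]
    exact ⟨b, hb, q.1, hq, q.2, mem_support_iff.mpr hcon, rfl⟩
  rcases lin_dich (fun (b : B) (q : J) => Wc b.1 q.1) (fun q : J => Wc e q.1) with h | h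
  · left
    obtain ⟨D, hD, c, hc⟩ := h
    let G : MvPolynomial (VarT R A Q T N) ℤ := monomial e D + ∑ b : B, monomial b.1 (c b)
    have hcoe : ∀ b, m.toSyn e < m.toSyn b → coeff b G = 0 := by
      intro b hb
      simp only [G]
      rw [coeff_add, coeff_monomial, if_neg (by rintro rfl; exact lt_irrefl _ hb), zero_add,
        coeff_sum]
      apply Finset.sum_eq_zero
      intro b' _
      rw [coeff_monomial, if_neg]
      intro h
      have := (hBmem b'.1).mp b'.2
      rw [h] at this
      exact lt_asymm this hb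
    have hce : coeff e G = D := by
      simp only [G]
      rw [coeff_add, coeff_monomial, if_pos rfl, coeff_sum, Finset.sum_eq_zero, add_zero]
      intro b' _
      rw [coeff_monomial, if_neg]
      intro h
      have := (hBmem b'.1).mp b'.2
      rw [h] at this
      exact lt_irrefl _ this
    have hcb : ∀ b : B, coeff b.1 G = c b := by
      intro b
      simp only [G]
      have hb := (hBmem b.1).mp b.2
      rw [coeff_add, coeff_monomial, if_neg (by intro h; rw [h] at hb; exact lt_irrefl _ hb), zero_add,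
        coeff_sum, Finset.sum_eq_single b]
      · rw [coeff_monomial, if_pos rfl]
      · intro b' _ hb'
        rw [coeff_monomial, if_neg]
        intro h
        exact hb' (Subtype.ext h)
      · intro h; exact absurd (Finset.mem_univ _) h
    have heB : e ∉ B := by
      rw [hBmem]; exact lt_irrefl _
    refine ⟨G, ?_, by rw [hce]; exact hD, hcoe⟩
    rw [mem_fil_iff ℤ n G (insert e B)]
    · intro q hq
      by_cases hqJ : q ∈ J
      · have h1 := hc ⟨q, hqJ⟩
        rw [Finset.sum_insert heB, hce, ← Finset.sum_coe_sort]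
        simp only [hcb]
        exact_mod_cast h1
      · apply Finset.sum_eq_zero
        intro b hb
        rw [hJ2 b hb q hq hqJ]
        simp
    · intro b hb
      rw [Finset.mem_insert, hBmem]
      by_contra hcon
      push Not at hcon
      obtain ⟨h1, h2⟩ := hcon
      have h3 : m.toSyn e < m.toSyn b := lt_of_le_of_ne h2 (fun h => h1 (m.toSyn.injective h.symm))
      exact (mem_support_iff.mp hb) (hcoe b h3)
  · right
    obtain ⟨l, hl1, hl2⟩ := h
    refine ⟨J, fun q => if hq : q ∈ J then l ⟨q, hq⟩ else 0, hJ1, ?_, ?_⟩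
    · intro b hb
      have h1 := hl1 ⟨b, (hBmem b).mpr hb⟩
      rw [← h1, ← Finset.sum_coe_sort J]
      apply Finset.sum_congr rfl
      intro q _
      simp
    · intro h0
      apply hl2
      rw [← h0, ← Finset.sum_coe_sort J]
      apply Finset.sum_congr rfl
      intro q _
      simp

end

section Fin

variable {R A Q T N : Type*}
variable [Fintype R] [Fintype A] [Fintype Q] [Fintype T] [Fintype N]
  [DecidableEq R] [DecidableEq A] [DecidableEq Q] [DecidableEq T] [DecidableEq N]
variable {M t Nn : ℕ}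
variable (ρ : R ⊕ A ≃ Fin M) (κ : R ⊕ (Q ⊕ T) ≃ Fin t) (γ : N ⊕ T ≃ Fin Nn)

lemma mo_fin (e : VarT R A Q T N →₀ ℕ) :
    {b | (mo ρ κ γ).toSyn b < (mo ρ κ γ).toSyn e}.Finite := by
  letI := ordV ρ κ γ
  haveI := ordV_wf ρ κ γ
  apply (Set.finite_Icc (0 : VarT R A Q T N →₀ ℕ) (e.degree • ones _)).subset
  intro b hb
  have h1 : b.degree ≤ e.degree := by
    have hb' : (MonomialOrder.degLex (σ := VarT R A Q T N)).toSyn b <
      (MonomialOrder.degLex (σ := VarT R A Q T N)).toSyn e := hb
    rw [MonomialOrder.degLex_lt_iff, Finsupp.DegLex.lt_iff] at hb'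
    rcases hb' with h | h
    · exact h.le
    · exact h.1.le
  refine ⟨zero_le, fun v => ?_⟩
  rw [Finsupp.smul_apply, ones_apply, smul_eq_mul, mul_one]
  exact (Finsupp.le_degree v b).trans h1

/-- divisibility by two in every characteristic -/
theorem valDiv_all (a' n' : ℕ) (hA : Fintype.card A = Fintype.card Q + Fintype.card T + a')
    (hN : Fintype.card N = Fintype.card R + Fintype.card Q + n') (K : Type*) [Field K] :
    ValDiv (hh R A Q T N) (VR (mo ρ κ γ) (fil K)) 2 := by
  classical
  -- positive characteristic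
  have hpos : ∀ (p : ℕ) (hp : Fact p.Prime) (L : Type _) [Field L] [CharP L p],
      ValDiv (hh R A Q T N) (VR (mo ρ κ γ) (fil L)) 2 := by
    intro p hp L _ _
    have F := fil_symbFilt (R := R) (A := A) (Q := Q) (T := T) (N := N) L
    have h1 := VR_main ρ κ γ L a' n' hA hN
    exact (F.valRel _ h1).div_all (F.valDiv p _ h1) hp.out.two_le 2
  have hpos0 : ∀ (p : ℕ) (hp : Fact p.Prime),
      ValDiv (hh R A Q T N) (VR (mo ρ κ γ) (fil (ZMod p))) 2 := by
    intro p hp
    have F := fil_symbFilt (R := R) (A := A) (Q := Q) (T := T) (N := N) (ZMod p)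
    have h1 := VR_main ρ κ γ (ZMod p) a' n' hA hN
    exact (F.valRel _ h1).div_all (F.valDiv p _ h1) hp.out.two_le 2
  obtain ⟨p, hchar⟩ := CharP.exists K
  rcases CharP.char_is_prime_or_zero K p with hp | hp
  · exact hpos p ⟨hp⟩ K
  · subst hp
    have hK0 : CharZero K := CharP.charP_to_charZero K
    -- transfer
    have key : ∀ (e e' : VarT R A Q T N →₀ ℕ) (n n' : ℕ),
        (∀ (p : ℕ) (hp : Fact p.Prime), VR (mo ρ κ γ) (fil (ZMod p)) e n →
          VR (mo ρ κ γ) (fil (ZMod p)) e' n') →
        VR (mo ρ κ γ) (fil K) e n → VR (mo ρ κ γ) (fil K) e' n' := by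
      intro e e' n n' H hV
      rcases int_dich (mo ρ κ γ) (mo_fin ρ κ γ) e n with ⟨G, hG⟩ | ⟨J, l, hJ⟩
      · rcases int_dich (mo ρ κ γ) (mo_fin ρ κ γ) e' n' with ⟨G', hG'⟩ | ⟨J', l', hJ'⟩
        · exact hG'.vr _ K (by exact_mod_cast hG'.2.1)
        · exfalso
          set D := coeff e G with hD
          set D' := ∑ q ∈ J', l' q * Wc e' q with hD'
          have hD0 : D ≠ 0 := hG.2.1
          have hD'0 : D' ≠ 0 := hJ'.2.2
          obtain ⟨p, hp1, hp2⟩ := Nat.exists_infinite_primes (D.natAbs + D'.natAbs + 1)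
          have hpf : Fact p.Prime := ⟨hp2⟩
          have hne : ∀ E : ℤ, E ≠ 0 → E.natAbs < p → ((E : ℤ) : ZMod p) ≠ 0 := by
            intro E hE hlt h0
            rw [ZMod.intCast_zmod_eq_zero_iff_dvd] at h0
            have h1 := Int.natAbs_dvd_natAbs.mpr h0
            simp only [Int.natAbs_natCast] at h1
            have h2 := Nat.le_of_dvd (Int.natAbs_pos.mpr hE) h1
            omega
          exact hJ'.not_vr _ (ZMod p) (hne D' hD'0 (by omega))
            (H p hpf (hG.vr _ (ZMod p) (hne D hD0 (by omega))))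
      · exfalso
        exact hJ.not_vr _ K (by exact_mod_cast hJ.2.2) hV
    refine ⟨?_, ?_⟩
    · intro e k hk
      refine ⟨(k + 1) / 2, ?_, by omega⟩
      refine key (2 • e) e k ((k + 1) / 2) ?_ hk
      intro p hp hV
      obtain ⟨k', h1, h2⟩ := (hpos0 p hp).div hV
      have F := fil_symbFilt (R := R) (A := A) (Q := Q) (T := T) (N := N) (ZMod p)
      obtain ⟨f, hf1, hf2, hf3⟩ := h1
      exact ⟨f, F.anti (by omega) hf1, hf2, hf3⟩
    · intro e k hk
      refine ⟨(k - hh R A Q T N + 1) / 2, ?_, by omega⟩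
      refine key (2 • e + ones _) e k _ ?_ hk
      intro p hp hV
      obtain ⟨k', h1, h2⟩ := (hpos0 p hp).shift hV
      have F := fil_symbFilt (R := R) (A := A) (Q := Q) (T := T) (N := N) (ZMod p)
      obtain ⟨f, hf1, hf2, hf3⟩ := h1
      exact ⟨f, F.anti (by omega) hf1, hf2, hf3⟩

/-- the symbolic Rees algebra in the large case is Noetherian over every field -/
theorem noeth_large (a' n' : ℕ) (hA : Fintype.card A = Fintype.card Q + Fintype.card T + a')
    (hN : Fintype.card N = Fintype.card R + Fintype.card Q + n') (K : Type*) [Field K] :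
    IsNoetherianRing (fil_symbFilt (R := R) (A := A) (Q := Q) (T := T) (N := N) K).rees := by
  classical
  let M := Fintype.card (R ⊕ A)
  let t := Fintype.card (R ⊕ (Q ⊕ T))
  let Nn := Fintype.card (N ⊕ T)
  have h1 := VR_main (Fintype.equivFin (R ⊕ A)) (Fintype.equivFin (R ⊕ (Q ⊕ T)))
    (Fintype.equivFin (N ⊕ T)) K a' n' hA hN
  have h2 := valDiv_all (Fintype.equivFin (R ⊕ A)) (Fintype.equivFin (R ⊕ (Q ⊕ T)))
    (Fintype.equivFin (N ⊕ T)) a' n' hA hN K
  have F := fil_symbFilt (R := R) (A := A) (Q := Q) (T := T) (N := N) K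
  exact F.noeth _ h1 ((F.valRel _ h1).monoid_fg h2 le_rfl)

end Fin

end Pool.Agent.J6H94.SymbVC
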