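import Mathlib
import Pool.Agent.J6H94.SymbVC.IdealC

/-! Rank factorizations and adapted bases. -/

set_option linter.unusedSectionVars false
set_option linter.unusedSimpArgs false

namespace Pool.Agent.J6H94.SymbVC

open Matrix Module

section

variable {L : Type*} [Field L]

lemma minors_zero_ne {ρ γ : Type*} (W : Matrix ρ γ L) : minors 0 W ≠ ⊥ := by
  intro h
  have h1 : (W.submatrix (Fin.elim0 : Fin 0 → ρ) (Fin.elim0 : Fin 0 → γ)).det ∈ minors 0 W :=
    Ideal.subset_span ⟨(Fin.elim0, Fin.elim0), rfl⟩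
  rw [h, det_fin_zero] at h1
  simp at h1

/-- rank factorization from vanishing of minors -/
theorem rank_fact {ρ γ : Type*} (W : Matrix ρ γ L) (r : ℕ) (h : minors (r + 1) W = ⊥) :
    ∃ k, k ≤ r ∧ ∃ (C : Matrix ρ (Fin k) L) (B : Matrix (Fin k) γ L), W = C * B := by
  classical
  have hex : ∃ k, minors (k + 1) W = ⊥ := ⟨r, h⟩
  set k := Nat.find hex with hk
  have h1 : minors (k + 1) W = ⊥ := Nat.find_spec hex
  have h2 : k ≤ r := Nat.find_min' hex h
  have h3 : minors k W ≠ ⊥ := by
    rcases hk0 : k with _ | k'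
    · exact minors_zero_ne W
    · intro h4
      have := Nat.find_min' hex h4
      omega
  obtain ⟨e, f, hef⟩ : ∃ (e : Fin k → ρ) (f : Fin k → γ), (W.submatrix e f).det ≠ 0 := by
    by_contra hcon
    push Not at hcon
    apply h3
    unfold minors
    rw [Ideal.span_eq_bot]
    rintro _ ⟨p, rfl⟩
    exact hcon p.1 p.2
  refine ⟨k, h2, W.submatrix id f, (W.submatrix e f)⁻¹ * W.submatrix e id, ?_⟩
  ext i j
  have h5 := schur_mem W e f i j hef
  rw [Fintype.card_fin, h1, Ideal.mem_bot, sub_eq_zero] at h5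
  have h6 : ((W.submatrix id f) * ((W.submatrix e f)⁻¹ * W.submatrix e id)) i j =
      (W.submatrix e f).det⁻¹ *
        ∑ b, (∑ a, W i (f a) * (W.submatrix e f).adjugate a b) * W (e b) j := by
    rw [← Matrix.mul_assoc, Matrix.mul_apply, Finset.mul_sum]
    apply Finset.sum_congr rfl
    intro b _
    rw [Matrix.mul_apply, ← mul_assoc, Finset.mul_sum]
    congr 1
    apply Finset.sum_congr rfl
    intro a _
    rw [Matrix.inv_def, Matrix.smul_apply, Ring.inverse_eq_inv', smul_eq_mul]
    simp only [submatrix_apply, id]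
    ring
  rw [h6, ← h5, ← mul_assoc, inv_mul_cancel₀ hef, one_mul]

/-- basis adapted to a flag -/
theorem flag_basis {M : Type*} [AddCommGroup M] [Module L M] [FiniteDimensional L M]
    (I U : Submodule L M) (hIU : I ≤ U) :
    ∃ b : Basis (Fin (finrank L M)) L M, (∀ j, j.val < finrank L U → b j ∈ U) ∧
      ∀ x ∈ I, x ∈ Submodule.span L (b '' {j | j.val < finrank L I}) := by
  classical
  let I' : Submodule L U := I.comap U.subtype
  have hI' : finrank L I' = finrank L I :=
    (Submodule.comapSubtypeEquivOfLe hIU).finrank_eq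
  have hIU' : finrank L I ≤ finrank L U := Submodule.finrank_mono hIU
  have hUM : finrank L U ≤ finrank L M := Submodule.finrank_le U
  have hq1 : finrank L (U ⧸ I') = finrank L U - finrank L I := by
    have := Submodule.finrank_quotient_add_finrank I'
    omega
  have hq2 : finrank L (M ⧸ U) = finrank L M - finrank L U := by
    have := Submodule.finrank_quotient_add_finrank U
    omega
  let b0 := Module.finBasisOfFinrankEq L I' hI'
  let c0 := Module.finBasisOfFinrankEq L (U ⧸ I') hq1
  let b1 := Basis.sumQuot b0 c0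
  let c1 := Module.finBasisOfFinrankEq L (M ⧸ U) hq2
  let b2 := Basis.sumQuot b1 c1
  let e1 : (Fin (finrank L I) ⊕ Fin (finrank L U - finrank L I)) ⊕
      Fin (finrank L M - finrank L U) ≃ Fin (finrank L M) :=
    ((finSumFinEquiv.trans (finCongr (by omega : finrank L I + (finrank L U - finrank L I) =
      finrank L U))).sumCongr (Equiv.refl _)).trans (finSumFinEquiv.trans (finCongr (by omega)))
  refine ⟨b2.reindex e1, ?_, ?_⟩
  · intro j hj
    rw [Basis.reindex_apply]
    obtain ⟨x, rfl⟩ := e1.surjective j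
    rw [Equiv.symm_apply_apply]
    rcases x with x | x
    · change (Basis.sumQuot b1 c1) (Sum.inl x) ∈ U
      rw [Basis.sumQuot_inl]
      exact (b1 x).2
    · exfalso
      simp [e1] at hj
  · intro x hx
    have hxU : x ∈ U := hIU hx
    have hx' : (⟨x, hxU⟩ : U) ∈ I' := hx
    have h1 := b0.sum_repr ⟨⟨x, hxU⟩, hx'⟩
    have h2 : x = ∑ i, b0.repr ⟨⟨x, hxU⟩, hx'⟩ i • ((b0 i : U) : M) := by
      have h3 := congrArg (fun z : I' => ((z : U) : M)) h1
      simp only [Submodule.coe_sum, Submodule.coe_smul] at h3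
      exact h3.symm
    rw [h2]
    apply Submodule.sum_mem
    intro i _
    apply Submodule.smul_mem
    apply Submodule.subset_span
    refine ⟨e1 (Sum.inl (Sum.inl i)), ?_, ?_⟩
    · simp [e1]
    · rw [Basis.reindex_apply, Equiv.symm_apply_apply]
      change (Basis.sumQuot b1 c1) (Sum.inl (Sum.inl i)) = _
      rw [Basis.sumQuot_inl]
      change ((Basis.sumQuot b0 c0 (Sum.inl i) : U) : M) = _
      rw [Basis.sumQuot_inl]

end

section

variable {R Q T : Type*} [Fintype R] [Fintype Q] [Fintype T]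
  [DecidableEq R] [DecidableEq Q] [DecidableEq T]

/-- an ordering of the middle index -/
lemma exists_order : ∃ E : R ⊕ (Q ⊕ T) ≃ Fin (Fintype.card R + (Fintype.card Q + Fintype.card T)),
    (∀ x, (E (Sum.inr x)).val < Fintype.card Q + Fintype.card T) ∧
    (∀ x, (E x).val < Fintype.card T → ∃ y, x = Sum.inr (Sum.inr y)) := by
  let e : R ⊕ (Q ⊕ T) ≃ (T ⊕ Q) ⊕ R :=
    (Equiv.sumComm _ _).trans ((Equiv.sumComm _ _).sumCongr (Equiv.refl _))
  let e2 : (T ⊕ Q) ⊕ R ≃ Fin (Fintype.card T + Fintype.card Q) ⊕ Fin (Fintype.card R) :=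
    (((Fintype.equivFin T).sumCongr (Fintype.equivFin Q)).trans finSumFinEquiv).sumCongr
      (Fintype.equivFin R)
  refine ⟨(e.trans e2).trans (finSumFinEquiv.trans (finCongr (by ring))), ?_, ?_⟩
  · rintro (x | x)
    · simp [e, e2]; omega
    · simp [e, e2]; omega
  · rintro (x | x | x) hx
    · simp [e, e2] at hx; omega
    · simp [e, e2] at hx
    · exact ⟨x, rfl⟩

variable {α γ : Type*} [Fintype γ] [Fintype α] [DecidableEq γ] {L : Type*} [Field L]

/-- basis adapted to a complex -/
theorem exists_adapted (Y : Matrix α (R ⊕ (Q ⊕ T)) L) (Z : Matrix (R ⊕ (Q ⊕ T)) γ L)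
    (hYZ : Y * Z = 0) (hY : minors (Fintype.card R + 1) Y = ⊥)
    (hZ : minors (Fintype.card T + 1) Z = ⊥) :
    ∃ b : Matrix (R ⊕ (Q ⊕ T)) (R ⊕ (Q ⊕ T)) L, IsUnit b ∧
      (∀ i j, (Y * b) i (Sum.inr j) = 0) ∧
      ∃ D : Matrix T γ L, Z = b.submatrix id (fun x => Sum.inr (Sum.inr x)) * D := by
  classical
  obtain ⟨k, hk, CY, BY, hYf⟩ := rank_fact Y _ hY
  obtain ⟨l, hl, CZ, BZ, hZf⟩ := rank_fact Z _ hZ
  set I := LinearMap.range Z.mulVecLin with hI
  set U := LinearMap.ker Y.mulVecLin with hU
  have hIU : I ≤ U := by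
    rintro _ ⟨x, rfl⟩
    rw [hU, LinearMap.mem_ker, mulVecLin_apply, mulVecLin_apply, mulVec_mulVec, hYZ, zero_mulVec]
  have hIr : finrank L I ≤ Fintype.card T := by
    have h1 : Z.rank ≤ l := by
      rw [hZf]
      refine (rank_mul_le_left _ _).trans ?_
      have := rank_le_card_width CZ
      simpa using this
    exact h1.trans hl
  have hUr : Fintype.card Q + Fintype.card T ≤ finrank L U := by
    have h1 : Y.rank ≤ k := by
      rw [hYf]
      refine (rank_mul_le_left _ _).trans ?_
      have := rank_le_card_width CY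
      simpa using this
    have h2 := LinearMap.finrank_range_add_finrank_ker Y.mulVecLin
    rw [Module.finrank_fintype_fun_eq_card] at h2
    have h3 : Fintype.card (R ⊕ (Q ⊕ T)) =
        Fintype.card R + (Fintype.card Q + Fintype.card T) := by simp
    have h4 : finrank L (LinearMap.range Y.mulVecLin) = Y.rank := rfl
    have h5 : finrank L (LinearMap.ker Y.mulVecLin) = finrank L U := rfl
    rw [h4, h3, h5] at h2
    omega
  obtain ⟨b, hb1, hb2⟩ := flag_basis I U hIU
  obtain ⟨E, hE1, hE2⟩ := exists_order (R := R) (Q := Q) (T := T)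
  have hcard : Fintype.card R + (Fintype.card Q + Fintype.card T) =
      finrank L (R ⊕ (Q ⊕ T) → L) := by
    rw [Module.finrank_fintype_fun_eq_card]; simp
  let E' : R ⊕ (Q ⊕ T) ≃ Fin (finrank L (R ⊕ (Q ⊕ T) → L)) := E.trans (finCongr hcard)
  let v : Basis (R ⊕ (Q ⊕ T)) L (R ⊕ (Q ⊕ T) → L) := b.reindex E'.symm
  have hv : ∀ j, v j = b (E' j) := by
    intro j
    rw [Basis.reindex_apply, Equiv.symm_symm]
  refine ⟨Matrix.of fun i j => v j i, ?_, ?_, ?_⟩
  · rw [← linearIndependent_cols_iff_isUnit]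
    exact v.linearIndependent
  · intro i j
    have h1 : v (Sum.inr j) ∈ U := by
      rw [hv]
      apply hb1
      have := hE1 j
      simp only [E', Equiv.trans_apply, finCongr_apply, Fin.val_cast]
      omega
    rw [hU, LinearMap.mem_ker, mulVecLin_apply] at h1
    exact congrFun h1 i
  · have h1 : ∀ c, ∃ d : T → L, ∀ i, Z i c = ∑ t, d t * v (Sum.inr (Sum.inr t)) i := by
      intro c
      have h2 : (fun i => Z i c) ∈ I := by
        refine ⟨Pi.single c 1, ?_⟩
        rw [mulVecLin_apply, mulVec_single_one]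
        rfl
      have h3 := hb2 _ h2
      have h4 : Submodule.span L (b '' {j | j.val < finrank L I}) ≤
          Submodule.span L (Set.range fun t => v (Sum.inr (Sum.inr t))) := by
        apply Submodule.span_mono
        rintro _ ⟨j, hj, rfl⟩
        obtain ⟨x, rfl⟩ := E'.surjective j
        have h5 : (E x).val < Fintype.card T := by
          have : (E' x).val = (E x).val := by
            simp only [E', Equiv.trans_apply, finCongr_apply, Fin.val_cast]
          rw [Set.mem_ofPred_eq, this] at hj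
          omega
        obtain ⟨y, rfl⟩ := hE2 x h5
        exact ⟨y, hv _⟩
      have h6 := h4 h3
      rw [Submodule.mem_span_range_iff_exists_fun] at h6
      obtain ⟨d, hd⟩ := h6
      refine ⟨d, fun i => ?_⟩
      have h7 := congrFun hd i
      simp only [Finset.sum_apply, Pi.smul_apply, smul_eq_mul] at h7
      exact h7.symm
    choose d hd using h1
    refine ⟨Matrix.of fun t c => d c t, ?_⟩
    ext i c
    rw [hd c i, Matrix.mul_apply]
    apply Finset.sum_congr rfl
    intro t _
    simp only [submatrix_apply, of_apply, id]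
    ring

end

end Pool.Agent.J6H94.SymbVC
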