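import Mathlib
import Pool.Agent.J6H94.SymbVC.Rank

/-! The first step of the filtration is the unique minimal prime of the ideal of the variety of
complexes. -/

set_option linter.unusedSectionVars false
set_option linter.unusedSimpArgs false

namespace Pool.Agent.J6H94.SymbVC

open Matrix MvPolynomial

section

variable {R A Q T N : Type*}
variable [Fintype R] [Fintype A] [Fintype Q] [Fintype T] [Fintype N]
  [DecidableEq R] [DecidableEq A] [DecidableEq Q] [DecidableEq T] [DecidableEq N]

section CP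

variable {E E' : Type*} [CommRing E] [CommRing E']

/-- `Y` part of the cone parametrization -/
def cpY (a : Matrix (R ⊕ A) R E) (b : Matrix (R ⊕ (Q ⊕ T)) (R ⊕ (Q ⊕ T)) E) (c : E) :
    Matrix (R ⊕ A) (R ⊕ (Q ⊕ T)) E := c • (a * (b.adjugate.submatrix Sum.inl id))

/-- `Z` part of the cone parametrization -/
def cpZ (b : Matrix (R ⊕ (Q ⊕ T)) (R ⊕ (Q ⊕ T)) E) (d : Matrix T (N ⊕ T) E) :
    Matrix (R ⊕ (Q ⊕ T)) (N ⊕ T) E := b.submatrix id (fun x => Sum.inr (Sum.inr x)) * d

/-- the point -/
def cp (a : Matrix (R ⊕ A) R E) (b : Matrix (R ⊕ (Q ⊕ T)) (R ⊕ (Q ⊕ T)) E) (c : E)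
    (d : Matrix T (N ⊕ T) E) : VarT R A Q T N → E
  | Sum.inl (i, j) => cpY a b c i j
  | Sum.inr (i, j) => cpZ b d i j

lemma cpYZ (a : Matrix (R ⊕ A) R E) (b : Matrix (R ⊕ (Q ⊕ T)) (R ⊕ (Q ⊕ T)) E) (c : E)
    (d : Matrix T (N ⊕ T) E) : cpY a b c * cpZ b d = 0 := by
  unfold cpY cpZ
  rw [Matrix.smul_mul, Matrix.mul_assoc, ← Matrix.mul_assoc _ _ d]
  have h1 : b.adjugate.submatrix Sum.inl id * b.submatrix id (fun x => Sum.inr (Sum.inr x)) =
      (0 : Matrix R T E) := by
    rw [← submatrix_mul _ _ _ id _ Function.bijective_id, adjugate_mul]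
    ext i j
    simp [Matrix.one_apply]
  rw [h1, Matrix.zero_mul, Matrix.mul_zero, smul_zero]

lemma map_cp (φ : E →+* E') (a : Matrix (R ⊕ A) R E)
    (b : Matrix (R ⊕ (Q ⊕ T)) (R ⊕ (Q ⊕ T)) E) (c : E) (d : Matrix T (N ⊕ T) E)
    (v : VarT R A Q T N) : φ (cp a b c d v) = cp (a.map φ) (b.map φ) (φ c) (d.map φ) v := by
  have h1 : (cpY a b c).map φ = cpY (a.map φ) (b.map φ) (φ c) := by
    unfold cpY
    rw [map_smul', Matrix.map_mul, ← submatrix_map, map_adj]
  have h2 : (cpZ b d).map φ = cpZ (b.map φ) (d.map φ) := by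
    unfold cpZ
    rw [Matrix.map_mul, ← submatrix_map]
  rcases v with ⟨i, j⟩ | ⟨i, j⟩
  · exact congrFun (congrFun h1 i) j
  · exact congrFun (congrFun h2 i) j

lemma det_mul_zero {κ ι : Type*} [Fintype κ] [DecidableEq κ] [Fintype ι] [DecidableEq ι]
    (X : Matrix κ ι E) (Y : Matrix ι κ E) (h : Fintype.card ι < Fintype.card κ) :
    (X * Y).det = 0 := by
  rw [det_mul_expand]
  apply Finset.sum_eq_zero
  intro φ _
  obtain ⟨i, j, hij, hφ⟩ := Fintype.exists_ne_map_eq_of_card_lt φ h
  rw [det_zero_of_column_eq hij (by intro a; simp [hφ]), mul_zero]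

end CP

variable (K : Type*) [Field K]

section Kill

variable {E : Type*} [CommRing E] [Algebra K E]

/-- the point kills the ideal -/
lemma cp_kill (a : Matrix (R ⊕ A) R E) (b : Matrix (R ⊕ (Q ⊕ T)) (R ⊕ (Q ⊕ T)) E) (c : E)
    (d : Matrix T (N ⊕ T) E) {g : MvPolynomial (VarT R A Q T N) K}
    (hg : g ∈ cpx K (R ⊕ A) (R ⊕ (Q ⊕ T)) (N ⊕ T) (Fintype.card R) (Fintype.card T)) :
    aeval (cp a b c d) g = 0 := by
  have hle : cpx K (R ⊕ A) (R ⊕ (Q ⊕ T)) (N ⊕ T) (Fintype.card R) (Fintype.card T) ≤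
      RingHom.ker (aeval (cp a b c d) : MvPolynomial (VarT R A Q T N) K →ₐ[K] E).toRingHom := by
    set φ := (aeval (cp a b c d) : MvPolynomial (VarT R A Q T N) K →ₐ[K] E).toRingHom with hφ
    have hY : (MY R A Q T N K).map φ = cpY a b c := by
      ext i j
      change (aeval (cp a b c d) : MvPolynomial (VarT R A Q T N) K →ₐ[K] E) (X _) = _
      rw [aeval_X]; rfl
    have hZ : (MZ R A Q T N K).map φ = cpZ b d := by
      ext i j
      change (aeval (cp a b c d) : MvPolynomial (VarT R A Q T N) K →ₐ[K] E) (X _) = _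
      rw [aeval_X]; rfl
    refine sup_le (sup_le ?_ ?_) ?_
    · unfold minors
      rw [Ideal.span_le]
      rintro _ ⟨p, rfl⟩
      rw [SetLike.mem_coe, RingHom.mem_ker, map_det, ← submatrix_map]
      have h1 := hY
      unfold MY at h1
      rw [h1]
      unfold cpY
      rw [← Matrix.smul_mul, submatrix_mul (c • a) _ _ id _ Function.bijective_id]
      apply det_mul_zero
      simp
    · unfold minors
      rw [Ideal.span_le]
      rintro _ ⟨p, rfl⟩
      rw [SetLike.mem_coe, RingHom.mem_ker, map_det, ← submatrix_map]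
      have h1 := hZ
      unfold MZ at h1
      rw [h1]
      unfold cpZ
      rw [submatrix_mul _ _ _ id _ Function.bijective_id]
      apply det_mul_zero
      simp
    · unfold entries
      rw [Ideal.span_le]
      rintro _ ⟨p, rfl⟩
      rw [SetLike.mem_coe, RingHom.mem_ker]
      have h1 : φ ((matY K (R ⊕ A) (R ⊕ (Q ⊕ T)) (N ⊕ T) *
          matZ K (R ⊕ A) (R ⊕ (Q ⊕ T)) (N ⊕ T)) p.1 p.2) =
          ((MY R A Q T N K * MZ R A Q T N K).map φ) p.1 p.2 := rfl
      rw [h1, Matrix.map_mul, hY, hZ, cpYZ]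
      rfl
  exact hle hg

/-- the point kills the first step of the filtration as soon as the local equation does not
vanish there -/
lemma cp_kill_fil [IsDomain E] (a : Matrix (R ⊕ A) R E)
    (b : Matrix (R ⊕ (Q ⊕ T)) (R ⊕ (Q ⊕ T)) E) (c : E)
    (d : Matrix T (N ⊕ T) E) (hu : aeval (cp a b c d) (u0 K : MvPolynomial (VarT R A Q T N) K) ≠ 0)
    {g : MvPolynomial (VarT R A Q T N) K} (hg : g ∈ fil K 1) :
    aeval (cp a b c d) g = 0 := by
  obtain ⟨M, hM⟩ := fil_loc K (𝔞 := cpx K (R ⊕ A) (R ⊕ (Q ⊕ T)) (N ⊕ T) (Fintype.card R)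
    (Fintype.card T)) (fun v hv => num_mem_cpx K v hv) hg
  rw [pow_one] at hM
  have h1 := cp_kill K a b c d hM
  rw [map_mul, map_pow] at h1
  rcases mul_eq_zero.mp h1 with h2 | h2
  · exact absurd h2 (pow_ne_zero M hu)
  · exact h2

end Kill

/-- value of the local equation at the base point -/
lemma u0_cp_one {E : Type*} [CommRing E] [Algebra K E] (c : E) :
    aeval (cp (R := R) (A := A) (Q := Q) (T := T) (N := N)
      (fromRows 1 0) 1 c (fromCols 0 1)) (u0 K : MvPolynomial (VarT R A Q T N) K) =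
      c ^ Fintype.card R := by
  set y := cp (R := R) (A := A) (Q := Q) (T := T) (N := N) (fromRows (1 : Matrix R R E) 0) 1 c
    (fromCols 0 (1 : Matrix T T E)) with hy
  set φ := (aeval y : MvPolynomial (VarT R A Q T N) K →ₐ[K] E).toRingHom with hφ
  have h0 : aeval y (u0 K : MvPolynomial (VarT R A Q T N) K) = φ (u0 K) := rfl
  have h1 : (bY11 (XV K)).map φ = c • (1 : Matrix R R E) := by
    ext i j
    change (aeval y : MvPolynomial (VarT R A Q T N) K →ₐ[K] E) (X _) = _
    rw [aeval_X]
    change cpY _ _ c (Sum.inl i) (Sum.inl j) = _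
    unfold cpY
    rw [adjugate_one, Matrix.smul_apply, Matrix.smul_apply, Matrix.mul_apply]
    congr 1
    rw [Finset.sum_eq_single i]
    · simp [Matrix.one_apply]
    · intro k _ hk
      rw [fromRows_apply_inl, Matrix.one_apply_ne hk.symm, zero_mul]
    · intro h; exact absurd (Finset.mem_univ _) h
  have h2 : (bZTT (XV K)).map φ = (1 : Matrix T T E) := by
    ext i j
    change (aeval y : MvPolynomial (VarT R A Q T N) K →ₐ[K] E) (X _) = _
    rw [aeval_X]
    change cpZ _ _ (Sum.inr (Sum.inr i)) (Sum.inr j) = _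
    unfold cpZ
    rw [Matrix.mul_apply, Finset.sum_eq_single i]
    · rw [submatrix_apply]
      change (1 : Matrix (R ⊕ (Q ⊕ T)) (R ⊕ (Q ⊕ T)) E) (Sum.inr (Sum.inr i)) (Sum.inr (Sum.inr i)) *
        (1 : Matrix T T E) i j = _
      rw [Matrix.one_apply_eq, one_mul]
    · intro k _ hk
      simp [Matrix.one_apply, hk.symm]
    · intro h; exact absurd (Finset.mem_univ _) h
  rw [h0, u0, map_mul, map_det, map_det, h1, h2, det_smul, det_one, det_one, mul_one, mul_one]

/-- every prime containing the ideal contains the first step of the filtration -/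
theorem fil_le_prime (P : Ideal (MvPolynomial (VarT R A Q T N) K)) [P.IsPrime]
    (h : cpx K (R ⊕ A) (R ⊕ (Q ⊕ T)) (N ⊕ T) (Fintype.card R) (Fintype.card T) ≤ P) :
    fil K 1 ≤ P := by
  classical
  intro g hg
  let D := MvPolynomial (VarT R A Q T N) K ⧸ P
  let L := FractionRing D
  have hinj : Function.Injective (algebraMap D L) := IsFractionRing.injective _ _
  let y : VarT R A Q T N → L := fun v => algebraMap D L (Ideal.Quotient.mk P (X v))
  have hy : ∀ g : MvPolynomial (VarT R A Q T N) K, aeval y g = algebraMap D L (Ideal.Quotient.mk P g) := by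
    intro g
    have : (aeval y : MvPolynomial (VarT R A Q T N) K →ₐ[K] L) =
        (IsScalarTower.toAlgHom K D L).comp (Ideal.Quotient.mkₐ K P) := by
      apply MvPolynomial.algHom_ext
      intro v
      rw [aeval_X]
      rfl
    rw [this]
    rfl
  -- kills the ideal
  set φ := (aeval y : MvPolynomial (VarT R A Q T N) K →ₐ[K] L).toRingHom with hφ
  have hkill : ∀ g ∈ cpx K (R ⊕ A) (R ⊕ (Q ⊕ T)) (N ⊕ T) (Fintype.card R) (Fintype.card T),
      φ g = 0 := by
    intro g hg
    change aeval y g = 0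
    rw [hy, Ideal.Quotient.eq_zero_iff_mem.mpr (h hg), map_zero]
  have hYm : (MY R A Q T N K).map φ = mY y := by
    ext i j
    change (aeval y : MvPolynomial (VarT R A Q T N) K →ₐ[K] L) (X _) = _
    rw [aeval_X]; rfl
  have hZm : (MZ R A Q T N K).map φ = mZ y := by
    ext i j
    change (aeval y : MvPolynomial (VarT R A Q T N) K →ₐ[K] L) (X _) = _
    rw [aeval_X]; rfl
  have hY0 : minors (Fintype.card R + 1) (mY y) = ⊥ := by
    unfold minors
    rw [Ideal.span_eq_bot]
    rintro _ ⟨p, rfl⟩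
    change ((mY y).submatrix p.1 p.2).det = 0
    rw [← hYm, submatrix_map, ← map_det]
    apply hkill
    exact Ideal.mem_sup_left (Ideal.mem_sup_left (Ideal.subset_span ⟨p, rfl⟩))
  have hZ0 : minors (Fintype.card T + 1) (mZ y) = ⊥ := by
    unfold minors
    rw [Ideal.span_eq_bot]
    rintro _ ⟨p, rfl⟩
    change ((mZ y).submatrix p.1 p.2).det = 0
    rw [← hZm, submatrix_map, ← map_det]
    apply hkill
    exact Ideal.mem_sup_left (Ideal.mem_sup_right (Ideal.subset_span ⟨p, rfl⟩))
  have hYZ : mY y * mZ y = 0 := by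
    rw [← hYm, ← hZm, ← Matrix.map_mul]
    ext i j
    change φ _ = 0
    apply hkill
    exact Ideal.mem_sup_right (Ideal.subset_span ⟨(i, j), rfl⟩)
  obtain ⟨b, hb, hb1, D0, hD0⟩ := exists_adapted (mY y) (mZ y) hYZ hY0 hZ0
  have hbdet : b.det ≠ 0 := by
    rw [Matrix.isUnit_iff_isUnit_det] at hb
    exact hb.ne_zero
  let a0 : Matrix (R ⊕ A) R L := (mY y * b).submatrix id Sum.inl
  have hYf : mY y = cpY a0 b b.det⁻¹ := by
    have h1 : mY y = b.det⁻¹ • (mY y * b * b.adjugate) := by
      rw [Matrix.mul_assoc, mul_adjugate, Matrix.mul_smul, Matrix.mul_one, smul_smul,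
        inv_mul_cancel₀ hbdet, one_smul]
    unfold cpY
    conv_lhs => rw [h1]
    congr 1
    ext i j
    rw [Matrix.mul_apply, Fintype.sum_sum_type, Matrix.mul_apply]
    rw [Finset.sum_eq_zero (s := Finset.univ (α := Q ⊕ T)), add_zero]
    · rfl
    · intro x _
      rw [hb1, zero_mul]
  have hyf : y = cp a0 b b.det⁻¹ D0 := by
    funext v
    rcases v with ⟨i, j⟩ | ⟨i, j⟩
    · exact congrFun (congrFun hYf i) j
    · exact congrFun (congrFun hD0 i) j
  -- the deformation
  let ε : Polynomial L := Polynomial.X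
  let aε : Matrix (R ⊕ A) R (Polynomial L) :=
    (1 - ε) • a0.map Polynomial.C + ε • fromRows 1 0
  let bε : Matrix (R ⊕ (Q ⊕ T)) (R ⊕ (Q ⊕ T)) (Polynomial L) :=
    (1 - ε) • b.map Polynomial.C + ε • 1
  let dε : Matrix T (N ⊕ T) (Polynomial L) :=
    (1 - ε) • D0.map Polynomial.C + ε • fromCols 0 1
  let cε : Polynomial L := Polynomial.C (b.det⁻¹)
  have hev : ∀ (e : L) (q : MvPolynomial (VarT R A Q T N) K),
      Polynomial.evalRingHom e (aeval (cp aε bε cε dε) q) =
        aeval (cp (aε.map (Polynomial.evalRingHom e)) (bε.map (Polynomial.evalRingHom e))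
          (Polynomial.evalRingHom e cε) (dε.map (Polynomial.evalRingHom e))) q := by
    intro e q
    let ψ : Polynomial L →ₐ[K] L :=
      { Polynomial.evalRingHom e with
        commutes' := by
          intro k
          change Polynomial.eval e (algebraMap K (Polynomial L) k) = _
          rw [IsScalarTower.algebraMap_apply K L (Polynomial L), Polynomial.algebraMap_apply]
          simp }
    have : ψ.comp (aeval (cp aε bε cε dε)) =
        aeval (cp (aε.map (Polynomial.evalRingHom e)) (bε.map (Polynomial.evalRingHom e))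
          (Polynomial.evalRingHom e cε) (dε.map (Polynomial.evalRingHom e))) := by
      apply MvPolynomial.algHom_ext
      intro v
      rw [AlgHom.comp_apply, aeval_X, aeval_X]
      exact map_cp (Polynomial.evalRingHom e) _ _ _ _ v
    exact congrArg (fun f => f q) this
  have hu : aeval (cp aε bε cε dε) (u0 K : MvPolynomial (VarT R A Q T N) K) ≠ 0 := by
    intro h0
    have h1 := hev 1 (u0 K)
    rw [h0, map_zero] at h1
    have ea : aε.map (Polynomial.evalRingHom (1 : L)) = fromRows 1 0 := by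
      ext i j
      rcases i with i | i
      · simp [aε, ε, Matrix.one_apply, apply_ite]
      · simp [aε, ε, Matrix.one_apply]
    have eb : bε.map (Polynomial.evalRingHom (1 : L)) = 1 := by
      ext i j
      simp [bε, ε, Matrix.one_apply, apply_ite]
    have ed : dε.map (Polynomial.evalRingHom (1 : L)) = fromCols 0 1 := by
      ext i j
      rcases j with j | j
      · simp [dε, ε, Matrix.one_apply]
      · simp [dε, ε, Matrix.one_apply, apply_ite]
    rw [ea, eb, ed, u0_cp_one] at h1
    have hc : Polynomial.evalRingHom (1 : L) cε = b.det⁻¹ := by simp [cε]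
    rw [hc] at h1
    exact pow_ne_zero _ (inv_ne_zero hbdet) h1.symm
  have hfin := cp_kill_fil K aε bε cε dε hu hg
  have h1 := hev 0 g
  rw [hfin, map_zero] at h1
  have ea : aε.map (Polynomial.evalRingHom (0 : L)) = a0 := by
    ext i j
    simp [aε, ε]
  have eb : bε.map (Polynomial.evalRingHom (0 : L)) = b := by
    ext i j
    simp [bε, ε]
  have ed : dε.map (Polynomial.evalRingHom (0 : L)) = D0 := by
    ext i j
    simp [dε, ε]
  have hc : Polynomial.evalRingHom (0 : L) cε = b.det⁻¹ := by simp [cε]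
  rw [ea, eb, ed, hc, ← hyf, hy] at h1
  have h2 := hinj (h1.symm.trans (map_zero _).symm)
  exact Ideal.Quotient.eq_zero_iff_mem.mp h2

end

end Pool.Agent.J6H94.SymbVC
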