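import Mathlib
import Pool.Agent.J6H94.SymbVC.Char0

/-! Retraction to smaller matrices. -/

set_option linter.unusedSectionVars false
set_option linter.unusedSimpArgs false

namespace Pool.Agent.J6H94.SymbVC

open Matrix MvPolynomial

section

variable {R A Q T N B C : Type*}
variable [Fintype R] [Fintype A] [Fintype Q] [Fintype T] [Fintype N] [Fintype B] [Fintype C]
  [DecidableEq R] [DecidableEq A] [DecidableEq Q] [DecidableEq T] [DecidableEq N]
  [DecidableEq B] [DecidableEq C]

/-- the inclusion of variables -/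
def iota : VarT R A Q T N → VarT R (A ⊕ B) Q T (N ⊕ C)
  | Sum.inl (i, j) => Sum.inl (Sum.map id Sum.inl i, j)
  | Sum.inr (j, c) => Sum.inr (j, Sum.map Sum.inl id c)

variable {L : Type*} [CommRing L]

lemma pt_iota (x : VarT R (A ⊕ B) Q T (N ⊕ C) → L) (t : L) (v : VarT R A Q T N) :
    pt x t (iota v) = pt (fun w => x (iota w)) t v := by
  rcases v with ⟨i | i, j | j⟩ | ⟨i | i | i, j | j⟩
  all_goals rfl

/-- extension by zero -/
def ext0 (x : VarT R A Q T N → L) : VarT R (A ⊕ B) Q T (N ⊕ C) → L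
  | Sum.inl (Sum.inl i, j) => x (Sum.inl (Sum.inl i, j))
  | Sum.inl (Sum.inr (Sum.inl i), j) => x (Sum.inl (Sum.inr i, j))
  | Sum.inl (Sum.inr (Sum.inr _), _) => 0
  | Sum.inr (j, Sum.inl (Sum.inl c)) => x (Sum.inr (j, Sum.inl c))
  | Sum.inr (_, Sum.inl (Sum.inr _)) => 0
  | Sum.inr (j, Sum.inr c) => x (Sum.inr (j, Sum.inr c))

lemma ext0_iota (x : VarT R A Q T N → L) (v : VarT R A Q T N) :
    (ext0 x : VarT R (A ⊕ B) Q T (N ⊕ C) → L) (iota v) = x v := by
  rcases v with ⟨i | i, j⟩ | ⟨i, j | j⟩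
  all_goals rfl

lemma pt_ext0 (x : VarT R A Q T N → L) (t : L) (v : VarT R (A ⊕ B) Q T (N ⊕ C)) :
    pt (ext0 x) t v = ext0 (pt x t) v := by
  have h1 : ∀ v : VarT R A Q T N, pt (ext0 x : VarT R (A ⊕ B) Q T (N ⊕ C) → L) t (iota v) =
      pt x t v := by
    intro v
    rw [pt_iota]
    congr 1
    funext w
    exact ext0_iota x w
  have z21 : ∀ b j, bY21 (ext0 x : VarT R (A ⊕ B) Q T (N ⊕ C) → L) (Sum.inr b) j = 0 :=
    fun b j => rfl
  have z22 : ∀ b j, bY22 (ext0 x : VarT R (A ⊕ B) Q T (N ⊕ C) → L) (Sum.inr b) j = 0 :=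
    fun b j => rfl
  have zT : ∀ i c, bZTN (ext0 x : VarT R (A ⊕ B) Q T (N ⊕ C) → L) i (Sum.inr c) = 0 :=
    fun b j => rfl
  have zR : ∀ i c, bZRN (ext0 x : VarT R (A ⊕ B) Q T (N ⊕ C) → L) i (Sum.inr c) = 0 :=
    fun b j => rfl
  have zQ : ∀ i c, bZQN (ext0 x : VarT R (A ⊕ B) Q T (N ⊕ C) → L) i (Sum.inr c) = 0 :=
    fun b j => rfl
  rcases v with ⟨i | i | i, j⟩ | ⟨i, (j | j) | j⟩
  · exact h1 (Sum.inl (Sum.inl i, j))
  · exact h1 (Sum.inl (Sum.inr i, j))
  · rcases j with j | j
    · change (bY21 (ext0 x) * bY11 (ext0 x)) (Sum.inr i) j = 0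
      rw [Matrix.mul_apply]
      apply Finset.sum_eq_zero
      intro a _
      rw [z21, zero_mul]
    · change (bY21 (ext0 x) * bY11 (ext0 x) * bY12 (ext0 x) + t • bY22 (ext0 x) :
        Matrix (A ⊕ B) (Q ⊕ T) L) (Sum.inr i) j = 0
      rw [Matrix.add_apply, Matrix.smul_apply, z22, smul_zero, add_zero, Matrix.mul_apply]
      apply Finset.sum_eq_zero
      intro a _
      rw [Matrix.mul_apply, Finset.sum_eq_zero, zero_mul]
      intro b _
      rw [z21, zero_mul]
  · exact h1 (Sum.inr (i, Sum.inl j))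
  · rcases i with i | i
    · change (LA (ext0 x) t * bZTN (ext0 x) + t • bZRN (ext0 x) :
        Matrix R (N ⊕ C) L) i (Sum.inr j) = 0
      rw [Matrix.add_apply, Matrix.smul_apply, zR, smul_zero, add_zero, Matrix.mul_apply]
      apply Finset.sum_eq_zero
      intro a _
      rw [zT, mul_zero]
    · change (WW (ext0 x) * bZTN (ext0 x) + t • fromRows (bZQN (ext0 x)) 0 :
        Matrix (Q ⊕ T) (N ⊕ C) L) i (Sum.inr j) = 0
      rw [Matrix.add_apply, Matrix.smul_apply, Matrix.mul_apply, Finset.sum_eq_zero, zero_add]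
      · rcases i with i | i
        · rw [fromRows_apply_inl, zQ, smul_zero]
        · rw [fromRows_apply_inr, Matrix.zero_apply, smul_zero]
      · intro a _
        rw [zT, mul_zero]
  · exact h1 (Sum.inr (i, Sum.inr j))

lemma ext0_of (f : L → L) (hf : f 0 = 0) (x : VarT R A Q T N → L) (v : VarT R (A ⊕ B) Q T (N ⊕ C)) :
    f (ext0 x v) = ext0 (fun w => f (x w)) v := by
  rcases v with ⟨i | i | i, j⟩ | ⟨i, (j | j) | j⟩ <;> first | rfl | exact hf

lemma map_ext0 {L' : Type*} [CommRing L'] (f : L → L') (hf : f 0 = 0) (x : VarT R A Q T N → L)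
    (v : VarT R (A ⊕ B) Q T (N ⊕ C)) :
    f (ext0 x v) = ext0 (fun w => f (x w)) v := by
  rcases v with ⟨i | i | i, j⟩ | ⟨i, (j | j) | j⟩ <;> first | rfl | exact hf

variable (K : Type*) [Field K]

variable (R A Q T N B C) in
/-- the retraction -/
noncomputable def retr : MvPolynomial (VarT R (A ⊕ B) Q T (N ⊕ C)) K →ₐ[K]
    MvPolynomial (VarT R A Q T N) K := aeval (ext0 (fun v => X v))

lemma retr_rename (g : MvPolynomial (VarT R A Q T N) K) :
    retr R A Q T N B C K (rename iota g) = g := by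
  rw [retr, aeval_rename]
  have : (ext0 (fun v : VarT R A Q T N => (X v : MvPolynomial (VarT R A Q T N) K)) :
      VarT R (A ⊕ B) Q T (N ⊕ C) → _) ∘ iota = X := by
    funext v
    exact ext0_iota _ v
  rw [this]
  simp

lemma Th_rename (g : MvPolynomial (VarT R A Q T N) K) :
    Th R (A ⊕ B) Q T (N ⊕ C) K (rename iota g) =
      Polynomial.map (rename iota : MvPolynomial (VarT R A Q T N) K →ₐ[K]
        MvPolynomial (VarT R (A ⊕ B) Q T (N ⊕ C)) K).toRingHom (Th R A Q T N K g) := by
  let ψ : Polynomial (MvPolynomial (VarT R A Q T N) K) →ₐ[K]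
    Polynomial (MvPolynomial (VarT R (A ⊕ B) Q T (N ⊕ C)) K) :=
    Polynomial.mapAlgHom (rename iota)
  have : (Th R (A ⊕ B) Q T (N ⊕ C) K).comp (rename iota) = ψ.comp (Th R A Q T N K) := by
    apply MvPolynomial.algHom_ext
    intro v
    rw [AlgHom.comp_apply, AlgHom.comp_apply, rename_X, Th, aeval_X, Th, aeval_X, pt_iota]
    have h2 := map_pt ψ.toRingHom
      (fun v => (Polynomial.C (X v) : Polynomial (MvPolynomial (VarT R A Q T N) K)))
      Polynomial.X v
    change ψ _ = _ at h2
    rw [h2]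
    congr 1
    · funext w
      change _ = Polynomial.map _ (Polynomial.C (X w))
      rw [Polynomial.map_C]
      simp
    · change _ = Polynomial.map _ Polynomial.X
      rw [Polynomial.map_X]
  exact congrArg (fun f => f g) this

lemma Th_retr (g : MvPolynomial (VarT R (A ⊕ B) Q T (N ⊕ C)) K) :
    Th R A Q T N K (retr R A Q T N B C K g) =
      Polynomial.map (retr R A Q T N B C K).toRingHom (Th R (A ⊕ B) Q T (N ⊕ C) K g) := by
  let ψ : Polynomial (MvPolynomial (VarT R (A ⊕ B) Q T (N ⊕ C)) K) →ₐ[K]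
    Polynomial (MvPolynomial (VarT R A Q T N) K) :=
    Polynomial.mapAlgHom (retr R A Q T N B C K)
  have : (Th R A Q T N K).comp (retr R A Q T N B C K) = ψ.comp (Th R (A ⊕ B) Q T (N ⊕ C) K) := by
    apply MvPolynomial.algHom_ext
    intro v
    rw [AlgHom.comp_apply, AlgHom.comp_apply]
    have e1 : retr R A Q T N B C K (X v) = ext0 (fun v => X v) v := by rw [retr, aeval_X]
    have e2 : Th R (A ⊕ B) Q T (N ⊕ C) K (X v) =
        pt (fun v => (Polynomial.C (X v) : Polynomial (MvPolynomial (VarT R (A ⊕ B) Q T (N ⊕ C)) K)))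
          Polynomial.X v := by
      rw [Th, aeval_X]
    have e3 : ∀ w : VarT R A Q T N, Th R A Q T N K (X w) =
        pt (fun v => (Polynomial.C (X v) : Polynomial (MvPolynomial (VarT R A Q T N) K)))
          Polynomial.X w := by
      intro w
      rw [Th, aeval_X]
    rw [e1, e2, map_ext0 (fun z => Th R A Q T N K z) (map_zero (Th R A Q T N K))]
    simp only [e3]
    rw [← pt_ext0]
    have h2 := map_pt ψ.toRingHom
      (fun v => (Polynomial.C (X v) : Polynomial (MvPolynomial (VarT R (A ⊕ B) Q T (N ⊕ C)) K)))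
      Polynomial.X v
    change ψ _ = _ at h2
    rw [h2]
    congr 1
    · funext w
      change _ = Polynomial.map _ (Polynomial.C (X w))
      rw [Polynomial.map_C]
      change _ = Polynomial.C (retr R A Q T N B C K (X w))
      rw [retr, aeval_X]
      exact (map_ext0 (fun z => Polynomial.C z) (map_zero _) _ w).symm
    · change _ = Polynomial.map _ Polynomial.X
      rw [Polynomial.map_X]
  exact congrArg (fun f => f g) this

lemma fil_rename {n : ℕ} {g : MvPolynomial (VarT R A Q T N) K} (hg : g ∈ fil K n) :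
    (rename iota g : MvPolynomial (VarT R (A ⊕ B) Q T (N ⊕ C)) K) ∈ fil K n := by
  rw [mem_fil] at hg ⊢
  rw [Th_rename]
  have h7 := Polynomial.map_dvd (rename iota : MvPolynomial (VarT R A Q T N) K →ₐ[K]
        MvPolynomial (VarT R (A ⊕ B) Q T (N ⊕ C)) K).toRingHom hg
  rw [Polynomial.map_pow, Polynomial.map_X] at h7
  exact h7

lemma fil_retr {n : ℕ} {g : MvPolynomial (VarT R (A ⊕ B) Q T (N ⊕ C)) K} (hg : g ∈ fil K n) :
    retr R A Q T N B C K g ∈ fil K n := by
  rw [mem_fil] at hg ⊢
  rw [Th_retr]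
  have h7 := Polynomial.map_dvd (retr R A Q T N B C K).toRingHom hg
  rw [Polynomial.map_pow, Polynomial.map_X] at h7
  exact h7

end

section

variable {R A Q T N : Type*}
variable [Fintype R] [Fintype A] [Fintype Q] [Fintype T] [Fintype N]
  [DecidableEq R] [DecidableEq A] [DecidableEq Q] [DecidableEq T] [DecidableEq N]

/-- the symbolic Rees algebra is Noetherian over every field, for all sizes -/
theorem noeth_all (K : Type*) [Field K] :
    IsNoetherianRing (fil_symbFilt (R := R) (A := A) (Q := Q) (T := T) (N := N) K).rees := by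
  classical
  let B := Fin (Fintype.card Q + Fintype.card T)
  let C := Fin (Fintype.card R + Fintype.card Q)
  have h1 := noeth_large (R := R) (A := A ⊕ B) (Q := Q) (T := T) (N := N ⊕ C) (Fintype.card A)
    (Fintype.card N) (by simp [B]; ring) (by simp [C]; ring) K
  set F' := fil_symbFilt (R := R) (A := A ⊕ B) (Q := Q) (T := T) (N := N ⊕ C) K with hF'
  set F := fil_symbFilt (R := R) (A := A) (Q := Q) (T := T) (N := N) K with hF
  let φ : F'.rees →+* F.rees :=
    { toFun := fun x => ⟨Polynomial.map (retr R A Q T N B C K).toRingHom x.1, by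
        intro k
        rw [Polynomial.coeff_map]
        exact fil_retr K (x.2 k)⟩
      map_one' := by
        apply Subtype.ext
        exact Polynomial.map_one _
      map_mul' := by
        intro x y
        apply Subtype.ext
        exact Polynomial.map_mul _
      map_zero' := by
        apply Subtype.ext
        exact Polynomial.map_zero _
      map_add' := by
        intro x y
        apply Subtype.ext
        exact Polynomial.map_add _ }
  refine isNoetherianRing_of_surjective F'.rees F.rees φ ?_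
  rintro ⟨x, hx⟩
  refine ⟨⟨Polynomial.map (rename iota : MvPolynomial (VarT R A Q T N) K →ₐ[K]
        MvPolynomial (VarT R (A ⊕ B) Q T (N ⊕ C)) K).toRingHom x, ?_⟩, ?_⟩
  · intro k
    rw [Polynomial.coeff_map]
    exact fil_rename K (hx k)
  · apply Subtype.ext
    change Polynomial.map _ (Polynomial.map _ x) = x
    rw [Polynomial.map_map]
    have : (retr R A Q T N B C K).toRingHom.comp (rename iota : MvPolynomial (VarT R A Q T N) K →ₐ[K]
        MvPolynomial (VarT R (A ⊕ B) Q T (N ⊕ C)) K).toRingHom = RingHom.id _ := by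
      ext g
      · simp
      · change coeff _ (retr R A Q T N B C K (rename iota (X g))) = _
        rw [retr_rename]
        rfl
    rw [this, Polynomial.map_id]

end

end Pool.Agent.J6H94.SymbVC
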